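import Pool.Agent.H45.OC.Defs
import Pool.Agent.H64.OC.Defs

/-!
# From the relative game to on-line colouring

Module FINALA.

`run_prefix`: by induction on the reversed list (`run_concat`).

`phi_le_of_claim`: apply the claim to `onePt k`, `Xs = {root}`, `ab = univ`; get the strategy `f`.
The algorithm is `A s G = if G.Colorable k ∧ s < n then 2 * f (inputs k G) else 2 * s + 1`.
Proper: let `i < j` be adjacent in `G` on `Fin n'`.  If `initial G j` is `k`-colourable and
`j < n`, so is `initial G i`, and `inputs (initial G i)` is a prefix of `inputs (initial G j)`; the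
list `inputs (initial G j)` is admissible, of length `j + 1 ≤ n`, and refutes weight `0 < κ`, so
it is `Good`, and its last input is adjacent to the input number `i`.  Otherwise the colour of
`j` is `2 j + 1`, different from even numbers and from `2 i + 1`.  For `k`-colourable `G` on
`Fin n` all colours are even and less than `2 M`.  `phi k n ≤ M` by `Nat.sInf_le`.
`phi_le_n`: the algorithm that gives the colour `s` to the vertex number `s`.
-/

set_option autoImplicit false

open Finset

noncomputable section

namespace Pool.Agent.H45.OC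

open Classical Pool.Agent.H64.OC

theorem run_prefix {k : ℕ} (f : List (Inp k) → ℕ) {L L' : List (Inp k)} {y : Inp k}
    (h : (L' ++ [y]) <+: L) : (y, f (L' ++ [y])) ∈ run f L := by
  induction L using List.reverseRecOn with
  | nil =>
    rw [List.prefix_nil] at h
    exact absurd h (by simp)
  | append_singleton L z ih =>
    rw [run_concat, List.mem_append, List.mem_singleton]
    rw [List.prefix_concat_iff] at h
    rcases h with h | h
    · right
      have h1 := List.append_inj' h rfl
      rw [h1.1]
      have h2 : y = z := by simpa using h1.2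
      rw [h2]
    · left
      exact ih h

/-- the inputs of an on-line graph -/
def inputs (k : ℕ) {m : ℕ} (G : SimpleGraph (Fin m)) : List (Inp k) :=
  (List.finRange m).map (fun i =>
    { t := i.val
      nb := (Finset.univ.filter (fun i' : Fin m => G.Adj i' i ∧ i' < i)).image Fin.val
      x := Rep.root
      a := fun _ => Finset.univ })

/-- the space with one hypothesis -/
def onePt (k : ℕ) : Sp k where
  sp := {[]}
  P := fun _ => 1
  nonneg := fun _ => zero_le_one
  total := by simp

theorem finalA_mass_false {k : ℕ} (μ : Sp k) {E : Hyp k → Prop} (h : ∀ ω ∈ μ.sp, ¬ E ω) :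
    μ.mass E = 0 := by
  unfold Sp.mass
  rw [Finset.filter_false_of_mem h, Finset.sum_empty]

theorem finalA_mass_true {k : ℕ} (μ : Sp k) {E : Hyp k → Prop} (h : ∀ ω ∈ μ.sp, E ω) :
    μ.mass E = ∑ ω ∈ μ.sp, μ.P ω := by
  unfold Sp.mass
  rw [Finset.filter_true_of_mem h]

theorem inputs_adm (k : ℕ) {m : ℕ} (G : SimpleGraph (Fin m)) {η : ℝ} (hη : 0 ≤ η) :
    Adm (onePt k) {Rep.root} (fun _ _ => Finset.univ) η (inputs k G) := by
  constructor
  · unfold inputs
    rw [List.pairwise_map]
    refine (List.pairwise_lt_finRange m).imp fun h => ?_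
    exact h
  · intro y hy i hi
    obtain ⟨a, -, rfl⟩ := List.mem_map.1 hy
    obtain ⟨b, hb, rfl⟩ := Finset.mem_image.1 hi
    exact (Finset.mem_filter.1 hb).2.2
  · intro y hy
    obtain ⟨a, -, rfl⟩ := List.mem_map.1 hy
    exact Finset.mem_singleton.2 rfl
  · intro y hy ω _ _
    obtain ⟨a, -, rfl⟩ := List.mem_map.1 hy
    rfl
  · intro y hy
    obtain ⟨a, -, rfl⟩ := List.mem_map.1 hy
    rw [finalA_mass_false]
    · exact hη
    · rintro ω - ⟨h1, h2⟩
      exact h1 h2

theorem inputs_refuted (k : ℕ) {m : ℕ} (G : SimpleGraph (Fin m)) (hk : 1 ≤ k)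
    (hG : G.Colorable k) : (onePt k).mass (Refuted (inputs k G)) = 0 := by
  refine finalA_mass_false _ fun ω _ href => href ?_
  obtain ⟨C⟩ := hG
  have hk0 : 0 < k := hk
  refine ⟨fun v => if h : v < m then C ⟨v, h⟩ else ⟨0, hk0⟩, ?_, ?_⟩
  · intro y hy _
    obtain ⟨a, -, rfl⟩ := List.mem_map.1 hy
    exact Finset.mem_univ _
  · unfold inputs
    rw [List.pairwise_map]
    refine (List.pairwise_lt_finRange m).imp ?_
    intro a b _ hnb
    obtain ⟨c, hc, hca⟩ := Finset.mem_image.1 hnb
    have hadj := (Finset.mem_filter.1 hc).2.1
    have hca' : c = a := Fin.ext hca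
    subst hca'
    simp only [Fin.is_lt, dif_pos, Fin.eta]
    exact C.valid hadj

/-- the input number `v` of an on-line graph -/
def inpAt (k : ℕ) {m : ℕ} (G : SimpleGraph (Fin m)) (v : ℕ) : Inp k where
  t := v
  nb := (Finset.univ.filter (fun i' : Fin m => (∃ h : v < m, G.Adj i' ⟨v, h⟩) ∧ i'.val < v)).image
    Fin.val
  x := Rep.root
  a := fun _ => Finset.univ

theorem inputs_initial (k : ℕ) {m : ℕ} (G : SimpleGraph (Fin m)) (i : Fin m) :
    inputs k (initial G i) = (List.range (i.val + 1)).map (inpAt k G) := by
  refine List.ext_getElem ?_ fun v h1 h2 => ?_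
  · simp [inputs]
  · have hv : v < i.val + 1 := by simpa [inputs] using h1
    simp only [inputs, List.getElem_map, List.getElem_finRange, List.getElem_range, inpAt]
    congr 1
    ext z
    simp only [Finset.mem_image, Finset.mem_filter, Finset.mem_univ, true_and, initial,
      SimpleGraph.comap_adj]
    constructor
    · rintro ⟨a, ⟨ha1, ha2⟩, rfl⟩
      refine ⟨Fin.castLE i.isLt a, ⟨⟨by omega, ?_⟩, ?_⟩, rfl⟩
      · exact ha1
      · exact ha2
    · rintro ⟨a, ⟨⟨hvm, ha1⟩, ha2⟩, rfl⟩
      refine ⟨⟨a.val, by omega⟩, ⟨?_, ?_⟩, rfl⟩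
      · exact ha1
      · exact ha2

theorem inputs_prefix (k : ℕ) {m : ℕ} (G : SimpleGraph (Fin m)) (i j : Fin m) (hij : i < j) :
    (inputs k (initial G i)) <+: (inputs k (initial G j)) ∧
      inputs k (initial G i) ≠ inputs k (initial G j) := by
  have hij' : i.val < j.val := hij
  rw [inputs_initial, inputs_initial]
  constructor
  · refine List.IsPrefix.map _ ?_
    have h : List.range (i.val + 1) = (List.range (j.val + 1)).take (i.val + 1) := by
      rw [List.take_range, Nat.min_eq_left (by omega)]
    rw [h]
    exact List.take_prefix _ _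
  · intro h
    have h1 := congrArg List.length h
    simp only [List.length_map, List.length_range] at h1
    omega

theorem finalA_colorable_initial {k m : ℕ} {G : SimpleGraph (Fin m)} (hG : G.Colorable k)
    (i : Fin m) : (initial G i).Colorable k := by
  refine SimpleGraph.Colorable.of_hom (⟨Fin.castLE i.isLt, ?_⟩ : initial G i →g G) hG
  intro a b h
  exact h

theorem finalA_colorable_mono {k m : ℕ} {G : SimpleGraph (Fin m)} {i j : Fin m} (hij : i < j)
    (hG : (initial G j).Colorable k) : (initial G i).Colorable k := by
  have hij' : i.val < j.val := hij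
  refine SimpleGraph.Colorable.of_hom
    (⟨Fin.castLE (by omega), ?_⟩ : initial G i →g initial G j) hG
  intro a b h
  exact h

theorem phi_le_of_claim {k n M0 M : ℕ} {κ η p : ℝ} (hk : 1 ≤ k) (hκ : 0 < κ) (hη : 0 ≤ η)
    (hp : p ≤ 1) (hM0 : 1 ≤ M0) (h : Claim k k n κ η p M0 M) : phi k n ≤ M := by
  have : Nonempty (Fin k) := ⟨⟨0, hk⟩⟩
  obtain ⟨f, hf⟩ := h (onePt k) {Rep.root} (fun _ _ => Finset.univ)
    (by rw [Finset.card_singleton]; exact hM0)
    (fun _ _ _ _ _ => by rw [Finset.card_univ, Fintype.card_fin]) (by
      intro x _
      refine hp.trans (le_of_eq ?_)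
      rw [finalA_mass_true]
      · simp [onePt]
      · intro ω _
        exact Finset.univ_nonempty.ne_empty)
  have hgood : ∀ {m : ℕ} (G : SimpleGraph (Fin m)), G.Colorable k → m ≤ n →
      Good f (inputs k G) M := by
    intro m G hG hm
    refine hf _ (inputs_adm k G hη) ?_ ?_
    · simpa [inputs] using hm
    · rw [inputs_refuted k G hk hG]
      exact hκ
  have hgoodi : ∀ {m : ℕ} (G : SimpleGraph (Fin m)) (i : Fin m), (initial G i).Colorable k →
      i.val < n → Good f ((List.range i.val).map (inpAt k G) ++ [inpAt k G i.val]) M := by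
    intro m G i hG hi
    have h1 := hgood (initial G i) hG hi
    rw [inputs_initial, List.range_succ, List.map_append, List.map_cons, List.map_nil] at h1
    exact h1
  let A : OnlineAlg := fun s G => if G.Colorable k ∧ s < n then 2 * f (inputs k G) else 2 * s + 1
  have hA : ∀ {m : ℕ} (G : SimpleGraph (Fin m)) (i : Fin m), A.colour G i =
      if (initial G i).Colorable k ∧ i.val < n then 2 * f (inputs k (initial G i))
      else 2 * i.val + 1 := fun G i => rfl
  have hlt : ∀ {m : ℕ} (G : SimpleGraph (Fin m)) (i j : Fin m), i < j → G.Adj i j →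
      A.colour G i ≠ A.colour G j := by
    intro m G i j hij hadj
    have hij' : i.val < j.val := hij
    rw [hA, hA]
    by_cases hj : (initial G j).Colorable k ∧ j.val < n
    · have hi : (initial G i).Colorable k ∧ i.val < n :=
        ⟨finalA_colorable_mono hij hj.1, by omega⟩
      rw [if_pos hj, if_pos hi]
      have hg := hgoodi G j hj.1 hj.2
      rw [good_concat] at hg
      have hpre : ((List.range i.val).map (inpAt k G) ++ [inpAt k G i.val]) <+:
          (List.range j.val).map (inpAt k G) := by
        have e1 : (List.range i.val).map (inpAt k G) ++ [inpAt k G i.val] =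
            (List.range (i.val + 1)).map (inpAt k G) := by
          rw [List.range_succ, List.map_append, List.map_cons, List.map_nil]
        rw [e1]
        refine List.IsPrefix.map _ ?_
        have h : List.range (i.val + 1) = (List.range j.val).take (i.val + 1) := by
          rw [List.take_range, Nat.min_eq_left (by omega)]
        rw [h]
        exact List.take_prefix _ _
      have h1 := hg.2.2 _ (run_prefix f hpre) ?_
      · have e1 : inputs k (initial G i) =
            (List.range i.val).map (inpAt k G) ++ [inpAt k G i.val] := by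
          rw [inputs_initial, List.range_succ, List.map_append, List.map_cons, List.map_nil]
        have e2 : inputs k (initial G j) =
            (List.range j.val).map (inpAt k G) ++ [inpAt k G j.val] := by
          rw [inputs_initial, List.range_succ, List.map_append, List.map_cons, List.map_nil]
        rw [e1, e2]
        intro h2
        exact h1 (by simpa using h2)
      · simp only [inpAt, Finset.mem_image, Finset.mem_filter, Finset.mem_univ, true_and]
        exact ⟨i, ⟨⟨j.isLt, hadj⟩, hij'⟩, rfl⟩
    · rw [if_neg hj]
      split_ifs <;> omega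
  have hbound : ∀ G : SimpleGraph (Fin n), G.Colorable k → A.numColours G ≤ M := by
    intro G hG
    unfold OnlineAlg.numColours
    have hsub : Finset.univ.image (A.colour G) ⊆ (Finset.range M).image (fun c => 2 * c) := by
      intro c hc
      obtain ⟨i, -, rfl⟩ := Finset.mem_image.1 hc
      have hi : (initial G i).Colorable k ∧ i.val < n := ⟨finalA_colorable_initial hG i, i.isLt⟩
      rw [hA, if_pos hi, Finset.mem_image]
      refine ⟨_, ?_, rfl⟩
      rw [Finset.mem_range]
      have hg := hgoodi G i hi.1 hi.2
      rw [good_concat] at hg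
      rw [inputs_initial, List.range_succ, List.map_append, List.map_cons, List.map_nil]
      exact hg.2.1
    calc _ ≤ _ := Finset.card_le_card hsub
      _ ≤ (Finset.range M).card := Finset.card_image_le
      _ = M := Finset.card_range M
  refine Nat.sInf_le ⟨A, ?_, hbound⟩
  intro m G i j hadj
  rcases lt_trichotomy i j with hij | hij | hij
  · exact hlt G i j hij hadj
  · exact absurd hij hadj.ne
  · exact (hlt G j i hij hadj.symm).symm

theorem phi_le_n (k n : ℕ) : phi k n ≤ n := by
  refine Nat.sInf_le ⟨fun s _ => s, ?_, ?_⟩
  · intro m G i j hadj heq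
    exact hadj.ne (Fin.ext heq)
  · intro G _
    unfold OnlineAlg.numColours
    calc _ ≤ (Finset.univ : Finset (Fin n)).card := Finset.card_image_le
      _ = n := by rw [Finset.card_univ, Fintype.card_fin]

end Pool.Agent.H45.OC
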