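import Pool.Agent.H45.OC.Asym

/-!
# Bound for the number of epochs

Module PARAME.  `k N / (n ^ (-6 e1) N1) ≤ 2 k b n ^ (6 e1)` and
`log (2 k (N1 + 1)) ≤ n ^ (e1 / 2)` (`ev_log`), so the left side is at most
`(4 k n ^ (9.5 e1) + 2 n ^ (3 e1) + 3) b`; use `ev_const`.
-/

set_option autoImplicit false

open Finset

noncomputable section

namespace Pool.Agent.H45.OC

theorem bound_E_aux {k b : ℕ} {N N1 x l : ℝ} (hb : 1 ≤ b) (hN : 0 ≤ N) (hN1 : 1 ≤ N1)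
    (hx : 4 * k + 5 ≤ x) (hl : l ≤ x) (h : N ≤ 2 * b * N1) :
    2 * ((k * N / ((x ^ 6)⁻¹ * (x ^ 6)⁻¹ * N1)) * l + 1) / (x ^ 6)⁻¹ + N / N1 + 1 ≤
      x ^ 20 * b := by
  have hk0 : (0 : ℝ) ≤ k := Nat.cast_nonneg k
  have hx1 : 1 ≤ x := by linarith
  have hx0 : 0 < x := by linarith
  have hb1 : (1 : ℝ) ≤ b := by exact_mod_cast hb
  have hN1' : 0 < N1 := by linarith
  set r : ℝ := N / N1 with hr
  have hr0 : 0 ≤ r := by positivity
  have hr2 : r ≤ 2 * b := by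
    rw [hr, div_le_iff₀ hN1']
    exact h
  have e1 : k * N / ((x ^ 6)⁻¹ * (x ^ 6)⁻¹ * N1) = k * r * x ^ 12 := by
    rw [hr]
    field_simp
  have e2 : 2 * (k * r * x ^ 12 * l + 1) / (x ^ 6)⁻¹ = 2 * (k * r * x ^ 12 * l + 1) * x ^ 6 := by
    rw [div_inv_eq_mul]
  rw [e1, e2]
  have h1 : k * r * x ^ 12 * l ≤ 2 * k * b * x ^ 13 := by
    calc k * r * x ^ 12 * l ≤ k * r * x ^ 12 * x := mul_le_mul_of_nonneg_left hl (by positivity)
      _ = (k * x ^ 13) * r := by ring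
      _ ≤ (k * x ^ 13) * (2 * b) := mul_le_mul_of_nonneg_left hr2 (by positivity)
      _ = _ := by ring
  have h2 : 2 * (k * r * x ^ 12 * l + 1) * x ^ 6 ≤ 2 * (2 * k * b * x ^ 13 + 1) * x ^ 6 :=
    mul_le_mul_of_nonneg_right (by linarith) (by positivity)
  have h3 : x ^ 6 ≤ x ^ 19 := pow_le_pow_right₀ hx1 (by norm_num)
  have h4 : 1 ≤ x ^ 19 := one_le_pow₀ hx1
  have h5 : x ^ 6 ≤ b * x ^ 19 := by nlinarith
  have h6 : (b : ℝ) ≤ b * x ^ 19 := by nlinarith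
  have h7 : (1 : ℝ) ≤ b * x ^ 19 := by nlinarith
  calc 2 * (k * r * x ^ 12 * l + 1) * x ^ 6 + r + 1
      ≤ 2 * (2 * k * b * x ^ 13 + 1) * x ^ 6 + 2 * b + 1 := by linarith
    _ = 4 * k * (b * x ^ 19) + 2 * x ^ 6 + 2 * b + 1 := by ring
    _ ≤ 4 * k * (b * x ^ 19) + 2 * (b * x ^ 19) + 2 * (b * x ^ 19) + b * x ^ 19 := by linarith
    _ = (4 * k + 5) * (b * x ^ 19) := by ring
    _ ≤ x * (b * x ^ 19) := mul_le_mul_of_nonneg_right hx (by positivity)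
    _ = x ^ 20 * b := by ring

theorem bound_E (k : ℕ) (hk : 1 ≤ k) (e1 : ℝ) (he1 : 0 < e1) :
    ∃ n0 : ℕ, 1 ≤ n0 ∧ ∀ n : ℕ, n0 ≤ n → ∀ b N N1 : ℕ, 1 ≤ b → 1 ≤ N → N ≤ n → 1 ≤ N1 →
      N1 ≤ N → (N : ℝ) / (2 * b) ≤ (N1 : ℝ) →
      2 * ((k * N / ((n : ℝ) ^ (-(3 * e1)) * (n : ℝ) ^ (-(3 * e1)) * N1)) *
        Real.log (2 * k * (N1 + 1)) + 1) / (n : ℝ) ^ (-(3 * e1)) + (N : ℝ) / N1 + 1 ≤
      (n : ℝ) ^ (10 * e1) * b := by
  have hkR : (1 : ℝ) ≤ k := by exact_mod_cast hk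
  obtain ⟨n1, hn1, h1⟩ := ev_log 1 (2 * k) (e1 / 2) (by positivity) (by positivity)
  obtain ⟨n2, hn2, h2⟩ := ev_const (4 * k + 5) 0 (e1 / 2) (by positivity)
  refine ⟨max n1 n2, hn1.trans (le_max_left _ _), ?_⟩
  intro n hn b N N1 hb hN hNn hN1 hN1N hdiv
  have hn0 : 1 ≤ n := hn1.trans ((le_max_left _ _).trans hn)
  have hnR : (0 : ℝ) < n := by exact_mod_cast hn0
  have hlog := h1 n ((le_max_left _ _).trans hn)
  have hconst := h2 n ((le_max_right _ _).trans hn)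
  rw [Real.rpow_zero, mul_one] at hconst
  rw [one_mul] at hlog
  set x : ℝ := (n : ℝ) ^ (e1 / 2) with hx
  have e6 : (n : ℝ) ^ (-(3 * e1)) = (x ^ 6)⁻¹ := by
    rw [Real.rpow_neg hnR.le, hx, ← Real.rpow_natCast, ← Real.rpow_mul hnR.le]
    congr 2
    push_cast
    ring
  have e20 : (n : ℝ) ^ (10 * e1) = x ^ 20 := by
    rw [hx, ← Real.rpow_natCast, ← Real.rpow_mul hnR.le]
    congr 1
    push_cast
    ring
  rw [e6, e20]
  have hN1R : (1 : ℝ) ≤ N1 := by exact_mod_cast hN1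
  have hbR : (1 : ℝ) ≤ b := by exact_mod_cast hb
  have hN1n : (N1 : ℝ) ≤ n := by exact_mod_cast hN1N.trans hNn
  refine bound_E_aux hb (Nat.cast_nonneg _) hN1R hconst (le_trans ?_ hlog) ?_
  · refine Real.log_le_log (by positivity) ?_
    exact mul_le_mul_of_nonneg_left (by linarith) (by positivity)
  · rw [div_le_iff₀ (by positivity)] at hdiv
    linarith

end Pool.Agent.H45.OC
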