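import Pool.Agent.H45.OC.Asym

/-!
# Bound for the number of colours

Module PARAMM.  `E ≤ 2 n ^ (10 e1) b`, `Msub ≤ n ^ e1 N / b ^ 2`, `1 ≤ N / b ^ 2`, so
`1 + (j - 1) Msub ≤ j n ^ e1 N / b ^ 2` (for `j = 0` the subtraction is zero) and the left side is
at most `n ^ e1 (1 + 2 (j + 1) n ^ (11 e1)) N / b`; use `ev_const`.
-/

set_option autoImplicit false

open Finset

noncomputable section

namespace Pool.Agent.H45.OC

theorem bound_M_aux {j : ℕ} {b N N1 E K Ms y j1 : ℝ} (hb : 1 ≤ b) (hbN : b * b ≤ N)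
    (hN1 : N1 ≤ N / b) (hN10 : 0 ≤ N1) (hE0 : 0 ≤ E) (hMs0 : 0 ≤ Ms)
    (hE : E ≤ y ^ 10 * b + 1) (hK : K ≤ y) (hMs : Ms ≤ y * N1 / b)
    (hj0 : 0 ≤ j1) (hj : j1 ≤ j) (hy : 3 + 2 * j ≤ y) :
    K * (N1 + E * (1 + j1 * Ms)) ≤ y ^ 20 * N / b := by
  have hjR : (0 : ℝ) ≤ j := Nat.cast_nonneg j
  have hy1 : 1 ≤ y := by linarith
  have hy0 : 0 < y := by linarith
  have hb0 : 0 < b := by linarith
  have hN0 : 0 < N := by nlinarith
  set t : ℝ := N / b with ht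
  have ht0 : 0 < t := by positivity
  have htb : b ≤ t := by
    rw [ht, le_div_iff₀ hb0]
    exact hbN
  set s : ℝ := t / b with hs
  have hs1 : 1 ≤ s := by
    rw [hs, le_div_iff₀ hb0, one_mul]
    exact htb
  have hsb : s * b = t := by
    rw [hs]
    field_simp
  have hMs' : Ms ≤ y * s := by
    refine hMs.trans ?_
    rw [hs, mul_div_assoc]
    refine mul_le_mul_of_nonneg_left ?_ hy0.le
    exact div_le_div_of_nonneg_right hN1 hb0.le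
  have hE' : E ≤ 2 * y ^ 10 * b := by
    have : 1 ≤ y ^ 10 * b := by
      have h1 : 1 ≤ y ^ 10 := one_le_pow₀ hy1
      nlinarith
    linarith
  have h1 : 1 + j1 * Ms ≤ (1 + j) * (y * s) := by
    have h2 : 1 ≤ y * s := by nlinarith
    have h3 : j1 * Ms ≤ j * (y * s) := mul_le_mul hj hMs' hMs0 hjR
    linarith
  have h10 : 0 ≤ 1 + j1 * Ms := by positivity
  have h2 : E * (1 + j1 * Ms) ≤ (2 * y ^ 10 * b) * ((1 + j) * (y * s)) :=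
    mul_le_mul hE' h1 h10 (by positivity)
  have h3 : (2 * y ^ 10 * b) * ((1 + j) * (y * s)) = 2 * (1 + j) * y ^ 11 * t := by
    rw [← hsb]; ring
  have h4 : N1 + E * (1 + j1 * Ms) ≤ (3 + 2 * j) * y ^ 11 * t := by
    have h5 : 1 ≤ y ^ 11 := one_le_pow₀ hy1
    have h6 : t ≤ y ^ 11 * t := by nlinarith
    rw [h3] at h2
    calc N1 + E * (1 + j1 * Ms) ≤ y ^ 11 * t + 2 * (1 + j) * y ^ 11 * t := by linarith
      _ = _ := by ring
  have h5 : 0 ≤ N1 + E * (1 + j1 * Ms) := by positivity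
  calc K * (N1 + E * (1 + j1 * Ms)) ≤ y * ((3 + 2 * j) * y ^ 11 * t) :=
        mul_le_mul hK h4 h5 hy0.le
    _ = (3 + 2 * j) * (y ^ 12 * t) := by ring
    _ ≤ y * (y ^ 12 * t) := mul_le_mul_of_nonneg_right hy (by positivity)
    _ = y ^ 13 * t := by ring
    _ ≤ y ^ 20 * t := mul_le_mul_of_nonneg_right (pow_le_pow_right₀ hy1 (by norm_num)) ht0.le
    _ = y ^ 20 * N / b := by rw [ht, mul_div_assoc]

theorem bound_M (j : ℕ) (e1 : ℝ) (he1 : 0 < e1) :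
    ∃ n0 : ℕ, 1 ≤ n0 ∧ ∀ n : ℕ, n0 ≤ n → ∀ b N N1 E K Msub : ℕ, 1 ≤ b → (b : ℝ) * b ≤ N →
      ((N1 : ℕ) : ℝ) ≤ (N : ℝ) / b → (E : ℝ) ≤ (n : ℝ) ^ (10 * e1) * b + 1 →
      (K : ℝ) ≤ (n : ℝ) ^ e1 → (Msub : ℝ) ≤ (n : ℝ) ^ e1 * N1 / b →
      ((K * (N1 + E * (1 + (j - 1) * Msub)) : ℕ) : ℝ) ≤ (n : ℝ) ^ (20 * e1) * N / b := by
  obtain ⟨n2, hn2, h2⟩ := ev_const (3 + 2 * j) 0 e1 he1
  refine ⟨n2, hn2, ?_⟩
  intro n hn b N N1 E K Msub hb hbN hN1 hE hK hMs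
  have hn0 : 1 ≤ n := hn2.trans hn
  have hnR : (0 : ℝ) < n := by exact_mod_cast hn0
  have hconst := h2 n hn
  rw [Real.rpow_zero, mul_one] at hconst
  set y : ℝ := (n : ℝ) ^ e1 with hy
  have e10 : (n : ℝ) ^ (10 * e1) = y ^ 10 := by
    rw [hy, ← Real.rpow_natCast, ← Real.rpow_mul hnR.le]
    congr 1
    push_cast
    ring
  have e20 : (n : ℝ) ^ (20 * e1) = y ^ 20 := by
    rw [hy, ← Real.rpow_natCast, ← Real.rpow_mul hnR.le]
    congr 1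
    push_cast
    ring
  rw [e10] at hE
  rw [e20]
  have hj1 : ((j - 1 : ℕ) : ℝ) ≤ j := by exact_mod_cast Nat.sub_le j 1
  have h := bound_M_aux (j := j) (b := (b : ℝ)) (N := (N : ℝ)) (N1 := (N1 : ℝ)) (E := (E : ℝ))
    (K := (K : ℝ)) (Ms := (Msub : ℝ)) (y := y) (j1 := ((j - 1 : ℕ) : ℝ))
    (by exact_mod_cast hb) hbN hN1 (Nat.cast_nonneg _) (Nat.cast_nonneg _) (Nat.cast_nonneg _)
    hE hK hMs (Nat.cast_nonneg _) hj1 hconst
  push_cast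
  exact h

end Pool.Agent.H45.OC
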