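import Pool.Agent.H45.OC.ParamUni
import Pool.Agent.H45.OC.ParamE
import Pool.Agent.H45.OC.ParamM

/-!
# The step of the induction

Module PARAMSTEP.

Given `C0`, `ε`, put `e1 = ε / 20`.  For `1 ≤ m < j` take `δ_m`, `n_m` from
`SS k m` applied with `C0 + 1` and `e1`, and let `δs` be the minimum of the `δ_m`
(`ss_uniform`).  Put `δ1 = min (δs / 2) (e1 / 2)`, `κ0 = n ^ (-δ1)`, `ps = κ0 / (2 k)`
(at least `n ^ (-δs)` for large `n`), `κs = n ^ (-e1)`, `ηs = n ^ (-2 e1)`,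
`c = δ = c1 = n ^ (-3 e1)`, `r = N1 = N / b`, `Msub = ⌊n ^ e1 * N1 / b⌋₊`,
`E = ⌈n ^ (10 e1) * b⌉₊`, and the number of clusters `K ≤ n ^ e1` from
`cluster_param k C0 2 δ1 e1`.

* `N1 = N / b` satisfies `1 ≤ N1`, `N / (2 b) ≤ N1 ≤ N / b` (real numbers), `b ≤ N1` and
  `b ^ (m - 1) ≤ N1` for `m < j`, because `b * b ^ (j - 2) = b ^ (j - 1) ≤ N` (`j ≥ 3`).
* `bound_E`: `2 ((k N / (c δ r)) log (2k (N1 + 1)) + 1) / c1 + N / N1 + 1 ≤ n ^ (10 e1) * b`.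
* `bound_M`: `K * (r + E (1 + (j - 1) Msub)) ≤ n ^ ε N / b`.
-/

set_option autoImplicit false

open Finset

noncomputable section

namespace Pool.Agent.H45.OC

theorem ss_step {k j : ℕ} (hj : 3 ≤ j) (hk : j ≤ k) (h : ∀ m, 1 ≤ m → m < j → SS k m) :
    SS k j := by
  intro C0 ε hε
  obtain ⟨e1, he1, heε⟩ : ∃ e1 : ℝ, 0 < e1 ∧ ε = 20 * e1 := ⟨ε / 20, by positivity, by ring⟩
  have hk1 : 1 ≤ k := by omega
  obtain ⟨δs, hδs, na, hna1, ha⟩ := ss_uniform h (C0 + 1) e1 he1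
  obtain ⟨δ1, hδ1, hδ1s, hδ1e⟩ : ∃ δ1 : ℝ, 0 < δ1 ∧ δ1 ≤ δs / 2 ∧ δ1 ≤ e1 / 2 :=
    ⟨min (δs / 2) (e1 / 2), lt_min (by positivity) (by positivity), min_le_left _ _,
      min_le_right _ _⟩
  obtain ⟨δ, hδ, nb, hnb1, hb'⟩ := cluster_param k C0 2 δ1 e1 hδ1 he1
  obtain ⟨nc, hnc1, hc'⟩ := bound_E k hk1 e1 he1
  obtain ⟨nd, hnd1, hd'⟩ := bound_M j e1 he1
  obtain ⟨ne, hne1, he'⟩ := ev_const ((k : ℝ) + 4) (-(3 * e1)) (-(2 * e1)) (by linarith)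
  obtain ⟨nf, hnf1, hf'⟩ := ev_const 4 (-(2 * e1)) (-(e1 / 2)) (by linarith)
  obtain ⟨ng, hng1, hg'⟩ := ev_const (2 * (k : ℝ)) (-δs) (-(δs / 2)) (by linarith)
  refine ⟨δ, hδ, na + nb + nc + nd + ne + nf + ng, fun n hn b N hb hbN hNn hbj => ?_⟩
  have hnR : (1 : ℝ) ≤ n := by
    have : 1 ≤ n := by omega
    exact_mod_cast this
  have hn0 : (0 : ℝ) < n := by linarith
  obtain ⟨g1, g2, g3, g4, g5, g6⟩ := div_facts hj hb hbj hbN
  obtain ⟨mm, J, c1, c2, c3⟩ := hb' n (by omega)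
  have hbR : (0 : ℝ) < b := by exact_mod_cast hb
  have hrp : ∀ u v : ℝ, u ≤ v → (n : ℝ) ^ u ≤ (n : ℝ) ^ v := fun u v huv =>
    Real.rpow_le_rpow_of_exponent_le hnR huv
  have hr1 : ∀ u : ℝ, u ≤ 0 → (n : ℝ) ^ u ≤ 1 := fun u hu =>
    Real.rpow_le_one_of_one_le_of_nonpos hnR hu
  have hpos : ∀ u : ℝ, 0 < (n : ℝ) ^ u := fun u => Real.rpow_pos_of_pos hn0 u
  have hkR : (3 : ℝ) ≤ k := by exact_mod_cast hj.trans hk
  set N1 := N / b with hN1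
  set Ms := ⌊(n : ℝ) ^ e1 * N1 / b⌋₊ with hMs
  set E := ⌈(n : ℝ) ^ (10 * e1) * b⌉₊ with hE
  set K := (2 ^ k * mm) ^ J with hK
  refine ⟨K * (N1 + E * (1 + (j - 1) * Ms)), ?_, ?_⟩
  · -- number of colours
    rw [heε]
    refine hd' n (by omega) b N N1 E K Ms hb ?_ g4 ?_ c3 ?_
    · have h1 : b * b ≤ N := by
        calc b * b = b ^ 2 := by ring
          _ ≤ b ^ (j - 1) := Nat.pow_le_pow_right hb (by omega)
          _ ≤ N := hbj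
      exact_mod_cast h1
    · exact (Nat.ceil_lt_add_one (by positivity)).le
    · exact Nat.floor_le (by positivity)
  · refine claim_of_PA (κ0 := (n : ℝ) ^ (-δ1)) (hpos _) (by linarith [hr1 (-δ) (by linarith)])
      (hpos _) ?_ c1 c2
    have hx1 := he' n (by omega)
    have hx2 := hf' n (by omega)
    have hx3 := hg' n (by omega)
    have hy1 : (n : ℝ) ^ (-(2 * ε)) ≤ (n : ℝ) ^ (-(3 * e1)) := hrp _ _ (by rw [heε]; linarith)
    have hy2 : (n : ℝ) ^ (-ε) ≤ (n : ℝ) ^ (-(2 * e1)) := hrp _ _ (by rw [heε]; linarith)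
    have hy3 : (n : ℝ) ^ (-(e1 / 2)) ≤ (n : ℝ) ^ (-δ1) := hrp _ _ (by linarith)
    have hy4 : (n : ℝ) ^ (-(δs / 2)) ≤ (n : ℝ) ^ (-δ1) := hrp _ _ (by linarith)
    refine claimPA_of_sub (c := (n : ℝ) ^ (-(3 * e1))) (δ := (n : ℝ) ^ (-(3 * e1)))
      (c1 := (n : ℝ) ^ (-(3 * e1))) (κs := (n : ℝ) ^ (-e1)) (ηs := (n : ℝ) ^ (-(2 * e1)))
      (ps := (n : ℝ) ^ (-δ1) / (2 * k)) (r := N1) (N1 := N1) hj hk g1 g1 (hpos _) (hpos _)
      (hr1 _ (by linarith)) (hpos _) (hrp _ _ (by linarith)) (hpos _).le ?_ le_rfl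
      (by positivity) ?_ ?_ ?_
    · linarith
    · linarith
    · refine le_trans (hc' n (by omega) b N N1 hb (by omega) hNn g1 g6 g5) ?_
      exact Nat.le_ceil _
    · intro m hm hmj
      have hcl := ha n (by omega) m hm hmj b N1 hb g2 (g6.trans hNn) (g3 m hm hmj)
      refine hcl.mono le_rfl le_rfl le_rfl ?_ ?_ le_rfl
      · rw [le_div_iff₀ (by linarith)]
        linarith
      · rw [pow_succ]
        exact Nat.mul_le_mul_left _ hNn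

end Pool.Agent.H45.OC
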