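import Pool.Agent.H45.OC.ParamBase
import Pool.Agent.H45.OC.ParamStep
import Pool.Agent.H45.OC.FinalA

/-!
# The final theorem

`upper_all`: `ss_all` for `j = k`, `N = n`, `b = ⌊n ^ (1/(k-1))⌋₊ ≥ n ^ (1/(k-1)) / 2`; for small
`n` use `phi_le_n`.
-/

set_option autoImplicit false

open Finset

noncomputable section

namespace Pool.Agent.H45.OC

open Classical Pool.Agent.H64.OC

theorem ss_all (k j : ℕ) (hj : 1 ≤ j) (hk : j ≤ k) : SS k j := by
  induction j using Nat.strong_induction_on with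
  | _ j ih =>
    rcases Nat.lt_or_ge j 3 with h | h
    · have h2 : j = 1 ∨ j = 2 := by omega
      rcases h2 with rfl | rfl
      · exact ss_one k
      · exact ss_two k
    · exact ss_step h hk (fun m hm hmj => ih m hmj hm (le_trans hmj.le hk))

/-- **Main theorem.** -/
theorem upper_all (k : ℕ) (hk : 2 ≤ k) (ε : ℝ) (hε : 0 < ε) :
    ∃ K : ℝ, ∀ n : ℕ, 1 ≤ n →
      (phi k n : ℝ) ≤ K * (n : ℝ) ^ (((k : ℝ) - 2) / ((k : ℝ) - 1) + ε) := by
  obtain ⟨δ, hδ, n0, hn0⟩ := ss_all k k (by omega) le_rfl 0 ε hε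
  have hk1 : (0 : ℝ) < (k : ℝ) - 1 := by
    have : (2 : ℝ) ≤ k := by exact_mod_cast hk
    linarith
  have hk2 : (0 : ℝ) ≤ (k : ℝ) - 2 := by
    have : (2 : ℝ) ≤ k := by exact_mod_cast hk
    linarith
  have hexp : 0 ≤ ((k : ℝ) - 2) / ((k : ℝ) - 1) + ε := by positivity
  refine ⟨max 2 n0, fun n hn => ?_⟩
  have hn1 : (1 : ℝ) ≤ n := by exact_mod_cast hn
  have hn0' : (0 : ℝ) < n := by linarith
  have hpow1 : 1 ≤ (n : ℝ) ^ (((k : ℝ) - 2) / ((k : ℝ) - 1) + ε) :=
    Real.one_le_rpow hn1 hexp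
  rcases Nat.lt_or_ge n n0 with hlt | hge
  · have h1 : (phi k n : ℝ) ≤ n := by exact_mod_cast phi_le_n k n
    have h2 : (n : ℝ) ≤ max 2 (n0 : ℝ) := by
      have : (n : ℝ) ≤ n0 := by exact_mod_cast hlt.le
      exact le_trans this (le_max_right _ _)
    calc (phi k n : ℝ) ≤ max 2 (n0 : ℝ) * 1 := by linarith
      _ ≤ _ := by
        apply mul_le_mul_of_nonneg_left hpow1
        exact le_trans zero_le_two (le_max_left _ _)
  · set x : ℝ := (n : ℝ) ^ (1 / ((k : ℝ) - 1)) with hx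
    have hx1 : 1 ≤ x := Real.one_le_rpow hn1 (by positivity)
    set b : ℕ := ⌊x⌋₊ with hb
    have hb1 : 1 ≤ b := by
      rw [hb, Nat.one_le_floor_iff]
      exact hx1
    have hbx : (b : ℝ) ≤ x := Nat.floor_le (by linarith)
    have hxb : x / 2 ≤ b := by
      have h1 : x < b + 1 := Nat.lt_floor_add_one x
      have h2 : (1 : ℝ) ≤ b := by exact_mod_cast hb1
      linarith
    have hcast : ((k - 1 : ℕ) : ℝ) = (k : ℝ) - 1 := by
      rw [Nat.cast_sub (by omega)]
      simp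
    have hbk : b ^ (k - 1) ≤ n := by
      have h1 : (b : ℝ) ^ (k - 1) ≤ x ^ (k - 1) :=
        pow_le_pow_left₀ (by positivity) hbx _
      have h2 : x ^ (k - 1) = n := by
        rw [hx, ← Real.rpow_natCast, ← Real.rpow_mul hn0'.le, hcast,
          one_div_mul_cancel hk1.ne', Real.rpow_one]
      rw [h2] at h1
      exact_mod_cast h1
    have hbn : b ≤ n := le_trans (Nat.le_self_pow (by omega) b) hbk
    obtain ⟨M, hM, hC⟩ := hn0 n hge b n hb1 hbn le_rfl hbk
    have h3 : phi k n ≤ M := by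
      refine phi_le_of_claim (by omega) (Real.rpow_pos_of_pos hn0' _)
        (Real.rpow_pos_of_pos hn0' _).le ?_ ?_ hC
      · exact Real.rpow_le_one_of_one_le_of_nonpos hn1 (by linarith)
      · simp
    have h4 : (phi k n : ℝ) ≤ M := by exact_mod_cast h3
    have hbpos : (0 : ℝ) < b := by exact_mod_cast hb1
    have h5 : (n : ℝ) ^ ε * n / b ≤
        2 * (n : ℝ) ^ (((k : ℝ) - 2) / ((k : ℝ) - 1) + ε) := by
      rw [div_le_iff₀ hbpos]
      have h6 : (n : ℝ) ^ ε * n = (n : ℝ) ^ (((k : ℝ) - 2) / ((k : ℝ) - 1) + ε) * x := by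
        rw [hx, ← Real.rpow_add hn0']
        nth_rewrite 2 [← Real.rpow_one (n : ℝ)]
        rw [← Real.rpow_add hn0']
        congr 1
        field_simp
        ring
      rw [h6]
      have h7 : 0 ≤ (n : ℝ) ^ (((k : ℝ) - 2) / ((k : ℝ) - 1) + ε) := by positivity
      nlinarith
    calc (phi k n : ℝ) ≤ M := h4
      _ ≤ (n : ℝ) ^ ε * n / b := hM
      _ ≤ 2 * (n : ℝ) ^ (((k : ℝ) - 2) / ((k : ℝ) - 1) + ε) := h5
      _ ≤ _ := by
        apply mul_le_mul_of_nonneg_right (le_max_left _ _)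
        linarith

end Pool.Agent.H45.OC
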