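import Mathlib

/-!
# Asymptotic inequalities

Module ASYM.  Real powers of natural numbers.
-/

set_option autoImplicit false

noncomputable section

namespace Pool.Agent.H45.OC

/-- constants are absorbed: `A n ^ u ≤ n ^ v` for `u < v` and large `n` -/
theorem ev_const (A u v : ℝ) (h : u < v) :
    ∃ n0 : ℕ, 1 ≤ n0 ∧ ∀ n : ℕ, n0 ≤ n → A * (n : ℝ) ^ u ≤ (n : ℝ) ^ v := by
  have h1 : Filter.Tendsto (fun n : ℕ => (n : ℝ) ^ (v - u)) Filter.atTop Filter.atTop :=
    (tendsto_rpow_atTop (by linarith)).comp tendsto_natCast_atTop_atTop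
  obtain ⟨n0, hn0⟩ := Filter.eventually_atTop.1 (h1.eventually_ge_atTop A)
  refine ⟨max n0 1, le_max_right _ _, fun n hn => ?_⟩
  have h2 := hn0 n ((le_max_left _ _).trans hn)
  have h3 : (1 : ℝ) ≤ n := by exact_mod_cast (le_max_right _ _).trans hn
  have h4 : (0 : ℝ) < n := by linarith
  calc A * (n : ℝ) ^ u ≤ (n : ℝ) ^ (v - u) * (n : ℝ) ^ u :=
        mul_le_mul_of_nonneg_right h2 (Real.rpow_nonneg h4.le _)
    _ = (n : ℝ) ^ v := by rw [← Real.rpow_add h4]; congr 1; ring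

/-- logarithms are absorbed -/
theorem ev_log (A B v : ℝ) (hv : 0 < v) (hB : 0 < B) :
    ∃ n0 : ℕ, 1 ≤ n0 ∧ ∀ n : ℕ, n0 ≤ n → A * Real.log (B * (n + 1)) ≤ (n : ℝ) ^ v := by
  have hlo := isLittleO_log_rpow_atTop hv
  have hc : 0 < 1 / ((|A| + 1) * (2 * B) ^ v) := by positivity
  have h1 := hlo.bound hc
  have h2 : Filter.Tendsto (fun n : ℕ => B * ((n : ℝ) + 1)) Filter.atTop Filter.atTop := by
    refine Filter.Tendsto.const_mul_atTop hB ?_
    exact Filter.tendsto_atTop_add_const_right _ _ tendsto_natCast_atTop_atTop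
  obtain ⟨n0, hn0⟩ := Filter.eventually_atTop.1 (h2.eventually h1)
  refine ⟨max n0 1, le_max_right _ _, fun n hn => ?_⟩
  have h3 := hn0 n ((le_max_left _ _).trans hn)
  have h4 : (1 : ℝ) ≤ n := by exact_mod_cast (le_max_right _ _).trans hn
  have h5 : (0 : ℝ) < n := by linarith
  rw [Real.norm_eq_abs, Real.norm_eq_abs, abs_of_nonneg (Real.rpow_nonneg (by positivity) _)] at h3
  have h6 : (B * ((n : ℝ) + 1)) ^ v ≤ (2 * B) ^ v * (n : ℝ) ^ v := by
    rw [← Real.mul_rpow (by positivity) (by positivity)]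
    refine Real.rpow_le_rpow (by positivity) ?_ hv.le
    nlinarith
  have hA : |A| ≤ |A| + 1 := by linarith
  have hp : 0 < (2 * B) ^ v := by positivity
  calc A * Real.log (B * (n + 1)) ≤ |A * Real.log (B * (n + 1))| := le_abs_self _
    _ = |A| * |Real.log (B * (n + 1))| := abs_mul _ _
    _ ≤ (|A| + 1) * (1 / ((|A| + 1) * (2 * B) ^ v) * ((2 * B) ^ v * (n : ℝ) ^ v)) := by
        refine mul_le_mul hA (h3.trans ?_) (abs_nonneg _) (by positivity)
        exact mul_le_mul_of_nonneg_left h6 hc.le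
    _ = (n : ℝ) ^ v := by
        field_simp

end Pool.Agent.H45.OC
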