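import Pool.Agent.H45.OC.Asym

/-!
# Asymptotic inequalities, second part

Module ASYMB.
-/

set_option autoImplicit false

noncomputable section

namespace Pool.Agent.H45.OC

/-- the parameters of the clustering lemma: with `p = n ^ (-δ)`, `κc = n ^ (-δ1)`, choose
`J > 2 (C0 + 1) C / δ1 + 2` first, then `δ ≤ min (δ1 / 4) (ε' / (4 J))`, and
`mm = ⌈n ^ δ * (2 * C0 * log n + 2)⌉₊` (as `1 - x ≤ exp (-x)`) -/
theorem cluster_param (k C0 C : ℕ) (δ1 ε' : ℝ) (hδ1 : 0 < δ1) (hε' : 0 < ε') :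
    ∃ δ : ℝ, 0 < δ ∧ ∃ n0 : ℕ, 1 ≤ n0 ∧ ∀ n : ℕ, n0 ≤ n → ∃ mm J : ℕ,
      (1 - (n : ℝ) ^ (-δ) / 2) ^ mm * ((n ^ C0 : ℕ) : ℝ) < 1 ∧
      (2 * (n : ℝ) ^ (-δ1) / (n : ℝ) ^ (-δ)) ^ J * (((n ^ C0 : ℕ) : ℝ) + 1) ^ C < 1 ∧
      (((2 ^ k * mm) ^ J : ℕ) : ℝ) ≤ (n : ℝ) ^ ε' := by
  obtain ⟨J, hJ⟩ := exists_nat_gt (2 * ((C0 : ℝ) + 1) * C / δ1 + 2)
  have hJ0 : (0 : ℝ) ≤ 2 * ((C0 : ℝ) + 1) * C / δ1 := by positivity
  have hJ2 : (2 : ℝ) < J := by linarith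
  have hJpos : (0 : ℝ) < J := by linarith
  have hJC : ((C0 : ℝ) + 1) * C < δ1 * J / 2 := by
    have h1 : 2 * ((C0 : ℝ) + 1) * C / δ1 < J := by linarith
    rw [div_lt_iff₀ hδ1] at h1
    linarith
  set v : ℝ := ε' / J with hv
  have hvpos : 0 < v := by positivity
  set δ : ℝ := min (δ1 / 4) (v / 4) with hδ
  have hδpos : 0 < δ := lt_min (by positivity) (by positivity)
  have hδa : δ ≤ δ1 / 4 := min_le_left _ _
  have hδb : δ ≤ v / 4 := min_le_right _ _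
  obtain ⟨n1, hn1, h1⟩ := ev_log (2 ^ k * (2 * C0 + 3)) 3 (v / 2) (by positivity) (by norm_num)
  obtain ⟨n2, hn2, h2⟩ := ev_const 2 0 (δ1 / 4) (by positivity)
  refine ⟨δ, hδpos, max 2 (max n1 n2), by omega, fun n hn => ?_⟩
  have hn2' : 2 ≤ n := le_trans (le_max_left _ _) hn
  have hnn1 : n1 ≤ n := le_trans ((le_max_left _ _).trans (le_max_right _ _)) hn
  have hnn2 : n2 ≤ n := le_trans ((le_max_right _ _).trans (le_max_right _ _)) hn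
  have hnR : (2 : ℝ) ≤ n := by exact_mod_cast hn2'
  have hn0 : (0 : ℝ) < n := by linarith
  have hn1' : (1 : ℝ) ≤ n := by linarith
  have hlog0 : 0 ≤ Real.log n := Real.log_nonneg hn1'
  have hnδ : (1 : ℝ) ≤ (n : ℝ) ^ δ := Real.one_le_rpow hn1' hδpos.le
  have hnδ0 : (0 : ℝ) < (n : ℝ) ^ δ := by linarith
  set m : ℝ := (n : ℝ) ^ δ * (2 * C0 * Real.log n + 2) with hm
  have hm0 : 0 ≤ m := by positivity
  refine ⟨⌈m⌉₊, J, ?_, ?_, ?_⟩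
  · -- first inequality
    have hp : (n : ℝ) ^ (-δ) = ((n : ℝ) ^ δ)⁻¹ := Real.rpow_neg hn0.le δ
    have hp1 : (n : ℝ) ^ (-δ) ≤ 1 := by
      rw [hp]
      exact inv_le_one_of_one_le₀ hnδ
    have hbase : 0 ≤ 1 - (n : ℝ) ^ (-δ) / 2 := by linarith
    have hle : 1 - (n : ℝ) ^ (-δ) / 2 ≤ Real.exp (-((n : ℝ) ^ (-δ) / 2)) := by
      have := Real.add_one_le_exp (-((n : ℝ) ^ (-δ) / 2))
      linarith
    have hpow : (1 - (n : ℝ) ^ (-δ) / 2) ^ ⌈m⌉₊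
        ≤ Real.exp (-(C0 * Real.log n + 1)) := by
      calc (1 - (n : ℝ) ^ (-δ) / 2) ^ ⌈m⌉₊
          ≤ (Real.exp (-((n : ℝ) ^ (-δ) / 2))) ^ ⌈m⌉₊ := pow_le_pow_left₀ hbase hle _
        _ = Real.exp (⌈m⌉₊ * (-((n : ℝ) ^ (-δ) / 2))) := by rw [← Real.exp_nat_mul]
        _ ≤ Real.exp (-(C0 * Real.log n + 1)) := by
          apply Real.exp_le_exp.2
          have h3 : m ≤ (⌈m⌉₊ : ℝ) := Nat.le_ceil m
          have h4 : (C0 * Real.log n + 1) = m * ((n : ℝ) ^ (-δ) / 2) := by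
            rw [hm, hp]
            field_simp
          rw [h4]
          have h5 : 0 ≤ (n : ℝ) ^ (-δ) / 2 := by rw [hp]; positivity
          nlinarith
    have hC0 : ((n ^ C0 : ℕ) : ℝ) = Real.exp (C0 * Real.log n) := by
      push_cast
      rw [Real.exp_nat_mul, Real.exp_log hn0]
    calc (1 - (n : ℝ) ^ (-δ) / 2) ^ ⌈m⌉₊ * ((n ^ C0 : ℕ) : ℝ)
        ≤ Real.exp (-(C0 * Real.log n + 1)) * Real.exp (C0 * Real.log n) := by
          rw [← hC0]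
          exact mul_le_mul_of_nonneg_right hpow (by positivity)
      _ = Real.exp (-1) := by
          rw [← Real.exp_add]
          congr 1
          ring
      _ < 1 := by
          rw [Real.exp_lt_one_iff]
          norm_num
  · -- second inequality
    have h3 : (2 : ℝ) ≤ (n : ℝ) ^ (δ1 / 4) := by
      have := h2 n hnn2
      simpa using this
    have h4 : 2 * (n : ℝ) ^ (-δ1) / (n : ℝ) ^ (-δ) ≤ (n : ℝ) ^ (-(δ1 / 2)) := by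
      rw [mul_div_assoc, ← Real.rpow_sub hn0]
      calc 2 * (n : ℝ) ^ (-δ1 - -δ) ≤ (n : ℝ) ^ (δ1 / 4) * (n : ℝ) ^ (-δ1 - -δ) :=
            mul_le_mul_of_nonneg_right h3 (by positivity)
        _ = (n : ℝ) ^ (δ1 / 4 + (-δ1 - -δ)) := by rw [Real.rpow_add hn0]
        _ ≤ (n : ℝ) ^ (-(δ1 / 2)) := Real.rpow_le_rpow_of_exponent_le hn1' (by linarith)
    have h5 : (2 * (n : ℝ) ^ (-δ1) / (n : ℝ) ^ (-δ)) ^ J ≤ (n : ℝ) ^ (-(δ1 * J / 2)) := by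
      calc (2 * (n : ℝ) ^ (-δ1) / (n : ℝ) ^ (-δ)) ^ J ≤ ((n : ℝ) ^ (-(δ1 / 2))) ^ J :=
            pow_le_pow_left₀ (by positivity) h4 _
        _ = (n : ℝ) ^ (-(δ1 / 2) * J) := by rw [← Real.rpow_natCast, ← Real.rpow_mul hn0.le]
        _ = (n : ℝ) ^ (-(δ1 * J / 2)) := by
            congr 1
            ring
    have h6 : (((n ^ C0 : ℕ) : ℝ) + 1) ^ C ≤ (n : ℝ) ^ (((C0 : ℝ) + 1) * C) := by
      have h7 : ((n ^ C0 : ℕ) : ℝ) + 1 ≤ (n : ℝ) ^ (C0 + 1) := by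
        push_cast
        have h8 : (1 : ℝ) ≤ (n : ℝ) ^ C0 := one_le_pow₀ hn1'
        rw [pow_succ]
        nlinarith
      calc (((n ^ C0 : ℕ) : ℝ) + 1) ^ C ≤ ((n : ℝ) ^ (C0 + 1)) ^ C :=
            pow_le_pow_left₀ (by positivity) h7 _
        _ = (n : ℝ) ^ (((C0 : ℝ) + 1) * C) := by
            rw [← pow_mul, ← Real.rpow_natCast]
            push_cast
            rfl
    calc (2 * (n : ℝ) ^ (-δ1) / (n : ℝ) ^ (-δ)) ^ J * (((n ^ C0 : ℕ) : ℝ) + 1) ^ C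
        ≤ (n : ℝ) ^ (-(δ1 * J / 2)) * (n : ℝ) ^ (((C0 : ℝ) + 1) * C) :=
          mul_le_mul h5 h6 (by positivity) (by positivity)
      _ = (n : ℝ) ^ (-(δ1 * J / 2) + ((C0 : ℝ) + 1) * C) := by rw [Real.rpow_add hn0]
      _ < 1 := Real.rpow_lt_one_of_one_lt_of_neg (by linarith) (by linarith)
  · -- third inequality
    have hl1 : Real.log n ≤ Real.log (3 * ((n : ℝ) + 1)) :=
      Real.log_le_log hn0 (by linarith)
    have hl2 : (1 : ℝ) ≤ Real.log (3 * ((n : ℝ) + 1)) := by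
      rw [Real.le_log_iff_exp_le (by positivity)]
      have := Real.exp_one_lt_d9
      linarith
    have h3 := h1 n hnn1
    have hceil : (⌈m⌉₊ : ℝ) ≤ m + 1 := (Nat.ceil_lt_add_one hm0).le
    have h4 : (2 : ℝ) ^ k * ⌈m⌉₊ ≤ (n : ℝ) ^ v := by
      have h5 : (⌈m⌉₊ : ℝ) ≤ (n : ℝ) ^ δ * ((2 * C0 + 3) * Real.log (3 * ((n : ℝ) + 1))) := by
        calc (⌈m⌉₊ : ℝ) ≤ m + 1 := hceil
          _ ≤ (n : ℝ) ^ δ * (2 * C0 * Real.log n + 3) := by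
              rw [hm]
              nlinarith
          _ ≤ (n : ℝ) ^ δ * ((2 * C0 + 3) * Real.log (3 * ((n : ℝ) + 1))) := by
              apply mul_le_mul_of_nonneg_left _ hnδ0.le
              have h6 : (0 : ℝ) ≤ 2 * C0 := by positivity
              nlinarith
      calc (2 : ℝ) ^ k * ⌈m⌉₊
          ≤ 2 ^ k * ((n : ℝ) ^ δ * ((2 * C0 + 3) * Real.log (3 * ((n : ℝ) + 1)))) :=
            mul_le_mul_of_nonneg_left h5 (by positivity)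
        _ = (n : ℝ) ^ δ * (2 ^ k * (2 * C0 + 3) * Real.log (3 * ((n : ℝ) + 1))) := by ring
        _ ≤ (n : ℝ) ^ δ * (n : ℝ) ^ (v / 2) := mul_le_mul_of_nonneg_left h3 hnδ0.le
        _ = (n : ℝ) ^ (δ + v / 2) := by rw [Real.rpow_add hn0]
        _ ≤ (n : ℝ) ^ v := Real.rpow_le_rpow_of_exponent_le hn1' (by linarith)
    calc (((2 ^ k * ⌈m⌉₊) ^ J : ℕ) : ℝ) = ((2 : ℝ) ^ k * ⌈m⌉₊) ^ J := by push_cast; rfl
      _ ≤ ((n : ℝ) ^ v) ^ J := pow_le_pow_left₀ (by positivity) h4 _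
      _ = (n : ℝ) ^ ε' := by
          rw [← Real.rpow_natCast, ← Real.rpow_mul hn0.le, hv]
          congr 1
          field_simp

/-- the size of the number of colours in the high odd girth lemma: `l ≥ 8 / ε` and
`a = ⌊n ^ (1 / l)⌋₊ + 1` -/
theorem hog_param (ε : ℝ) (hε : 0 < ε) :
    ∃ l : ℕ, 1 ≤ l ∧ ∃ n0 : ℕ, 1 ≤ n0 ∧ ∀ n : ℕ, n0 ≤ n → ∃ a : ℕ,
      n < a ^ l ∧ ((l * a ^ 2 : ℕ) : ℝ) ≤ (n : ℝ) ^ ε := by
  obtain ⟨l, hl⟩ := exists_nat_gt (8 / ε)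
  have hl0 : (0 : ℝ) < l := lt_trans (by positivity) hl
  have hl1 : 1 ≤ l := by
    have : 0 < l := by exact_mod_cast hl0
    omega
  have hlε : 2 / (l : ℝ) < ε := by
    rw [div_lt_iff₀ hε] at hl
    rw [div_lt_iff₀ hl0]
    nlinarith
  obtain ⟨n0, hn0, h0⟩ := ev_const (4 * l) (2 / l) ε hlε
  refine ⟨l, hl1, n0, hn0, fun n hn => ⟨⌊(n : ℝ) ^ (1 / (l : ℝ))⌋₊ + 1, ?_, ?_⟩⟩
  · have hn1 : (1 : ℝ) ≤ n := by exact_mod_cast hn0.trans hn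
    have h1 : (n : ℝ) ^ (1 / (l : ℝ)) < ((⌊(n : ℝ) ^ (1 / (l : ℝ))⌋₊ + 1 : ℕ) : ℝ) := by
      push_cast
      exact Nat.lt_floor_add_one _
    have h2 : ((n : ℝ) ^ (1 / (l : ℝ))) ^ l = n := by
      rw [← Real.rpow_natCast, ← Real.rpow_mul (by linarith)]
      rw [one_div, inv_mul_cancel₀ hl0.ne', Real.rpow_one]
    have h3 : (n : ℝ) < ((⌊(n : ℝ) ^ (1 / (l : ℝ))⌋₊ + 1 : ℕ) : ℝ) ^ l := by
      calc (n : ℝ) = ((n : ℝ) ^ (1 / (l : ℝ))) ^ l := h2.symm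
        _ < _ := pow_lt_pow_left₀ h1 (by positivity) (by omega)
    exact_mod_cast h3
  · have hn1 : (1 : ℝ) ≤ n := by exact_mod_cast hn0.trans hn
    have h1 : (1 : ℝ) ≤ (n : ℝ) ^ (1 / (l : ℝ)) := Real.one_le_rpow hn1 (by positivity)
    have h2 : ((⌊(n : ℝ) ^ (1 / (l : ℝ))⌋₊ + 1 : ℕ) : ℝ) ≤ 2 * (n : ℝ) ^ (1 / (l : ℝ)) := by
      push_cast
      have := Nat.floor_le (by positivity : 0 ≤ (n : ℝ) ^ (1 / (l : ℝ)))
      linarith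
    have h3 : ((n : ℝ) ^ (1 / (l : ℝ))) ^ 2 = (n : ℝ) ^ (2 / (l : ℝ)) := by
      rw [← Real.rpow_natCast, ← Real.rpow_mul (by linarith)]
      congr 1
      push_cast
      ring
    push_cast at h2 ⊢
    calc (l : ℝ) * ((⌊(n : ℝ) ^ (1 / (l : ℝ))⌋₊ : ℝ) + 1) ^ 2
        ≤ l * (2 * (n : ℝ) ^ (1 / (l : ℝ))) ^ 2 := by
          apply mul_le_mul_of_nonneg_left _ hl0.le
          exact pow_le_pow_left₀ (by positivity) h2 2
      _ = 4 * l * (n : ℝ) ^ (2 / (l : ℝ)) := by rw [mul_pow, h3]; ring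
      _ ≤ (n : ℝ) ^ ε := h0 n hn

end Pool.Agent.H45.OC
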