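import Pool.Agent.H45.OC.Defs

/-!
# The clustering lemma, first part

Module CLUSTERA.

`bads Y` is the set of nonempty `T ⊆ Y` with at most `C` elements for which the weight of
the `ω` with all `ab x ω`, `x ∈ T`, equal and nonempty is less than `κc`.

* `card_bads_le`: the nonempty subsets of `Y` with at most `C` elements (images of maps
  `Fin C → Option Y`, say; or by induction).
* `split_one`.  For `ω` put `X(ω) = #{x ∈ Y : ab x ω ≠ ∅}` and
  `Z(ω) = ∑ A ≠ ∅, #(bads {x ∈ Y : ab x ω = A})`.  Then `∑ P X ≥ p |Y|` and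
  `∑ P Z ≤ κc b`, `b = #(bads Y)` (a bad set `T` is counted at `ω` only if all `ab x ω`, `x ∈ T`,
  are equal and nonempty, and then for one `A` as `T` is nonempty).  Suppose no `ω ∈ μ.sp` is
  good.  If `b = 0`, then `Z = 0`, so `X(ω) < (p/2)|Y|` for all `ω`, contradiction.  If `b > 0`,
  every `ω` has `2 κc b X(ω) < p |Y| κc b + p |Y| Z(ω)` (if `X(ω) < (p/2)|Y|` this is clear, and
  if `Z(ω) > (2 κc / p) b` use `X(ω) ≤ |Y|`); summing with the weights (some weight is positive,
  as `p > 0` and `Y` is nonempty; the total weight is at most `1`) gives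
  `2 κc b p |Y| < p |Y| κc b + p |Y| κc b`, a contradiction.
-/

set_option autoImplicit false

open Finset

noncomputable section

namespace Pool.Agent.H45.OC

open Classical

variable {k : ℕ}

/-- all representatives in `T` have the same nonempty value at `ω` -/
def Agree (ab : Rep → Hyp k → Finset (Fin k)) (T : Finset Rep) (ω : Hyp k) : Prop :=
  ∃ A : Finset (Fin k), A ≠ ∅ ∧ ∀ x ∈ T, ab x ω = A

/-- the bad subsets of `Y` -/
def bads (μ : Sp k) (ab : Rep → Hyp k → Finset (Fin k)) (κc : ℝ) (C : ℕ) (Y : Finset Rep) :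
    Finset (Finset Rep) :=
  Y.powerset.filter (fun T => T.Nonempty ∧ T.card ≤ C ∧ μ.mass (Agree ab T) < κc)

theorem bads_mono (μ : Sp k) (ab : Rep → Hyp k → Finset (Fin k)) (κc : ℝ) (C : ℕ)
    {Y Y' : Finset Rep} (h : Y ⊆ Y') : bads μ ab κc C Y ⊆ bads μ ab κc C Y' := by
  intro T hT
  unfold bads at hT ⊢
  rw [Finset.mem_filter, Finset.mem_powerset] at hT ⊢
  exact ⟨hT.1.trans h, hT.2⟩

theorem bads_empty (μ : Sp k) (ab : Rep → Hyp k → Finset (Fin k)) (κc : ℝ) (C : ℕ) :
    bads μ ab κc C ∅ = ∅ := by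
  unfold bads
  rw [Finset.filter_eq_empty_iff]
  rintro T hT ⟨h1, -⟩
  rw [Finset.mem_powerset, Finset.subset_empty] at hT
  rw [hT] at h1
  exact Finset.not_nonempty_empty h1

theorem card_small_subsets_le (Y : Finset Rep) (C : ℕ) :
    (Y.powerset.filter (fun T => T.card ≤ C)).card ≤ (Y.card + 1) ^ C := by
  induction C with
  | zero =>
    rw [pow_zero, Finset.card_le_one]
    intro a ha b hb
    simp only [Finset.mem_filter, Nat.le_zero, Finset.card_eq_zero] at ha hb
    rw [ha.2, hb.2]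
  | succ C ih =>
    have hsub : Y.powerset.filter (fun T => T.card ≤ C + 1) ⊆
        Y.powerset.filter (fun T => T.card ≤ C) ∪
        (Y ×ˢ Y.powerset.filter (fun T => T.card ≤ C)).image (fun q => insert q.1 q.2) := by
      intro T hT
      rw [Finset.mem_filter, Finset.mem_powerset] at hT
      rw [Finset.mem_union]
      by_cases h : T.card ≤ C
      · left
        rw [Finset.mem_filter, Finset.mem_powerset]
        exact ⟨hT.1, h⟩
      · right
        have hne : T.Nonempty := Finset.card_pos.1 (by omega)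
        obtain ⟨a, ha⟩ := hne
        rw [Finset.mem_image]
        refine ⟨(a, T.erase a), ?_, Finset.insert_erase ha⟩
        rw [Finset.mem_product, Finset.mem_filter, Finset.mem_powerset]
        refine ⟨hT.1 ha, (Finset.erase_subset _ _).trans hT.1, ?_⟩
        rw [Finset.card_erase_of_mem ha]
        omega
    calc (Y.powerset.filter (fun T => T.card ≤ C + 1)).card
        ≤ _ := Finset.card_le_card hsub
      _ ≤ (Y.powerset.filter (fun T => T.card ≤ C)).card +
          (Y.card * (Y.powerset.filter (fun T => T.card ≤ C)).card) := by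
          refine (Finset.card_union_le _ _).trans (Nat.add_le_add_left ?_ _)
          refine Finset.card_image_le.trans ?_
          rw [Finset.card_product]
      _ = (Y.card + 1) * (Y.powerset.filter (fun T => T.card ≤ C)).card := by ring
      _ ≤ (Y.card + 1) * (Y.card + 1) ^ C := Nat.mul_le_mul_left _ ih
      _ = (Y.card + 1) ^ (C + 1) := by ring

theorem card_bads_le (μ : Sp k) (ab : Rep → Hyp k → Finset (Fin k)) (κc : ℝ) (C : ℕ)
    (Y : Finset Rep) : ((bads μ ab κc C Y).card : ℝ) ≤ ((Y.card : ℝ) + 1) ^ C := by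
  have h1 : (bads μ ab κc C Y).card ≤ (Y.powerset.filter (fun T => T.card ≤ C)).card := by
    refine Finset.card_le_card fun T hT => ?_
    unfold bads at hT
    rw [Finset.mem_filter] at hT ⊢
    exact ⟨hT.1, hT.2.2.1⟩
  exact_mod_cast h1.trans (card_small_subsets_le Y C)

theorem sum_mass_eq (μ : Sp k) {α : Type} (S : Finset α) (E : α → Hyp k → Prop) :
    ∑ x ∈ S, μ.mass (E x) = ∑ ω ∈ μ.sp, μ.P ω * ((S.filter (fun x => E x ω)).card : ℝ) := by
  unfold Sp.mass
  have h1 : ∀ x ∈ S, ∑ ω ∈ μ.sp.filter (E x), μ.P ω =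
      ∑ ω ∈ μ.sp, if E x ω then μ.P ω else 0 := fun x _ => Finset.sum_filter _ _
  rw [Finset.sum_congr rfl h1, Finset.sum_comm]
  refine Finset.sum_congr rfl fun ω _ => ?_
  rw [← Finset.sum_filter, Finset.sum_const, nsmul_eq_mul, mul_comm]

theorem sum_bads_le (μ : Sp k) (ab : Rep → Hyp k → Finset (Fin k)) (κc : ℝ) (C : ℕ)
    (Y : Finset Rep) (ω : Hyp k) :
    (∑ A ∈ (Finset.univ : Finset (Finset (Fin k))).filter (fun A => A ≠ ∅),
        ((bads μ ab κc C (Y.filter (fun x => ab x ω = A))).card : ℝ)) ≤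
      (((bads μ ab κc C Y).filter (fun T => Agree ab T ω)).card : ℝ) := by
  have h1 : ((Finset.univ : Finset (Finset (Fin k))).filter (fun A => A ≠ ∅)).biUnion
      (fun A => bads μ ab κc C (Y.filter (fun x => ab x ω = A))) ⊆
      (bads μ ab κc C Y).filter (fun T => Agree ab T ω) := by
    intro T hT
    rw [Finset.mem_biUnion] at hT
    obtain ⟨A, hA, hTA⟩ := hT
    rw [Finset.mem_filter]
    refine ⟨bads_mono μ ab κc C (Finset.filter_subset _ _) hTA, A, (Finset.mem_filter.1 hA).2, ?_⟩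
    intro x hx
    unfold bads at hTA
    rw [Finset.mem_filter, Finset.mem_powerset] at hTA
    exact (Finset.mem_filter.1 (hTA.1 hx)).2
  have h2 := Finset.card_le_card h1
  rw [Finset.card_biUnion] at h2
  · exact_mod_cast h2
  · intro A _ B _ hAB
    change Disjoint _ _
    rw [Finset.disjoint_left]
    intro T hTA hTB
    unfold bads at hTA hTB
    rw [Finset.mem_filter, Finset.mem_powerset] at hTA hTB
    obtain ⟨x, hx⟩ := hTA.2.1
    exact hAB ((Finset.mem_filter.1 (hTA.1 hx)).2.symm.trans (Finset.mem_filter.1 (hTB.1 hx)).2)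

theorem split_one (μ : Sp k) (ab : Rep → Hyp k → Finset (Fin k)) {p κc : ℝ} (C : ℕ)
    (hp : 0 < p) (hκ : 0 < κc) (Y : Finset Rep) (hY : Y.Nonempty)
    (hab : ∀ x ∈ Y, p ≤ μ.mass (fun ω => ab x ω ≠ ∅)) :
    ∃ ω ∈ μ.sp, p / 2 * (Y.card : ℝ) ≤ ((Y.filter (fun x => ab x ω ≠ ∅)).card : ℝ) ∧
      (∑ A ∈ (Finset.univ : Finset (Finset (Fin k))).filter (fun A => A ≠ ∅),
        ((bads μ ab κc C (Y.filter (fun x => ab x ω = A))).card : ℝ)) ≤
      2 * κc / p * ((bads μ ab κc C Y).card : ℝ) := by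
  set n : ℝ := (Y.card : ℝ) with hn
  set X : Hyp k → ℝ := fun ω => ((Y.filter (fun x => ab x ω ≠ ∅)).card : ℝ) with hXdef
  set Z : Hyp k → ℝ := fun ω =>
    ∑ A ∈ (Finset.univ : Finset (Finset (Fin k))).filter (fun A => A ≠ ∅),
        ((bads μ ab κc C (Y.filter (fun x => ab x ω = A))).card : ℝ) with hZdef
  set b : ℝ := ((bads μ ab κc C Y).card : ℝ) with hb
  have hn0 : 0 < n := by
    rw [hn]; exact_mod_cast Finset.card_pos.2 hY
  have hX : p * n ≤ ∑ ω ∈ μ.sp, μ.P ω * X ω := by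
    calc p * n = ∑ x ∈ Y, p := by rw [Finset.sum_const, nsmul_eq_mul, mul_comm]
      _ ≤ ∑ x ∈ Y, μ.mass (fun ω => ab x ω ≠ ∅) := Finset.sum_le_sum hab
      _ = ∑ ω ∈ μ.sp, μ.P ω * X ω := by
          rw [sum_mass_eq μ Y (fun x ω => ab x ω ≠ ∅)]
          refine Finset.sum_congr rfl fun ω _ => ?_
          simp only [hXdef]
          congr!
  have hZ : ∑ ω ∈ μ.sp, μ.P ω * Z ω ≤ κc * b := by
    calc ∑ ω ∈ μ.sp, μ.P ω * Z ω
        ≤ ∑ ω ∈ μ.sp, μ.P ω * (((bads μ ab κc C Y).filter (fun T => Agree ab T ω)).card : ℝ) :=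
          Finset.sum_le_sum fun ω _ =>
            mul_le_mul_of_nonneg_left (sum_bads_le μ ab κc C Y ω) (μ.nonneg ω)
      _ = ∑ T ∈ bads μ ab κc C Y, μ.mass (Agree ab T) :=
          (sum_mass_eq μ (bads μ ab κc C Y) (fun T ω => Agree ab T ω)).symm
      _ ≤ ∑ T ∈ bads μ ab κc C Y, κc := by
          refine Finset.sum_le_sum fun T hT => ?_
          unfold bads at hT
          exact (Finset.mem_filter.1 hT).2.2.2.le
      _ = κc * b := by rw [Finset.sum_const, nsmul_eq_mul, mul_comm]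
  have hXn : ∀ ω, X ω ≤ n := by
    intro ω
    simp only [hXdef, hn]
    exact_mod_cast Finset.card_le_card (Finset.filter_subset _ _)
  have hZ0 : ∀ ω, 0 ≤ Z ω := fun ω => Finset.sum_nonneg fun _ _ => Nat.cast_nonneg _
  have hZb : ∀ ω, Z ω ≤ b := by
    intro ω
    refine (sum_bads_le μ ab κc C Y ω).trans ?_
    rw [hb]
    exact_mod_cast Finset.card_le_card (Finset.filter_subset _ _)
  have hb0 : 0 ≤ b := Nat.cast_nonneg _
  by_contra hcon
  have hcon' : ∀ ω ∈ μ.sp, p / 2 * n ≤ X ω → 2 * κc / p * b < Z ω := by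
    intro ω hω h
    by_contra h2
    exact hcon ⟨ω, hω, h, not_lt.1 h2⟩
  clear hcon
  clear_value X Z b n
  rcases hb0.eq_or_lt with hb1 | hb1
  · have h1 : ∀ ω ∈ μ.sp, X ω ≤ p / 2 * n := by
      intro ω hω
      by_contra h2
      have h3 := hcon' ω hω (le_of_not_ge h2)
      rw [← hb1, mul_zero] at h3
      have := hZb ω
      linarith
    have h2 : ∑ ω ∈ μ.sp, μ.P ω * X ω ≤ ∑ ω ∈ μ.sp, μ.P ω * (p / 2 * n) :=
      Finset.sum_le_sum fun ω hω => mul_le_mul_of_nonneg_left (h1 ω hω) (μ.nonneg ω)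
    rw [← Finset.sum_mul] at h2
    have h3 : (∑ ω ∈ μ.sp, μ.P ω) * (p / 2 * n) ≤ 1 * (p / 2 * n) :=
      mul_le_mul_of_nonneg_right μ.total (by positivity)
    have h4 : 0 < p * n := by positivity
    linarith
  · have h1 : ∀ ω ∈ μ.sp, 2 * κc * b * X ω < p * n * κc * b + p * n * Z ω := by
      intro ω hω
      by_cases h2 : p / 2 * n ≤ X ω
      · have h3 := hcon' ω hω h2
        rw [div_mul_eq_mul_div, div_lt_iff₀ hp] at h3
        have h4 : 2 * κc * b * X ω ≤ 2 * κc * b * n :=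
          mul_le_mul_of_nonneg_left (hXn ω) (by positivity)
        have h5 : 2 * κc * b * n < Z ω * p * n := mul_lt_mul_of_pos_right h3 hn0
        have h6 : 0 ≤ p * n * κc * b := by positivity
        nlinarith
      · push Not at h2
        have h3 : 2 * κc * b * X ω < 2 * κc * b * (p / 2 * n) :=
          mul_lt_mul_of_pos_left h2 (by positivity)
        have h4 : 0 ≤ p * n * Z ω := by
          have := hZ0 ω
          positivity
        nlinarith
    -- some weight is positive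
    have hpos : ∃ ω ∈ μ.sp, 0 < μ.P ω := by
      by_contra h2
      push Not at h2
      have h3 : ∑ ω ∈ μ.sp, μ.P ω * X ω = 0 := by
        refine Finset.sum_eq_zero fun ω hω => ?_
        rw [le_antisymm (h2 ω hω) (μ.nonneg ω), zero_mul]
      have h4 : 0 < p * n := by positivity
      linarith
    have h2 : ∑ ω ∈ μ.sp, μ.P ω * (2 * κc * b * X ω) <
        ∑ ω ∈ μ.sp, μ.P ω * (p * n * κc * b + p * n * Z ω) := by
      obtain ⟨ω0, hω0, hP0⟩ := hpos
      refine Finset.sum_lt_sum (fun ω hω =>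
        mul_le_mul_of_nonneg_left (h1 ω hω).le (μ.nonneg ω)) ⟨ω0, hω0, ?_⟩
      exact mul_lt_mul_of_pos_left (h1 ω0 hω0) hP0
    have h3 : ∑ ω ∈ μ.sp, μ.P ω * (2 * κc * b * X ω) =
        2 * κc * b * ∑ ω ∈ μ.sp, μ.P ω * X ω := by
      rw [Finset.mul_sum]
      exact Finset.sum_congr rfl fun ω _ => by ring
    have h4 : ∑ ω ∈ μ.sp, μ.P ω * (p * n * κc * b + p * n * Z ω) =
        p * n * κc * b * (∑ ω ∈ μ.sp, μ.P ω) + p * n * ∑ ω ∈ μ.sp, μ.P ω * Z ω := by
      rw [Finset.mul_sum, Finset.mul_sum, ← Finset.sum_add_distrib]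
      exact Finset.sum_congr rfl fun ω _ => by ring
    rw [h3, h4] at h2
    have h5 : 2 * κc * b * (p * n) ≤ 2 * κc * b * ∑ ω ∈ μ.sp, μ.P ω * X ω :=
      mul_le_mul_of_nonneg_left hX (by positivity)
    have h6 : p * n * κc * b * (∑ ω ∈ μ.sp, μ.P ω) ≤ p * n * κc * b * 1 :=
      mul_le_mul_of_nonneg_left μ.total (by positivity)
    have h7 : p * n * ∑ ω ∈ μ.sp, μ.P ω * Z ω ≤ p * n * (κc * b) :=
      mul_le_mul_of_nonneg_left hZ (by positivity)
    nlinarith

end Pool.Agent.H45.OC
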