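import Pool.Agent.H45.OC.Graph
import Pool.Agent.H45.OC.ClusterA

/-!
# Short closed walks of odd length refute hypotheses

Module NOSHORT.  A closed walk `w` of odd length `≤ C` in `gr L` visits at most `C` ids (`w.support`
has `w.length + 1` elements, the first and the last are equal), all of them ids of inputs of `L`
(length `> 0`).  Let `Y0 ⊆ L` be the set of the inputs on the walk and `T` the set of their
representatives.  The hypotheses with all `ab x ω`, `x ∈ T`, equal to the same nonempty set `A`
have weight at least `κc`, and those for which moreover `y.a ω ≠ ∅` for the at most `C` inputs on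
the walk have weight at least `κc - C η ≥ κ` (`Adm.tol`).  They are refuted: a valid colouring `c`
would take only the two colours of `A` on the walk and different colours on adjacent ids
(for `i ∈ y'.nb` one has `i < y'.t`, so the second clause of `Valid` applies in the increasing
list), and along a walk such a colouring alternates, so a closed walk has even length (induction
on the walk: `c v = c u` iff the length is even).
-/

set_option autoImplicit false

open Finset

noncomputable section

namespace Pool.Agent.H45.OC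

open Classical

variable {k : ℕ}

theorem noShort_mass_exists_le (μ : Sp k) {α : Type} (S : Finset α) (E : α → Hyp k → Prop) :
    μ.mass (fun ω => ∃ i ∈ S, E i ω) ≤ ∑ i ∈ S, μ.mass (E i) := by
  induction S using Finset.induction_on with
  | empty =>
    rw [Finset.sum_empty]
    refine le_of_le_of_eq (μ.mass_mono (F := fun _ => False) ?_) ?_
    · rintro ω - ⟨i, hi, -⟩
      exact Finset.notMem_empty i hi
    · simp [Sp.mass]
  | insert a S ha ih =>
    rw [Finset.sum_insert ha]
    refine le_trans ?_ (le_trans (μ.mass_or_le (E a) (fun ω => ∃ i ∈ S, E i ω)) (by linarith))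
    refine μ.mass_mono fun ω _ h => ?_
    obtain ⟨i, hi, h⟩ := h
    rcases Finset.mem_insert.1 hi with rfl | hi
    · exact Or.inl h
    · exact Or.inr ⟨i, hi, h⟩

/-- an id of an input of `L` -/
def IsId (L : List (Inp k)) (i : ℕ) : Prop := ∃ y ∈ L, y.t = i

theorem noShort_support_id (L : List (Inp k)) {u v : ℕ} (w : (gr L).Walk u v)
    (hu : IsId L u) : ∀ i ∈ w.support, IsId L i := by
  induction w with
  | nil =>
    intro i hi
    rw [SimpleGraph.Walk.support_nil, List.mem_singleton] at hi
    rwa [hi]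
  | cons h p ih =>
    intro i hi
    rw [SimpleGraph.Walk.support_cons, List.mem_cons] at hi
    rcases hi with rfl | hi
    · exact hu
    · obtain ⟨-, y, hy, y', hy', h1, h2, -⟩ := h
      exact ih ⟨y', hy', h2⟩ i hi

theorem noShort_pairwise {R : Inp k → Inp k → Prop} {L : List (Inp k)}
    (hinc : L.Pairwise (fun y y' => y.t < y'.t)) (hR : L.Pairwise R) {y y' : Inp k}
    (hy : y ∈ L) (hy' : y' ∈ L) (hlt : y.t < y'.t) : R y y' := by
  rw [List.pairwise_iff_getElem] at hinc hR
  obtain ⟨a, ha, rfl⟩ := List.mem_iff_getElem.1 hy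
  obtain ⟨b, hb, rfl⟩ := List.mem_iff_getElem.1 hy'
  rcases lt_trichotomy a b with h | h | h
  · exact hR a b ha hb h
  · subst h
    omega
  · have := hinc b a hb ha h
    omega

theorem noShort_adj_ne {L : List (Inp k)} (hinc : L.Pairwise (fun y y' => y.t < y'.t))
    (hnb : ∀ y ∈ L, ∀ i ∈ y.nb, i < y.t) {ω : Hyp k} {c : ℕ → Fin k} (hc : Valid L ω c)
    {i j : ℕ} (h : (gr L).Adj i j) : c i ≠ c j := by
  obtain ⟨-, y, hy, y', hy', rfl, rfl, h1 | h1⟩ := h
  · exact noShort_pairwise hinc hc.2 hy hy' (hnb y' hy' _ h1) h1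
  · exact (noShort_pairwise hinc hc.2 hy' hy (hnb y hy _ h1) h1).symm

theorem noShort_alternate {L : List (Inp k)} {c : ℕ → Fin k} {A : Finset (Fin k)}
    (hA : A.card = 2) (hadj : ∀ i j, (gr L).Adj i j → c i ≠ c j) {u v : ℕ}
    (w : (gr L).Walk u v) (hw : ∀ i ∈ w.support, c i ∈ A) :
    c v = c u ↔ Even w.length := by
  induction w with
  | nil => simp
  | @cons u b v h p ih =>
    rw [SimpleGraph.Walk.support_cons] at hw
    have h1 := ih (fun i hi => hw i (List.mem_cons_of_mem _ hi))
    have hu := hw u (List.mem_cons_self)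
    have hb := hw b (List.mem_cons_of_mem _ p.start_mem_support)
    have hv := hw v (List.mem_cons_of_mem _ p.end_mem_support)
    have hub := hadj u b h
    obtain ⟨x, y, hxy, rfl⟩ := Finset.card_eq_two.1 hA
    simp only [Finset.mem_insert, Finset.mem_singleton] at hu hb hv
    rw [SimpleGraph.Walk.length_cons, Nat.even_add_one, ← h1]
    constructor
    · intro h2 h3
      exact hub (h2.symm.trans h3)
    · intro h2
      rcases hu with hu | hu <;> rcases hb with hb | hb <;> rcases hv with hv | hv <;>
        simp_all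

/-- a short closed walk of odd length in a class refutes many hypotheses -/
theorem no_short_odd (μ : Sp k) (Xs : Finset Rep) (ab : Rep → Hyp k → Finset (Fin k))
    {κ η κc : ℝ} {C : ℕ} (hη : 0 ≤ η) (hκ : κ + C * η ≤ κc)
    (hab : ∀ x ∈ Xs, ∀ ω ∈ μ.sp, ab x ω ≠ ∅ → (ab x ω).card = 2)
    (hcl : ∀ T ⊆ Xs, T.Nonempty → T.card ≤ C → κc ≤ μ.mass (Agree ab T))
    (L : List (Inp k)) (hL : Adm μ Xs ab η L) (hr : μ.mass (Refuted L) < κ) :
    NoShortOdd L C := by
  intro v w hwC hodd
  -- the start is an id
  have hvid : IsId L v := by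
    cases w with
    | nil => simp at hodd
    | cons h p =>
      obtain ⟨-, y, hy, y', hy', h1, h2, -⟩ := h
      exact ⟨y, hy, h1⟩
  have hid := noShort_support_id L w hvid
  set S : Finset ℕ := w.support.toFinset with hS
  have hSid : ∀ i ∈ S, ∃ y ∈ L, y.t = i := fun i hi => hid i (List.mem_toFinset.1 hi)
  have hScard : S.card ≤ C := by
    have h1 : S ⊆ w.support.tail.toFinset := by
      intro i hi
      rw [List.mem_toFinset] at hi ⊢
      cases w with
      | nil => simp at hodd
      | cons h p =>
        rw [SimpleGraph.Walk.support_cons, List.mem_cons] at hi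
        rw [SimpleGraph.Walk.support_cons, List.tail_cons]
        rcases hi with rfl | hi
        · exact p.end_mem_support
        · exact hi
    calc S.card ≤ w.support.tail.toFinset.card := Finset.card_le_card h1
      _ ≤ w.support.tail.length := List.toFinset_card_le _
      _ = w.length := by rw [List.length_tail, SimpleGraph.Walk.length_support]; rfl
      _ ≤ C := hwC
  have hvS : v ∈ S := List.mem_toFinset.2 w.start_mem_support
  have hchoose : ∃ g : ℕ → Inp k, ∀ i ∈ S, g i ∈ L ∧ (g i).t = i := by
    obtain ⟨y0, hy0, -⟩ := hvid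
    refine ⟨fun i => if h : i ∈ S then (hSid i h).choose else y0, fun i hi => ?_⟩
    simp only [hi, dif_pos]
    exact (hSid i hi).choose_spec
  obtain ⟨g, hg⟩ := hchoose
  set T : Finset Rep := S.image (fun i => (g i).x) with hT
  have hTX : T ⊆ Xs := by
    intro x hx
    obtain ⟨i, hi, rfl⟩ := Finset.mem_image.1 hx
    exact hL.mem _ (hg i hi).1
  have hTne : T.Nonempty := ⟨(g v).x, Finset.mem_image_of_mem _ hvS⟩
  have hTC : T.card ≤ C := Finset.card_image_le.trans hScard
  have hmass := hcl T hTX hTne hTC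
  have himp : ∀ ω ∈ μ.sp, Agree ab T ω → Refuted L ω ∨
      ∃ i ∈ S, ab (g i).x ω ≠ ∅ ∧ (g i).a ω = ∅ := by
    rintro ω hω ⟨A, hA, hTA⟩
    by_cases hex : ∃ i ∈ S, ab (g i).x ω ≠ ∅ ∧ (g i).a ω = ∅
    · exact Or.inr hex
    · left
      rintro ⟨c, hc⟩
      have hab' : ∀ i ∈ S, ab (g i).x ω = A := fun i hi =>
        hTA _ (Finset.mem_image_of_mem _ hi)
      have hgA : ∀ i ∈ S, (g i).a ω = A := by
        intro i hi
        have h1 : (g i).a ω ≠ ∅ := by
          intro h2
          exact hex ⟨i, hi, by rw [hab' i hi]; exact hA, h2⟩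
        rw [hL.sub _ (hg i hi).1 ω hω h1, hab' i hi]
      have hA2 : A.card = 2 := by
        rw [← hab' v hvS]
        exact hab _ (hL.mem _ (hg v hvS).1) ω hω (by rw [hab' v hvS]; exact hA)
      have hcA : ∀ i ∈ w.support, c i ∈ A := by
        intro i hi
        have hiS : i ∈ S := List.mem_toFinset.2 hi
        have h1 := hc.1 (g i) (hg i hiS).1 (by rw [hgA i hiS]; exact hA)
        rwa [hgA i hiS, (hg i hiS).2] at h1
      have h2 := (noShort_alternate hA2 (fun i j hij => noShort_adj_ne hL.inc hL.nb hc hij)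
        w hcA).1 rfl
      exact (Nat.not_even_iff_odd.2 hodd) h2
  have h1 : μ.mass (Agree ab T) ≤ μ.mass (Refuted L) +
      μ.mass (fun ω => ∃ i ∈ S, ab (g i).x ω ≠ ∅ ∧ (g i).a ω = ∅) :=
    (μ.mass_mono himp).trans (μ.mass_or_le _ _)
  have h2 : μ.mass (fun ω => ∃ i ∈ S, ab (g i).x ω ≠ ∅ ∧ (g i).a ω = ∅) ≤ C * η := by
    refine (noShort_mass_exists_le μ S (fun i ω => ab (g i).x ω ≠ ∅ ∧ (g i).a ω = ∅)).trans ?_
    calc ∑ i ∈ S, μ.mass (fun ω => ab (g i).x ω ≠ ∅ ∧ (g i).a ω = ∅)
        ≤ ∑ i ∈ S, η := Finset.sum_le_sum fun i hi => hL.tol _ (hg i hi).1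
      _ = S.card * η := by rw [Finset.sum_const, nsmul_eq_mul]
      _ ≤ C * η := mul_le_mul_of_nonneg_right (by exact_mod_cast hScard) hη
  linarith

end Pool.Agent.H45.OC
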