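import Pool.Agent.H45.OC.Defs

/-!
# Parallel strategies

Module ROUTE.  The inputs are divided into `K` classes according to their representative; every
class is treated by its own strategy with its own `M` colours.  Proof by induction on the reversed
list with `good_concat`; the pairs of `run f (L.filter ..)` are related to those of
`run (routeStrat ..) L`: `(y, c) ∈ run (routeStrat cl M f) L` implies
`∃ c', c = cl y.x * M + c'` and `(y, c') ∈ run (f (cl y.x)) (L.filter (cl = cl y.x))`.
-/

set_option autoImplicit false

open Finset

noncomputable section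

namespace Pool.Agent.H45.OC

open Classical

variable {k : ℕ}

/-- the combined strategy -/
def routeStrat (cl : Rep → ℕ) (M : ℕ) (f : ℕ → List (Inp k) → ℕ) (L : List (Inp k)) : ℕ :=
  match L.getLast? with
  | none => 0
  | some y => cl y.x * M + f (cl y.x) (L.filter (fun z => cl z.x = cl y.x))

theorem route_filter_pos (cl : Rep → ℕ) (L : List (Inp k)) (y : Inp k) {i : ℕ}
    (h : cl y.x = i) : (L ++ [y]).filter (fun z => cl z.x = i) =
      L.filter (fun z => cl z.x = i) ++ [y] := by
  rw [List.filter_append]
  simp [h]

theorem route_filter_neg (cl : Rep → ℕ) (L : List (Inp k)) (y : Inp k) {i : ℕ}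
    (h : cl y.x ≠ i) : (L ++ [y]).filter (fun z => cl z.x = i) =
      L.filter (fun z => cl z.x = i) := by
  rw [List.filter_append]
  simp [h]

theorem routeStrat_concat (cl : Rep → ℕ) (M : ℕ) (f : ℕ → List (Inp k) → ℕ) (L : List (Inp k))
    (y : Inp k) : routeStrat cl M f (L ++ [y]) =
      cl y.x * M + f (cl y.x) (L.filter (fun z => cl z.x = cl y.x) ++ [y]) := by
  unfold routeStrat
  rw [List.getLast?_concat]
  simp only
  rw [route_filter_pos cl L y rfl]

theorem route_run_mem (cl : Rep → ℕ) (M : ℕ) (f : ℕ → List (Inp k) → ℕ) (L : List (Inp k)) :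
    ∀ q ∈ run (routeStrat cl M f) L, ∃ c', q.2 = cl q.1.x * M + c' ∧
      (q.1, c') ∈ run (f (cl q.1.x)) (L.filter (fun z => cl z.x = cl q.1.x)) := by
  induction L using List.reverseRecOn with
  | nil => intro q hq; simp at hq
  | append_singleton L y ih =>
    intro q hq
    rw [run_concat, List.mem_append, List.mem_singleton] at hq
    rcases hq with hq | rfl
    · obtain ⟨c', h1, h2⟩ := ih q hq
      refine ⟨c', h1, ?_⟩
      by_cases h : cl y.x = cl q.1.x
      · rw [route_filter_pos cl L y h, run_concat]
        exact List.mem_append_left _ h2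
      · rw [route_filter_neg cl L y h]
        exact h2
    · refine ⟨f (cl y.x) (L.filter (fun z => cl z.x = cl y.x) ++ [y]), ?_, ?_⟩
      · exact routeStrat_concat cl M f L y
      · simp only
        rw [route_filter_pos cl L y rfl, run_concat]
        exact List.mem_append_right _ (List.mem_singleton.2 rfl)

theorem route_good (K M : ℕ) (cl : Rep → ℕ) (f : ℕ → List (Inp k) → ℕ) (L : List (Inp k))
    (hcl : ∀ y ∈ L, cl y.x < K)
    (hgood : ∀ i < K, Good (f i) (L.filter (fun y => cl y.x = i)) M) :
    Good (routeStrat cl M f) L (K * M) := by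
  induction L using List.reverseRecOn with
  | nil => exact good_nil _ _
  | append_singleton L y ih =>
    have hy : cl y.x < K := hcl y (by simp)
    have hgy := hgood (cl y.x) hy
    rw [route_filter_pos cl L y rfl, good_concat] at hgy
    have hgL : ∀ i < K, Good (f i) (L.filter (fun y => cl y.x = i)) M := by
      intro i hi
      by_cases h : cl y.x = i
      · have := hgood i hi
        rw [route_filter_pos cl L y h, good_concat] at this
        exact this.1
      · have := hgood i hi
        rwa [route_filter_neg cl L y h] at this
    rw [good_concat, routeStrat_concat]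
    refine ⟨ih (fun z hz => hcl z (List.mem_append_left _ hz)) hgL, ?_, ?_⟩
    · calc cl y.x * M + f (cl y.x) (L.filter (fun z => cl z.x = cl y.x) ++ [y])
          < cl y.x * M + M := Nat.add_lt_add_left hgy.2.1 _
        _ = (cl y.x + 1) * M := by ring
        _ ≤ K * M := Nat.mul_le_mul_right _ hy
    · intro u hu hut
      obtain ⟨c', h1, h2⟩ := route_run_mem cl M f L u hu
      have huL : u.1 ∈ L := by
        have : u.1 ∈ (run (routeStrat cl M f) L).map Prod.fst := List.mem_map_of_mem hu
        rwa [run_map_fst] at this
      have hu1 : cl u.1.x < K := hcl u.1 (List.mem_append_left _ huL)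
      have hc' : c' < M := (hgL _ hu1).1 _ h2
      have hM : 0 < M := by omega
      rw [h1]
      by_cases h : cl u.1.x = cl y.x
      · rw [h] at h2 ⊢
        have h3 := hgy.2.2 (u.1, c') h2 hut
        simp only at h3
        omega
      · intro heq
        apply h
        have h4 : (cl u.1.x * M + c') / M = cl u.1.x := by
          rw [Nat.mul_comm, Nat.mul_add_div hM, Nat.div_eq_of_lt hc', add_zero]
        have h5 : (cl y.x * M + f (cl y.x) (L.filter (fun z => cl z.x = cl y.x) ++ [y])) / M =
            cl y.x := by
          rw [Nat.mul_comm, Nat.mul_add_div hM, Nat.div_eq_of_lt hgy.2.1, add_zero]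
        rw [← h4, heq, h5]

end Pool.Agent.H45.OC
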