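import Pool.Agent.H45.OC.Cluster
import Pool.Agent.H45.OC.Route
import Pool.Agent.H45.OC.NoShort

/-!
# From clusters to claims

Module BASE.

All three use `cluster` and `route_good`.  For `claim_one` the strategies are constant (`M = 1`);
two adjacent inputs `u, y` of a class with values in sets of size one refute all `ω` at which
`ab u.x ω = ab y.x ω ≠ ∅` and `u.a ω ≠ ∅ ≠ y.a ω`, of weight at least `κc - 2 η ≥ κ`
(`Refuted.of_sublist` for the sublist `[u, y]`).

For `claim_two` apply `no_short_odd` to the class `L.filter (fun y => cl y.x = i)` with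
`Xs.filter (fun x => cl x = i)` (`Adm.sublist`, `mass_refuted_mono`), and then the strategy of
`HogFor`.

For `claim_of_PA` use `C = 2`: for `x, x'` in one class `T = {x, x'}` gives the agreement; the
strategy of the class `i` comes from `ClaimPA` for `Xs.filter (fun x => cl x = i)`.
-/

set_option autoImplicit false

open Finset

noncomputable section

namespace Pool.Agent.H45.OC

open Classical

variable {k : ℕ}

theorem base_const_good {k : ℕ} (L : List (Inp k)) (h : L.Pairwise (fun u y => u.t ∉ y.nb)) :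
    Good (fun _ => 0) L 1 := by
  induction L using List.reverseRecOn with
  | nil => exact good_nil _ _
  | append_singleton L y ih =>
    rw [List.pairwise_append] at h
    rw [good_concat]
    refine ⟨ih h.1, Nat.zero_lt_one, fun u hu hut => ?_⟩
    have huL : u.1 ∈ L := by
      have h1 : u.1 ∈ (run (fun _ => 0) L).map Prod.fst := List.mem_map_of_mem hu
      rwa [run_map_fst] at h1
    exact absurd hut (h.2.2 u.1 huL y (List.mem_singleton.2 rfl))

/-- the clustering lemma with bounds for the number of representatives -/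
theorem base_cluster {k : ℕ} (μ : Sp k) (Xs : Finset Rep) (ab : Rep → Hyp k → Finset (Fin k))
    {p κc : ℝ} (C mm J M0 : ℕ) (hXs : Xs.card ≤ M0) (hp : 0 < p) (hp2 : p ≤ 2) (hκ : 0 < κc)
    (hab : ∀ x ∈ Xs, p ≤ μ.mass (fun ω => ab x ω ≠ ∅))
    (h1 : (1 - p / 2) ^ mm * (M0 : ℝ) < 1)
    (h2 : (2 * κc / p) ^ J * ((M0 : ℝ) + 1) ^ C < 1) :
    ∃ cl : Rep → ℕ, (∀ x ∈ Xs, cl x < (2 ^ k * mm) ^ J) ∧
      ∀ T ⊆ Xs, T.Nonempty → T.card ≤ C → (∀ x ∈ T, ∀ x' ∈ T, cl x = cl x') →
        κc ≤ μ.mass (Agree ab T) := by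
  have hX : (Xs.card : ℝ) ≤ M0 := by exact_mod_cast hXs
  have hp3 : 0 ≤ 1 - p / 2 := by linarith
  refine cluster μ Xs ab C mm J hp hp2 hκ hab (lt_of_le_of_lt ?_ h1) (lt_of_le_of_lt ?_ h2)
  · exact mul_le_mul_of_nonneg_left hX (pow_nonneg hp3 _)
  · refine mul_le_mul_of_nonneg_left ?_ (by positivity)
    exact pow_le_pow_left₀ (by positivity) (by linarith) _

theorem claim_one {k N M0 mm J : ℕ} {κ η p κc : ℝ} (hp : 0 < p) (hp2 : p ≤ 2)
    (hκc : 0 < κc) (hκ : κ + 2 * η ≤ κc)
    (h1 : (1 - p / 2) ^ mm * (M0 : ℝ) < 1)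
    (h2 : (2 * κc / p) ^ J * ((M0 : ℝ) + 1) ^ 2 < 1) :
    Claim k 1 N κ η p M0 ((2 ^ k * mm) ^ J) := by
  intro μ Xs ab hXs hcard hmass
  obtain ⟨cl, hcl, hcl'⟩ := base_cluster μ Xs ab 2 mm J M0 hXs hp hp2 hκc hmass h1 h2
  refine ⟨routeStrat cl 1 (fun _ _ => 0), fun L hL _ hr => ?_⟩
  have hg := route_good ((2 ^ k * mm) ^ J) 1 cl (fun _ _ => 0) L
    (fun y hy => hcl _ (hL.mem y hy)) ?_
  · rwa [Nat.mul_one] at hg
  · intro i _
    refine base_const_good _ ?_
    rw [List.pairwise_iff_forall_sublist]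
    intro u y hsub hut
    have hsubL : [u, y].Sublist L := hsub.trans List.filter_sublist
    have hu : u ∈ L.filter (fun y => cl y.x = i) := hsub.subset (by simp)
    have hy : y ∈ L.filter (fun y => cl y.x = i) := hsub.subset (by simp)
    rw [List.mem_filter] at hu hy
    have hcu : cl u.x = i := by simpa using hu.2
    have hcy : cl y.x = i := by simpa using hy.2
    have hT := hcl' {u.x, y.x} ?_ ⟨u.x, by simp⟩ Finset.card_le_two ?_
    · have himp : ∀ ω ∈ μ.sp, Agree ab {u.x, y.x} ω → Refuted L ω ∨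
          ((ab u.x ω ≠ ∅ ∧ u.a ω = ∅) ∨ (ab y.x ω ≠ ∅ ∧ y.a ω = ∅)) := by
        rintro ω hω ⟨A, hA, hTA⟩
        have hau : ab u.x ω = A := hTA _ (by simp)
        have hay : ab y.x ω = A := hTA _ (by simp)
        by_cases h3 : u.a ω = ∅
        · exact Or.inr (Or.inl ⟨by rw [hau]; exact hA, h3⟩)
        · by_cases h4 : y.a ω = ∅
          · exact Or.inr (Or.inr ⟨by rw [hay]; exact hA, h4⟩)
          · left
            refine Refuted.of_sublist (L' := [u, y]) ?_ hsubL
            rintro ⟨c, hc⟩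
            have hA1 : A.card = 1 := by
              rw [← hau]
              exact hcard _ (hL.mem u hu.1) ω hω (by rw [hau]; exact hA)
            obtain ⟨a, rfl⟩ := Finset.card_eq_one.1 hA1
            have h5 := hc.1 u (by simp) h3
            have h6 := hc.1 y (by simp) h4
            rw [hL.sub u hu.1 ω hω h3, hau, Finset.mem_singleton] at h5
            rw [hL.sub y hy.1 ω hω h4, hay, Finset.mem_singleton] at h6
            have h7 := hc.2
            rw [List.pairwise_cons] at h7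
            exact h7.1 y (by simp) hut (h5.trans h6.symm)
      have h3 := (μ.mass_mono himp).trans (μ.mass_or_le _ _)
      have h4 := μ.mass_or_le (fun ω => ab u.x ω ≠ ∅ ∧ u.a ω = ∅)
        (fun ω => ab y.x ω ≠ ∅ ∧ y.a ω = ∅)
      have h5 := hL.tol u hu.1
      have h6 := hL.tol y hy.1
      linarith
    · intro x hx
      rw [Finset.mem_insert, Finset.mem_singleton] at hx
      rcases hx with rfl | rfl
      · exact hL.mem u hu.1
      · exact hL.mem y hy.1
    · intro x hx x' hx'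
      rw [Finset.mem_insert, Finset.mem_singleton] at hx hx'
      rcases hx with rfl | rfl <;> rcases hx' with rfl | rfl <;> simp [hcu, hcy]

/-- the colouring lemma for high odd girth, as a hypothesis -/
def HogFor (k l a N : ℕ) : Prop :=
  ∃ f : List (Inp k) → ℕ, ∀ L : List (Inp k), L.Pairwise (fun y y' => y.t < y'.t) →
    (∀ y ∈ L, ∀ i ∈ y.nb, i < y.t) → L.length ≤ N → NoShortOdd L (4 * hogR (l - 1) + 1) →
    Good f L (l * a ^ 2)

theorem base_adm_class {k : ℕ} {μ : Sp k} {Xs : Finset Rep} {ab : Rep → Hyp k → Finset (Fin k)}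
    {η : ℝ} {L : List (Inp k)} (hL : Adm μ Xs ab η L) (cl : Rep → ℕ) (i : ℕ) :
    Adm μ (Xs.filter (fun x => cl x = i)) ab η (L.filter (fun y => cl y.x = i)) := by
  have h := hL.sublist (List.filter_sublist (l := L) (p := fun y => decide (cl y.x = i)))
  refine ⟨h.inc, h.nb, fun y hy => ?_, h.sub, h.tol⟩
  have hy' := hy
  rw [List.mem_filter] at hy'
  rw [Finset.mem_filter]
  exact ⟨h.mem y hy, by simpa using hy'.2⟩

theorem claim_two {k N M0 mm J l a : ℕ} {κ η p κc : ℝ} (hp : 0 < p) (hp2 : p ≤ 2)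
    (hκc : 0 < κc) (hη : 0 ≤ η) (hκ : κ + (4 * hogR (l - 1) + 1 : ℕ) * η ≤ κc)
    (hhog : HogFor k l a N)
    (h1 : (1 - p / 2) ^ mm * (M0 : ℝ) < 1)
    (h2 : (2 * κc / p) ^ J * ((M0 : ℝ) + 1) ^ (4 * hogR (l - 1) + 1) < 1) :
    Claim k 2 N κ η p M0 ((2 ^ k * mm) ^ J * (l * a ^ 2)) := by
  intro μ Xs ab hXs hcard hmass
  obtain ⟨cl, hcl, hcl'⟩ := base_cluster μ Xs ab (4 * hogR (l - 1) + 1) mm J M0 hXs hp hp2 hκc
    hmass h1 h2
  obtain ⟨f, hf⟩ := hhog
  refine ⟨routeStrat cl (l * a ^ 2) (fun _ => f), fun L hL hLN hr => ?_⟩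
  refine route_good ((2 ^ k * mm) ^ J) (l * a ^ 2) cl (fun _ => f) L
    (fun y hy => hcl _ (hL.mem y hy)) fun i _ => ?_
  have hadm := base_adm_class hL cl i
  have hsub : (L.filter (fun y => cl y.x = i)).Sublist L := List.filter_sublist
  refine hf _ hadm.inc hadm.nb (hsub.length_le.trans hLN) ?_
  refine no_short_odd μ (Xs.filter (fun x => cl x = i)) ab hη hκ
    (fun x hx => hcard x (Finset.mem_filter.1 hx).1) ?_ _ hadm
    (lt_of_le_of_lt (mass_refuted_mono μ hsub) hr)
  intro T hT hTne hTC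
  refine hcl' T (hT.trans (Finset.filter_subset _ _)) hTne hTC fun x hx x' hx' => ?_
  rw [(Finset.mem_filter.1 (hT hx)).2, (Finset.mem_filter.1 (hT hx')).2]

theorem claim_of_PA {k j N M0 mm J M : ℕ} {κ η p κ0 : ℝ} (hp : 0 < p) (hp2 : p ≤ 2)
    (hκ0 : 0 < κ0) (hPA : ClaimPA k j N κ η κ0 M0 M)
    (h1 : (1 - p / 2) ^ mm * (M0 : ℝ) < 1)
    (h2 : (2 * κ0 / p) ^ J * ((M0 : ℝ) + 1) ^ 2 < 1) :
    Claim k j N κ η p M0 ((2 ^ k * mm) ^ J * M) := by
  intro μ Xs ab hXs hcard hmass
  obtain ⟨cl, hcl, hcl'⟩ := base_cluster μ Xs ab 2 mm J M0 hXs hp hp2 hκ0 hmass h1 h2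
  have hex : ∀ i : ℕ, ∃ f : List (Inp k) → ℕ, ∀ L : List (Inp k),
      Adm μ (Xs.filter (fun x => cl x = i)) ab η L → L.length ≤ N →
      μ.mass (Refuted L) < κ → Good f L M := by
    intro i
    refine hPA μ (Xs.filter (fun x => cl x = i)) ab
      ((Finset.card_le_card (Finset.filter_subset _ _)).trans hXs)
      (fun x hx => hcard x (Finset.mem_filter.1 hx).1) ?_
    intro x hx x' hx'
    rw [Finset.mem_filter] at hx hx'
    refine (hcl' {x, x'} ?_ ⟨x, by simp⟩ Finset.card_le_two ?_).trans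
      (μ.mass_mono fun ω _ h => ?_)
    · intro z hz
      rw [Finset.mem_insert, Finset.mem_singleton] at hz
      rcases hz with rfl | rfl
      · exact hx.1
      · exact hx'.1
    · intro z hz z' hz'
      rw [Finset.mem_insert, Finset.mem_singleton] at hz hz'
      rcases hz with rfl | rfl <;> rcases hz' with rfl | rfl <;> simp [hx.2, hx'.2]
    · obtain ⟨A, hA, hTA⟩ := h
      have e1 : ab x ω = A := hTA _ (by simp)
      have e2 : ab x' ω = A := hTA _ (by simp)
      exact ⟨by rw [e1, e2], by rw [e1]; exact hA⟩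
  choose f hf using hex
  refine ⟨routeStrat cl M f, fun L hL hLN hr => ?_⟩
  refine route_good ((2 ^ k * mm) ^ J) M cl f L (fun y hy => hcl _ (hL.mem y hy)) fun i _ => ?_
  have hsub : (L.filter (fun y => cl y.x = i)).Sublist L := List.filter_sublist
  exact hf i _ (base_adm_class hL cl i) (hsub.length_le.trans hLN)
    (lt_of_le_of_lt (mass_refuted_mono μ hsub) hr)

end Pool.Agent.H45.OC
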