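import Pool.Agent.H45.OC.ClusterA

/-!
# The clustering lemma, second part

Module CLUSTER.

* `round`: induction on `t`.  For `t = 0` the set `Y` is empty.  Step: if `Y` is empty everything
  is trivial, otherwise take `ω` from `split_one`, give the `x ∈ Y` with `ab x ω ≠ ∅` the numbers
  `2 ^ k * t + code (ab x ω)` (at most `2 ^ k` pieces; `code` any injection of
  `Finset (Fin k)` into `Fin (2 ^ k)`), and apply the induction hypothesis to the rest, of size at
  most `(1 - p/2)|Y|`.
* `rounds`: induction on `J`: apply `round` to each of the classes and combine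
  `cl x * (2 ^ k * mm) + cl' (cl x) x` (if `mm = 0`, then `Y` is empty).
* `cluster`: after `J` rounds every class has fewer than one bad set (`card_bads_le`); a set `T`
  with constant `cl` lies in a class.
-/

set_option autoImplicit false

open Finset

noncomputable section

namespace Pool.Agent.H45.OC

open Classical

variable {k : ℕ}

theorem cluster_code (k : ℕ) : ∃ code : Finset (Fin k) → ℕ, Function.Injective code ∧
    ∀ A, code A < 2 ^ k := by
  have hcard : Fintype.card (Finset (Fin k)) = 2 ^ k := by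
    rw [Fintype.card_finset, Fintype.card_fin]
  refine ⟨fun A => (Fintype.equivFin (Finset (Fin k)) A).val, ?_, fun A => ?_⟩
  · intro A B h
    exact (Fintype.equivFin (Finset (Fin k))).injective (Fin.ext h)
  · rw [← hcard]
    exact (Fintype.equivFin (Finset (Fin k)) A).isLt

theorem cluster_card_le (μ : Sp k) (ab : Rep → Hyp k → Finset (Fin k)) (κc : ℝ) (C : ℕ)
    {Y Y' : Finset Rep} (h : Y ⊆ Y') :
    ((bads μ ab κc C Y).card : ℝ) ≤ ((bads μ ab κc C Y').card : ℝ) := by
  exact_mod_cast Finset.card_le_card (bads_mono μ ab κc C h)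

theorem round (μ : Sp k) (ab : Rep → Hyp k → Finset (Fin k)) {p κc : ℝ} (C : ℕ)
    (hp : 0 < p) (hκ : 0 < κc) (hκp : p ≤ 2) (t : ℕ) (Y : Finset Rep)
    (hab : ∀ x ∈ Y, p ≤ μ.mass (fun ω => ab x ω ≠ ∅))
    (ht : (1 - p / 2) ^ t * (Y.card : ℝ) < 1) :
    ∃ cl : Rep → ℕ, (∀ x ∈ Y, cl x < 2 ^ k * t) ∧ ∀ i,
      ((bads μ ab κc C (Y.filter (fun x => cl x = i))).card : ℝ) ≤
        2 * κc / p * ((bads μ ab κc C Y).card : ℝ) := by
  have hpos : ∀ Y' : Finset Rep, 0 ≤ 2 * κc / p * ((bads μ ab κc C Y').card : ℝ) :=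
    fun Y' => by positivity
  have htriv : Y = ∅ → ∃ cl : Rep → ℕ, (∀ x ∈ Y, cl x < 2 ^ k * t) ∧ ∀ i,
      ((bads μ ab κc C (Y.filter (fun x => cl x = i))).card : ℝ) ≤
        2 * κc / p * ((bads μ ab κc C Y).card : ℝ) := by
    intro hY
    subst hY
    refine ⟨fun _ => 0, fun x hx => absurd hx (Finset.notMem_empty x), fun i => ?_⟩
    rw [Finset.filter_empty, bads_empty, Finset.card_empty]
    simp
  induction t generalizing Y with
  | zero =>
    refine htriv ?_
    rw [pow_zero, one_mul] at ht
    have : Y.card < 1 := by exact_mod_cast ht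
    exact Finset.card_eq_zero.1 (by omega)
  | succ t ih =>
    rcases Y.eq_empty_or_nonempty with hY | hY
    · exact htriv hY
    · obtain ⟨ω, hω, h1, h2⟩ := split_one μ ab C hp hκ Y hY hab
      obtain ⟨code, hcode, hcodelt⟩ := cluster_code k
      set Y0 : Finset Rep := Y.filter (fun x => ab x ω = ∅) with hY0
      have hY0sub : Y0 ⊆ Y := Finset.filter_subset _ _
      have hcardadd : (Y0.card : ℝ) + ((Y.filter (fun x => ab x ω ≠ ∅)).card : ℝ) = Y.card := by
        have := Finset.card_filter_add_card_filter_not (s := Y) (fun x => ab x ω = ∅)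
        exact_mod_cast this
      have hp2 : 0 ≤ 1 - p / 2 := by linarith
      have ht0 : (1 - p / 2) ^ t * (Y0.card : ℝ) < 1 := by
        have h3 : (Y0.card : ℝ) ≤ (1 - p / 2) * Y.card := by linarith
        calc (1 - p / 2) ^ t * (Y0.card : ℝ) ≤ (1 - p / 2) ^ t * ((1 - p / 2) * Y.card) :=
              mul_le_mul_of_nonneg_left h3 (pow_nonneg hp2 _)
          _ = (1 - p / 2) ^ (t + 1) * Y.card := by ring
          _ < 1 := ht
      obtain ⟨cl0, hcl0, hcl0'⟩ := ih Y0 (fun x hx => hab x (hY0sub hx)) ht0 (by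
        intro hY0e
        refine ⟨fun _ => 0, fun x hx => ?_, fun i => ?_⟩
        · rw [hY0e] at hx; exact absurd hx (Finset.notMem_empty x)
        · rw [hY0e, Finset.filter_empty, bads_empty, Finset.card_empty]
          simp)
      refine ⟨fun x => if ab x ω = ∅ then cl0 x else 2 ^ k * t + code (ab x ω), ?_, ?_⟩
      · intro x hx
        simp only
        split_ifs with h
        · have := hcl0 x (Finset.mem_filter.2 ⟨hx, h⟩)
          calc cl0 x < 2 ^ k * t := this
            _ ≤ 2 ^ k * (t + 1) := Nat.mul_le_mul_left _ (Nat.le_succ t)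
        · have := hcodelt (ab x ω)
          calc 2 ^ k * t + code (ab x ω) < 2 ^ k * t + 2 ^ k := Nat.add_lt_add_left this _
            _ = 2 ^ k * (t + 1) := by ring
      · intro i
        by_cases hi : i < 2 ^ k * t
        · have hsub : Y.filter (fun x => (if ab x ω = ∅ then cl0 x else
              2 ^ k * t + code (ab x ω)) = i) ⊆ Y0.filter (fun x => cl0 x = i) := by
            intro x hx
            rw [Finset.mem_filter] at hx
            obtain ⟨hxY, hxi⟩ := hx
            split_ifs at hxi with h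
            · rw [Finset.mem_filter, hY0, Finset.mem_filter]
              exact ⟨⟨hxY, h⟩, hxi⟩
            · omega
          calc ((bads μ ab κc C _).card : ℝ)
              ≤ ((bads μ ab κc C (Y0.filter (fun x => cl0 x = i))).card : ℝ) :=
                cluster_card_le μ ab κc C hsub
            _ ≤ 2 * κc / p * ((bads μ ab κc C Y0).card : ℝ) := hcl0' i
            _ ≤ 2 * κc / p * ((bads μ ab κc C Y).card : ℝ) :=
                mul_le_mul_of_nonneg_left (cluster_card_le μ ab κc C hY0sub) (by positivity)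
        · rcases (Y.filter (fun x => (if ab x ω = ∅ then cl0 x else
              2 ^ k * t + code (ab x ω)) = i)).eq_empty_or_nonempty with he | hne
          · rw [he, bads_empty, Finset.card_empty]
            simpa using hpos Y
          · obtain ⟨x0, hx0⟩ := hne
            rw [Finset.mem_filter] at hx0
            obtain ⟨hx0Y, hx0i⟩ := hx0
            split_ifs at hx0i with h0
            · exact absurd (hcl0 x0 (Finset.mem_filter.2 ⟨hx0Y, h0⟩)) (by omega)
            · have hsub : Y.filter (fun x => (if ab x ω = ∅ then cl0 x else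
                  2 ^ k * t + code (ab x ω)) = i) ⊆
                  Y.filter (fun x => ab x ω = ab x0 ω) := by
                intro x hx
                rw [Finset.mem_filter] at hx ⊢
                obtain ⟨hxY, hxi⟩ := hx
                split_ifs at hxi with h
                · exact absurd (hcl0 x (Finset.mem_filter.2 ⟨hxY, h⟩)) (by omega)
                · exact ⟨hxY, hcode (by omega)⟩
              calc ((bads μ ab κc C _).card : ℝ)
                  ≤ ((bads μ ab κc C (Y.filter (fun x => ab x ω = ab x0 ω))).card : ℝ) :=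
                    cluster_card_le μ ab κc C hsub
                _ ≤ ∑ A ∈ (Finset.univ : Finset (Finset (Fin k))).filter (fun A => A ≠ ∅),
                      ((bads μ ab κc C (Y.filter (fun x => ab x ω = A))).card : ℝ) :=
                    Finset.single_le_sum (f := fun A =>
                      ((bads μ ab κc C (Y.filter (fun x => ab x ω = A))).card : ℝ))
                      (fun _ _ => Nat.cast_nonneg _)
                      (Finset.mem_filter.2 ⟨Finset.mem_univ _, h0⟩)
                _ ≤ _ := h2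

theorem rounds (μ : Sp k) (ab : Rep → Hyp k → Finset (Fin k)) {p κc : ℝ} (C : ℕ)
    (hp : 0 < p) (hκ : 0 < κc) (hκp : p ≤ 2) (mm J : ℕ) (Y : Finset Rep)
    (hab : ∀ x ∈ Y, p ≤ μ.mass (fun ω => ab x ω ≠ ∅))
    (ht : (1 - p / 2) ^ mm * (Y.card : ℝ) < 1) :
    ∃ cl : Rep → ℕ, (∀ x ∈ Y, cl x < (2 ^ k * mm) ^ J) ∧ ∀ i,
      ((bads μ ab κc C (Y.filter (fun x => cl x = i))).card : ℝ) ≤
        (2 * κc / p) ^ J * ((bads μ ab κc C Y).card : ℝ) := by
  induction J with
  | zero =>
    refine ⟨fun _ => 0, fun x _ => by simp, fun i => ?_⟩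
    rw [pow_zero, one_mul]
    exact cluster_card_le μ ab κc C (Finset.filter_subset _ _)
  | succ J ih =>
    obtain ⟨cl, hcl, hcl'⟩ := ih
    have hp2 : 0 ≤ 1 - p / 2 := by linarith
    have hround : ∀ j, ∃ cl' : Rep → ℕ,
        (∀ x ∈ Y.filter (fun x => cl x = j), cl' x < 2 ^ k * mm) ∧ ∀ i,
        ((bads μ ab κc C ((Y.filter (fun x => cl x = j)).filter (fun x => cl' x = i))).card : ℝ) ≤
        2 * κc / p * ((bads μ ab κc C (Y.filter (fun x => cl x = j))).card : ℝ) := by
      intro j
      refine round μ ab C hp hκ hκp mm _ (fun x hx => hab x (Finset.filter_subset _ _ hx)) ?_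
      refine lt_of_le_of_lt ?_ ht
      refine mul_le_mul_of_nonneg_left ?_ (pow_nonneg hp2 _)
      exact_mod_cast Finset.card_le_card (Finset.filter_subset _ _)
    choose cl' hc1 hc2 using hround
    set m := 2 ^ k * mm with hm
    refine ⟨fun x => cl x * m + cl' (cl x) x, fun x hx => ?_, fun i => ?_⟩
    · have h1 := hcl x hx
      have h2 := hc1 (cl x) x (Finset.mem_filter.2 ⟨hx, rfl⟩)
      calc cl x * m + cl' (cl x) x < cl x * m + m := Nat.add_lt_add_left h2 _
        _ = (cl x + 1) * m := by ring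
        _ ≤ m ^ J * m := Nat.mul_le_mul_right _ h1
        _ = m ^ (J + 1) := by ring
    · have hsub : Y.filter (fun x => cl x * m + cl' (cl x) x = i) ⊆
          (Y.filter (fun x => cl x = i / m)).filter (fun x => cl' (i / m) x = i % m) := by
        intro x hx
        rw [Finset.mem_filter] at hx
        obtain ⟨hxY, hxi⟩ := hx
        have h2 := hc1 (cl x) x (Finset.mem_filter.2 ⟨hxY, rfl⟩)
        have hm0 : 0 < m := by omega
        have h3 : i / m = cl x := by
          rw [← hxi, Nat.mul_comm, Nat.mul_add_div hm0, Nat.div_eq_of_lt h2, add_zero]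
        have h4 : i % m = cl' (cl x) x := by
          rw [← hxi, Nat.mul_comm, Nat.mul_add_mod, Nat.mod_eq_of_lt h2]
        rw [Finset.mem_filter, Finset.mem_filter, h3, h4]
        exact ⟨⟨hxY, rfl⟩, rfl⟩
      calc ((bads μ ab κc C _).card : ℝ)
          ≤ ((bads μ ab κc C ((Y.filter (fun x => cl x = i / m)).filter
              (fun x => cl' (i / m) x = i % m))).card : ℝ) := cluster_card_le μ ab κc C hsub
        _ ≤ 2 * κc / p * ((bads μ ab κc C (Y.filter (fun x => cl x = i / m))).card : ℝ) :=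
            hc2 _ _
        _ ≤ 2 * κc / p * ((2 * κc / p) ^ J * ((bads μ ab κc C Y).card : ℝ)) :=
            mul_le_mul_of_nonneg_left (hcl' _) (by positivity)
        _ = (2 * κc / p) ^ (J + 1) * ((bads μ ab κc C Y).card : ℝ) := by ring

/-- **Clustering lemma.** -/
theorem cluster (μ : Sp k) (Xs : Finset Rep) (ab : Rep → Hyp k → Finset (Fin k)) {p κc : ℝ}
    (C mm J : ℕ) (hp : 0 < p) (hp2 : p ≤ 2) (hκ : 0 < κc)
    (hab : ∀ x ∈ Xs, p ≤ μ.mass (fun ω => ab x ω ≠ ∅))
    (h1 : (1 - p / 2) ^ mm * (Xs.card : ℝ) < 1)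
    (h2 : (2 * κc / p) ^ J * ((Xs.card : ℝ) + 1) ^ C < 1) :
    ∃ cl : Rep → ℕ, (∀ x ∈ Xs, cl x < (2 ^ k * mm) ^ J) ∧
      ∀ T ⊆ Xs, T.Nonempty → T.card ≤ C → (∀ x ∈ T, ∀ x' ∈ T, cl x = cl x') →
        κc ≤ μ.mass (Agree ab T) := by
  obtain ⟨cl, hcl, hcl'⟩ := rounds μ ab C hp hκ hp2 mm J Xs hab h1
  refine ⟨cl, hcl, fun T hT hTne hTC hTcl => ?_⟩
  by_contra hcon
  push Not at hcon
  obtain ⟨x0, hx0⟩ := hTne
  have h3 : T ∈ bads μ ab κc C (Xs.filter (fun x => cl x = cl x0)) := by
    unfold bads
    rw [Finset.mem_filter, Finset.mem_powerset]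
    refine ⟨fun x hx => Finset.mem_filter.2 ⟨hT hx, hTcl x hx x0 hx0⟩, ⟨x0, hx0⟩, hTC, hcon⟩
  have h4 : 1 ≤ (bads μ ab κc C (Xs.filter (fun x => cl x = cl x0))).card :=
    Finset.card_pos.2 ⟨T, h3⟩
  have h5 : (1 : ℝ) ≤ ((bads μ ab κc C (Xs.filter (fun x => cl x = cl x0))).card : ℝ) := by
    exact_mod_cast h4
  have h6 := hcl' (cl x0)
  have h7 : (2 * κc / p) ^ J * ((bads μ ab κc C Xs).card : ℝ) ≤
      (2 * κc / p) ^ J * ((Xs.card : ℝ) + 1) ^ C :=
    mul_le_mul_of_nonneg_left (card_bads_le μ ab κc C Xs) (by positivity)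
  linarith

end Pool.Agent.H45.OC
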