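import Mathlib

/-!
# On-line colouring of `k`-colourable graphs: the relative game

Paper proof: team database, table `proofs`, id 190.

Hypotheses are lists of experts, an expert is a list of centres `(z, D, γ)`: the vertex `z` has
colour `γ` and `D` is a set of neighbours of `z`.  All levels of the recursion use the same types.
-/

set_option autoImplicit false

open Finset

noncomputable section

namespace Pool.Agent.H45.OC

open Classical

/-- a centre: vertex, set of earlier neighbours, colour -/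
abbrev Centre (k : ℕ) := ℕ × Finset ℕ × Fin k

/-- an expert: a list of centres -/
abbrev Expert (k : ℕ) := List (Centre k)

/-- a hypothesis: a list of experts, one for each level of the recursion -/
abbrev Hyp (k : ℕ) := List (Expert k)

/-- representatives (static data); `node x v xv`: representative `x`, vertex `v` with its own
representative `xv` -/
inductive Rep : Type
  | root : Rep
  | node : Rep → ℕ → Rep → Rep

/-- an input of the relative game: vertex id, earlier neighbours, representative, and the set of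
allowed colours under every hypothesis (`∅` = no information) -/
structure Inp (k : ℕ) where
  t : ℕ
  nb : Finset ℕ
  x : Rep
  a : Hyp k → Finset (Fin k)

variable {k : ℕ}

/-- a finite weighted set of hypotheses -/
structure Sp (k : ℕ) where
  sp : Finset (Hyp k)
  P : Hyp k → ℝ
  nonneg : ∀ ω, 0 ≤ P ω
  total : ∑ ω ∈ sp, P ω ≤ 1

/-- weight of the hypotheses satisfying `E` -/
def Sp.mass (μ : Sp k) (E : Hyp k → Prop) : ℝ := ∑ ω ∈ μ.sp.filter E, μ.P ω

theorem Sp.mass_nonneg (μ : Sp k) (E : Hyp k → Prop) : 0 ≤ μ.mass E :=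
  Finset.sum_nonneg fun ω _ => μ.nonneg ω

theorem Sp.mass_mono (μ : Sp k) {E F : Hyp k → Prop} (h : ∀ ω ∈ μ.sp, E ω → F ω) :
    μ.mass E ≤ μ.mass F := by
  apply Finset.sum_le_sum_of_subset_of_nonneg
  · intro ω hω
    rw [Finset.mem_filter] at hω ⊢
    exact ⟨hω.1, h ω hω.1 hω.2⟩
  · intro ω _ _
    exact μ.nonneg ω

theorem Sp.mass_le_one (μ : Sp k) (E : Hyp k → Prop) : μ.mass E ≤ 1 := by
  refine le_trans ?_ μ.total
  apply Finset.sum_le_sum_of_subset_of_nonneg (Finset.filter_subset _ _)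
  intro ω _ _
  exact μ.nonneg ω

theorem Sp.mass_or_le (μ : Sp k) (E F : Hyp k → Prop) :
    μ.mass (fun ω => E ω ∨ F ω) ≤ μ.mass E + μ.mass F := by
  unfold Sp.mass
  have := Finset.sum_union_inter (s₁ := μ.sp.filter E) (s₂ := μ.sp.filter F) (f := μ.P)
  have h2 : 0 ≤ ∑ ω ∈ μ.sp.filter E ∩ μ.sp.filter F, μ.P ω :=
    Finset.sum_nonneg fun ω _ => μ.nonneg ω
  have h3 : ∑ ω ∈ μ.sp.filter (fun ω => E ω ∨ F ω), μ.P ω ≤
      ∑ ω ∈ μ.sp.filter E ∪ μ.sp.filter F, μ.P ω := by
    apply Finset.sum_le_sum_of_subset_of_nonneg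
    · intro ω hω
      simp only [Finset.mem_filter, Finset.mem_union] at hω ⊢
      tauto
    · intro ω _ _
      exact μ.nonneg ω
  refine le_trans (le_of_eq ?_) (le_trans h3 (by linarith))
  congr 1
  ext ω
  simp only [Finset.mem_filter]

/-- `c` is a proper colouring of the inputs `L` that respects the sets of allowed colours under
the hypothesis `ω` -/
def Valid (L : List (Inp k)) (ω : Hyp k) (c : ℕ → Fin k) : Prop :=
  (∀ y ∈ L, y.a ω ≠ ∅ → c y.t ∈ y.a ω) ∧
    L.Pairwise (fun y y' => y.t ∈ y'.nb → c y.t ≠ c y'.t)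

/-- the hypothesis `ω` is refuted by `L` -/
def Refuted (L : List (Inp k)) (ω : Hyp k) : Prop := ¬ ∃ c : ℕ → Fin k, Valid L ω c

theorem Valid.sublist {L L' : List (Inp k)} {ω : Hyp k} {c : ℕ → Fin k} (h : Valid L ω c)
    (hs : L'.Sublist L) : Valid L' ω c :=
  ⟨fun y hy => h.1 y (hs.subset hy), h.2.sublist hs⟩

theorem Refuted.of_sublist {L L' : List (Inp k)} {ω : Hyp k} (h : Refuted L' ω)
    (hs : L'.Sublist L) : Refuted L ω := fun ⟨c, hc⟩ => h ⟨c, hc.sublist hs⟩

theorem mass_refuted_mono (μ : Sp k) {L L' : List (Inp k)} (hs : L'.Sublist L) :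
    μ.mass (Refuted L') ≤ μ.mass (Refuted L) :=
  μ.mass_mono fun _ _ h => h.of_sublist hs

/-- The list of inputs with the colours given by the strategy `f`; the strategy gives the colour
of the last element of a list of inputs. -/
def run (f : List (Inp k) → ℕ) (L : List (Inp k)) : List (Inp k × ℕ) :=
  (L.foldl (fun s y => (s.1 ++ [y], s.2 ++ [(y, f (s.1 ++ [y]))]))
    (([] : List (Inp k)), ([] : List (Inp k × ℕ)))).2

theorem run_fst_aux (f : List (Inp k) → ℕ) (L : List (Inp k)) :
    (L.foldl (fun s y => (s.1 ++ [y], s.2 ++ [(y, f (s.1 ++ [y]))]))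
      (([] : List (Inp k)), ([] : List (Inp k × ℕ)))).1 = L := by
  induction L using List.reverseRecOn with
  | nil => rfl
  | append_singleton L y ih => rw [List.foldl_append, List.foldl_cons, List.foldl_nil, ih]

@[simp] theorem run_nil (f : List (Inp k) → ℕ) : run f [] = [] := rfl

theorem run_concat (f : List (Inp k) → ℕ) (L : List (Inp k)) (y : Inp k) :
    run f (L ++ [y]) = run f L ++ [(y, f (L ++ [y]))] := by
  unfold run
  rw [List.foldl_append, List.foldl_cons, List.foldl_nil, run_fst_aux]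

theorem run_map_fst (f : List (Inp k) → ℕ) (L : List (Inp k)) :
    (run f L).map Prod.fst = L := by
  induction L using List.reverseRecOn with
  | nil => rfl
  | append_singleton L y ih => rw [run_concat, List.map_append, ih]; rfl

/-- The strategy `f` colours the list `L` properly and with colours below `M`. -/
def Good (f : List (Inp k) → ℕ) (L : List (Inp k)) (M : ℕ) : Prop :=
  (∀ q ∈ run f L, q.2 < M) ∧
    (run f L).Pairwise (fun u y => u.1.t ∈ y.1.nb → u.2 ≠ y.2)

theorem good_nil (f : List (Inp k) → ℕ) (M : ℕ) : Good f [] M := by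
  constructor
  · intro q hq; simp at hq
  · simp

theorem good_concat {f : List (Inp k) → ℕ} {L : List (Inp k)} {y : Inp k} {M : ℕ} :
    Good f (L ++ [y]) M ↔ Good f L M ∧ f (L ++ [y]) < M ∧
      ∀ u ∈ run f L, u.1.t ∈ y.nb → u.2 ≠ f (L ++ [y]) := by
  unfold Good
  rw [run_concat]
  simp only [List.mem_append, List.mem_singleton, List.pairwise_append, List.pairwise_singleton,
    true_and, forall_eq]
  constructor
  · rintro ⟨h1, h2, h3⟩
    exact ⟨⟨fun q hq => h1 q (Or.inl hq), h2⟩, h1 _ (Or.inr rfl), fun u hu => h3 u hu⟩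
  · rintro ⟨⟨h1, h2⟩, h3, h4⟩
    refine ⟨?_, h2, fun u hu => h4 u hu⟩
    rintro q (hq | rfl)
    · exact h1 q hq
    · exact h3

/-- Admissible lists of inputs for the space `μ` and the static family `Xs`, `ab`. -/
structure Adm (μ : Sp k) (Xs : Finset Rep) (ab : Rep → Hyp k → Finset (Fin k)) (η : ℝ)
    (L : List (Inp k)) : Prop where
  inc : L.Pairwise (fun y y' => y.t < y'.t)
  nb : ∀ y ∈ L, ∀ i ∈ y.nb, i < y.t
  mem : ∀ y ∈ L, y.x ∈ Xs
  sub : ∀ y ∈ L, ∀ ω ∈ μ.sp, y.a ω ≠ ∅ → y.a ω = ab y.x ω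
  tol : ∀ y ∈ L, μ.mass (fun ω => ab y.x ω ≠ ∅ ∧ y.a ω = ∅) ≤ η

theorem Adm.sublist {μ : Sp k} {Xs : Finset Rep} {ab : Rep → Hyp k → Finset (Fin k)} {η : ℝ}
    {L L' : List (Inp k)} (h : Adm μ Xs ab η L) (hs : L'.Sublist L) : Adm μ Xs ab η L' :=
  ⟨h.inc.sublist hs, fun y hy => h.nb y (hs.subset hy), fun y hy => h.mem y (hs.subset hy),
    fun y hy => h.sub y (hs.subset hy), fun y hy => h.tol y (hs.subset hy)⟩

/-- **The relative game.**  `Claim k j N κ η p M0 M`: for every weighted set of hypotheses and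
every static family of at most `M0` representatives whose functions take only the empty value or
values of size `j`, and are nonempty with weight at least `p`, there is a strategy that colours
properly and with fewer than `M` colours every admissible list of length at most `N` that refutes
hypotheses of total weight less than `κ`. -/
def Claim (k j N : ℕ) (κ η p : ℝ) (M0 M : ℕ) : Prop :=
  ∀ (μ : Sp k) (Xs : Finset Rep) (ab : Rep → Hyp k → Finset (Fin k)),
    Xs.card ≤ M0 →
    (∀ x ∈ Xs, ∀ ω ∈ μ.sp, ab x ω ≠ ∅ → (ab x ω).card = j) →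
    (∀ x ∈ Xs, p ≤ μ.mass (fun ω => ab x ω ≠ ∅)) →
    ∃ f : List (Inp k) → ℕ, ∀ L : List (Inp k), Adm μ Xs ab η L → L.length ≤ N →
      μ.mass (Refuted L) < κ → Good f L M

/-- The relative game when every two representatives agree with weight at least `κ0`. -/
def ClaimPA (k j N : ℕ) (κ η κ0 : ℝ) (M0 M : ℕ) : Prop :=
  ∀ (μ : Sp k) (Xs : Finset Rep) (ab : Rep → Hyp k → Finset (Fin k)),
    Xs.card ≤ M0 →
    (∀ x ∈ Xs, ∀ ω ∈ μ.sp, ab x ω ≠ ∅ → (ab x ω).card = j) →
    (∀ x ∈ Xs, ∀ x' ∈ Xs, κ0 ≤ μ.mass (fun ω => ab x ω = ab x' ω ∧ ab x ω ≠ ∅)) →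
    ∃ f : List (Inp k) → ℕ, ∀ L : List (Inp k), Adm μ Xs ab η L → L.length ≤ N →
      μ.mass (Refuted L) < κ → Good f L M

end Pool.Agent.H45.OC
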