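import Pool.Agent.H45.OC.State

/-!
# Invariants of the family of experts

Module FAM.  All statements are elementary.

* `Valid.ne`: in an increasing list the earlier of two adjacent inputs comes first
  (`List.pairwise_iff_getElem`, or induction), so `Valid.2` applies.
* `alive_of_valid`: a colouring `c` that is valid and consistent with `g` satisfies
  `c u.t ∉ cov g u.t` for every `u ∈ L` (a centre `ct ∈ g` with `u.t ∈ ct.2.1` comes from `z ∈ L`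
  with `u.t ∈ z.nb` and `c z.t = ct.2.2`; use `Valid.ne`), while `c u.t ∈ u.a ω`.
* `FamInv.mono`: for `u ∈ S' \ S` one has `cov g u.t = ∅`, because a centre `ct` of `g` with
  `u.t ∈ ct.2.1` gives `u' ∈ S` with `u'.t = u.t`, so `u = u'`.
* `FamInv.upd`: the children are extensions `ext g z D γ`; `cov (ext g z D γ) v` is
  `cov g v ∪ {γ}` when `v ∈ D.image Inp.t`, so `los` grows by at least the number of the `u ∈ D`
  with `γ ∈ u.a ω`, `γ ∉ cov g u.t`.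
-/

set_option autoImplicit false

open Finset

noncomputable section

namespace Pool.Agent.H45.OC

open Classical

variable {k : ℕ}

theorem mem_cov_ext {g : Expert k} {y : Inp k} {D : Finset (Inp k)} {γ γ' : Fin k} {v : ℕ} :
    γ' ∈ cov (ext g y D γ) v ↔ γ' ∈ cov g v ∨ (γ' = γ ∧ ∃ u ∈ D, u.t = v) := by
  unfold ext
  rw [mem_cov, mem_cov]
  constructor
  · rintro ⟨ct, hct, h1, h2⟩
    rw [List.mem_append, List.mem_singleton] at hct
    rcases hct with hct | rfl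
    · exact Or.inl ⟨ct, hct, h1, h2⟩
    · right
      refine ⟨h2.symm, ?_⟩
      simpa using h1
  · rintro (⟨ct, hct, h1, h2⟩ | ⟨rfl, u, hu, rfl⟩)
    · exact ⟨ct, by simp [hct], h1, h2⟩
    · refine ⟨(y.t, D.image Inp.t, γ'), by simp, ?_, rfl⟩
      exact Finset.mem_image_of_mem _ hu

theorem cov_ext_le {g : Expert k} {y : Inp k} {D : Finset (Inp k)} {γ : Fin k} {v : ℕ} :
    cov g v ⊆ cov (ext g y D γ) v := fun _ h => mem_cov_ext.mpr (Or.inl h)

theorem Valid.ne {L : List (Inp k)} {ω : Hyp k} {c : ℕ → Fin k} (h : Valid L ω c)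
    (hinc : L.Pairwise (fun y y' => y.t < y'.t)) (hnb : ∀ y ∈ L, ∀ i ∈ y.nb, i < y.t)
    {u z : Inp k} (hu : u ∈ L) (hz : z ∈ L) (huz : u.t ∈ z.nb) : c u.t ≠ c z.t := by
  have hlt : u.t < z.t := hnb z hz _ huz
  have h2 := h.2
  rw [List.pairwise_iff_getElem] at h2 hinc
  obtain ⟨i, hi, rfl⟩ := List.mem_iff_getElem.mp hu
  obtain ⟨j, hj, rfl⟩ := List.mem_iff_getElem.mp hz
  rcases lt_trichotomy i j with hij | hij | hij
  · exact h2 i j hi hj hij huz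
  · subst hij
    exact absurd hlt (lt_irrefl _)
  · exact absurd (hinc j i hj hi hij) (by omega)

theorem alive_of_valid {L : List (Inp k)} {ω : Hyp k} {c : ℕ → Fin k} (h : Valid L ω c)
    (hinc : L.Pairwise (fun y y' => y.t < y'.t)) (hnb : ∀ y ∈ L, ∀ i ∈ y.nb, i < y.t)
    {S : Finset (Inp k)} (hS : ∀ u ∈ S, u ∈ L) {g : Expert k}
    (hcen : ∀ ct ∈ g, ∃ z ∈ L, z.t = ct.1 ∧ ∀ i ∈ ct.2.1, i ∈ z.nb)
    (hg : Cons g c) : Alive S ω g := by
  intro u hu hne hsub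
  have h1 : c u.t ∈ u.a ω := h.1 u (hS u hu) hne
  obtain ⟨ct, hct, h2, h3⟩ := mem_cov.mp (hsub h1)
  obtain ⟨z, hz, hzt, hznb⟩ := hcen ct hct
  have h4 := h.ne hinc hnb (hS u hu) hz (hznb _ h2)
  apply h4
  rw [hzt, hg ct hct, h3]

theorem FamInv.mono {μ : Sp k} {L L' : List (Inp k)} {S S' : Finset (Inp k)}
    {fam : Hyp k → Finset (Expert k)} {l : ℝ} (h : FamInv μ L S fam l) (hL : L.Sublist L')
    (hS : S ⊆ S') (hinj : ∀ u ∈ S', ∀ u' ∈ S', u.t = u'.t → u = u') :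
    FamInv μ L' S' fam l := by
  refine ⟨?_, ?_, ?_, ?_⟩
  · intro ω hω c hc
    exact h.cons ω hω c (hc.sublist hL)
  · intro ω hω g hg ct hct
    obtain ⟨z, hz, h1, h2⟩ := h.cen ω hω g hg ct hct
    refine ⟨z, hL.subset hz, h1, fun i hi => ?_⟩
    obtain ⟨h3, u, hu, h4⟩ := h2 i hi
    exact ⟨h3, u, hS hu, h4⟩
  · intro ω hω g hg u hu hne hsub
    by_cases huS : u ∈ S
    · exact h.alive ω hω g hg u huS hne hsub
    · obtain ⟨γ, hγ⟩ := Finset.nonempty_iff_ne_empty.mpr hne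
      obtain ⟨ct, hct, h2, h3⟩ := mem_cov.mp (hsub hγ)
      obtain ⟨z, hz, h4, h5⟩ := h.cen ω hω g hg ct hct
      obtain ⟨_, u', hu', h6⟩ := h5 _ h2
      have := hinj u' (hS hu') u hu h6
      subst this
      exact huS hu'
  · intro ω hω g hg
    refine le_trans (h.loss ω hω g hg) ?_
    unfold los
    exact_mod_cast Finset.sum_le_sum_of_subset hS

theorem los_ext {S D : Finset (Inp k)} (hDS : D ⊆ S) (ω : Hyp k) (g : Expert k) (y : Inp k)
    (γ : Fin k) :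
    los S ω g + (D.filter (fun u => γ ∈ u.a ω ∧ γ ∉ cov g u.t)).card ≤
      los S ω (ext g y D γ) := by
  unfold los
  have h1 : (D.filter (fun u => γ ∈ u.a ω ∧ γ ∉ cov g u.t)).card ≤
      ∑ u ∈ S, (if u ∈ D ∧ γ ∈ u.a ω ∧ γ ∉ cov g u.t then 1 else 0) := by
    rw [← Finset.sum_filter, Finset.sum_const, smul_eq_mul, mul_one]
    apply Finset.card_le_card
    intro u hu
    rw [Finset.mem_filter] at hu ⊢
    exact ⟨hDS hu.1, hu.1, hu.2⟩
  refine le_trans (Nat.add_le_add_left h1 _) ?_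
  rw [← Finset.sum_add_distrib]
  apply Finset.sum_le_sum
  intro u hu
  split_ifs with hc
  · obtain ⟨hD, h2, h3⟩ := hc
    have h4 : γ ∉ u.a ω ∩ cov g u.t := by
      rw [Finset.mem_inter]
      exact fun h => h3 h.2
    rw [← Finset.card_insert_of_notMem h4]
    apply Finset.card_le_card
    intro γ' hγ'
    rw [Finset.mem_insert, Finset.mem_inter] at hγ'
    rw [Finset.mem_inter]
    rcases hγ' with rfl | ⟨h5, h6⟩
    · exact ⟨h2, mem_cov_ext.mpr (Or.inr ⟨rfl, u, hD, rfl⟩)⟩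
    · exact ⟨h5, cov_ext_le h6⟩
  · rw [add_zero]
    exact Finset.card_le_card (Finset.inter_subset_inter (Finset.Subset.refl _) cov_ext_le)

theorem mem_upd {S : Finset (Inp k)} {fam : Hyp k → Finset (Expert k)}
    {Q : Hyp k → Expert k → Prop} {ch : Hyp k → Expert k → Finset (Expert k)} {ω : Hyp k}
    {g : Expert k} :
    g ∈ upd S fam Q ch ω ↔ ((g ∈ fam ω ∧ ¬ Q ω g) ∨ ∃ g' ∈ fam ω, Q ω g' ∧ g ∈ ch ω g') ∧
      Alive S ω g := by
  unfold upd
  rw [Finset.mem_filter, Finset.mem_union, Finset.mem_filter, Finset.mem_biUnion]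
  constructor
  · rintro ⟨h1 | ⟨g', h2, h3⟩, h4⟩
    · exact ⟨Or.inl h1, h4⟩
    · rw [Finset.mem_filter] at h2
      exact ⟨Or.inr ⟨g', h2.1, h2.2, h3⟩, h4⟩
  · rintro ⟨h1 | ⟨g', h2, h3, h5⟩, h4⟩
    · exact ⟨Or.inl h1, h4⟩
    · exact ⟨Or.inr ⟨g', Finset.mem_filter.mpr ⟨h2, h3⟩, h5⟩, h4⟩

theorem FamInv.upd {μ : Sp k} {L : List (Inp k)} {S : Finset (Inp k)}
    {fam : Hyp k → Finset (Expert k)} {l : ℝ} (h : FamInv μ L S fam l)
    (hinc : L.Pairwise (fun y y' => y.t < y'.t)) (hnb : ∀ y ∈ L, ∀ i ∈ y.nb, i < y.t)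
    (hS : ∀ u ∈ S, u ∈ L)
    (Q : Hyp k → Expert k → Prop) (ch : Hyp k → Expert k → Finset (Expert k))
    (hcons : ∀ ω ∈ μ.sp, ∀ g ∈ fam ω, Q ω g → ∀ c, Valid L ω c → Cons g c →
      ∃ g' ∈ ch ω g, Cons g' c)
    (hch : ∀ ω ∈ μ.sp, ∀ g ∈ fam ω, Q ω g → ∀ g' ∈ ch ω g, ∃ z ∈ L, ∃ D ⊆ S, ∃ γ : Fin k,
      g' = ext g z D γ ∧ (∀ u ∈ D, u.t ∈ z.nb) ∧
      l ≤ ((D.filter (fun u => γ ∈ u.a ω ∧ γ ∉ cov g u.t)).card : ℝ)) :
    FamInv μ L S (upd S fam Q ch) l := by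
  have hcen' : ∀ ω ∈ μ.sp, ∀ g, ((g ∈ fam ω ∧ ¬ Q ω g) ∨ ∃ g' ∈ fam ω, Q ω g' ∧ g ∈ ch ω g') →
      ∀ ct ∈ g, ∃ z ∈ L, z.t = ct.1 ∧ ∀ i ∈ ct.2.1, i ∈ z.nb ∧ ∃ u ∈ S, u.t = i := by
    intro ω hω g hg ct hct
    rcases hg with ⟨hg, _⟩ | ⟨g', hg', hQ, hgc⟩
    · exact h.cen ω hω g hg ct hct
    · obtain ⟨z, hz, D, hD, γ, rfl, hnbD, _⟩ := hch ω hω g' hg' hQ g hgc
      unfold ext at hct
      rw [List.mem_append, List.mem_singleton] at hct
      rcases hct with hct | rfl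
      · exact h.cen ω hω g' hg' ct hct
      · refine ⟨z, hz, rfl, fun i hi => ?_⟩
        obtain ⟨u, hu, rfl⟩ := Finset.mem_image.mp hi
        exact ⟨hnbD u hu, u, hD hu, rfl⟩
  refine ⟨?_, ?_, ?_, ?_⟩
  · intro ω hω c hc
    obtain ⟨g, hg, hgc⟩ := h.cons ω hω c hc
    by_cases hQ : Q ω g
    · obtain ⟨g', hg', hg'c⟩ := hcons ω hω g hg hQ c hc hgc
      have hm : (g' ∈ fam ω ∧ ¬ Q ω g') ∨ ∃ g'' ∈ fam ω, Q ω g'' ∧ g' ∈ ch ω g'' :=
        Or.inr ⟨g, hg, hQ, hg'⟩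
      refine ⟨g', mem_upd.mpr ⟨hm, ?_⟩, hg'c⟩
      refine alive_of_valid hc hinc hnb hS (fun ct hct => ?_) hg'c
      obtain ⟨z, hz, h1, h2⟩ := hcen' ω hω g' hm ct hct
      exact ⟨z, hz, h1, fun i hi => (h2 i hi).1⟩
    · have hm : (g ∈ fam ω ∧ ¬ Q ω g) ∨ ∃ g'' ∈ fam ω, Q ω g'' ∧ g ∈ ch ω g'' :=
        Or.inl ⟨hg, hQ⟩
      exact ⟨g, mem_upd.mpr ⟨hm, h.alive ω hω g hg⟩, hgc⟩
  · intro ω hω g hg ct hct
    exact hcen' ω hω g (mem_upd.mp hg).1 ct hct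
  · intro ω hω g hg
    exact (mem_upd.mp hg).2
  · intro ω hω g hg
    rcases (mem_upd.mp hg).1 with ⟨hg, _⟩ | ⟨g', hg', hQ, hgc⟩
    · exact h.loss ω hω g hg
    · obtain ⟨z, hz, D, hD, γ, rfl, hnbD, hl⟩ := hch ω hω g' hg' hQ g hgc
      have h1 := h.loss ω hω g' hg'
      have h2 := los_ext hD ω g' z γ
      have h3 : ((ext g' z D γ).length : ℝ) = g'.length + 1 := by
        simp [ext]
      rw [h3]
      have h4 : (los S ω g' : ℝ) + ((D.filter (fun u => γ ∈ u.a ω ∧ γ ∉ cov g' u.t)).card : ℝ) ≤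
          (los S ω (ext g' z D γ) : ℝ) := by exact_mod_cast h2
      linarith

/-- the length of an expert is bounded by the total number of excluded colours -/
theorem FamInv.len_le {μ : Sp k} {L : List (Inp k)} {S : Finset (Inp k)}
    {fam : Hyp k → Finset (Expert k)} {l Lam : ℝ} {N : ℕ} (h : FamInv μ L S fam l)
    (hl : 0 < l) (hN : S.card ≤ N) (hLam : (k : ℝ) * N ≤ l * Lam) :
    ∀ ω ∈ μ.sp, ∀ g ∈ fam ω, (g.length : ℝ) ≤ Lam := by
  intro ω hω g hg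
  have h1 := h.loss ω hω g hg
  have h2 : los S ω g ≤ k * N := by
    unfold los
    calc ∑ u ∈ S, (u.a ω ∩ cov g u.t).card ≤ ∑ _u ∈ S, k := by
          apply Finset.sum_le_sum
          intro u _
          exact le_trans (Finset.card_le_univ _) (by simp)
      _ = S.card * k := by rw [Finset.sum_const, smul_eq_mul]
      _ ≤ k * N := by rw [mul_comm]; exact Nat.mul_le_mul_left _ hN
  have h3 : (los S ω g : ℝ) ≤ k * N := by exact_mod_cast h2
  have h4 : l * (g.length : ℝ) ≤ l * Lam := by linarith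
  exact le_of_mul_le_mul_left h4 hl

/-- a hypothesis with an empty family is refuted -/
theorem FamInv.mass_empty {μ : Sp k} {L : List (Inp k)} {S : Finset (Inp k)}
    {fam : Hyp k → Finset (Expert k)} {l : ℝ} (h : FamInv μ L S fam l) :
    μ.mass (fun ω => fam ω = ∅) ≤ μ.mass (Refuted L) := by
  apply μ.mass_mono
  rintro ω hω he ⟨c, hc⟩
  obtain ⟨g, hg, _⟩ := h.cons ω hω c hc
  rw [he] at hg
  simp at hg

theorem FamInv.init (μ : Sp k) (l : ℝ) : FamInv μ [] ∅ (fun _ => {[]}) l := by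
  refine ⟨?_, ?_, ?_, ?_⟩
  · intro ω _ c _
    refine ⟨[], by simp, ?_⟩
    intro ct hct
    simp at hct
  · intro ω _ g hg ct hct
    rw [Finset.mem_singleton] at hg
    subst hg
    simp at hct
  · intro ω _ g _ u hu
    simp at hu
  · intro ω _ g hg
    rw [Finset.mem_singleton] at hg
    subst hg
    simp

end Pool.Agent.H45.OC
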