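import Pool.Agent.H45.OC.State
import Pool.Agent.H45.OC.Fam

/-!
# The children in the two kinds of failures

Module FAIL.  Throughout `w0 * (2 k (N1 + 1)) ≤ 1`.

* `gam_loss`: `γ ∈ y.a ω` and `γ ∉ Gam` mean exactly that at least `c |Dpp|` of the `u ∈ Dpp`
  satisfy `γ ∉ cov g u.t`; for these `γ ∈ y.a ω = u.a ω`, and `|Dpp| ≥ δ |D| ≥ δ r` as `Big`.
* `chOne`: at most `k` children, each of weight `w0 * w0 ^ |g|`.
* `chTwo`: at most `k * (N1 + 1)` children.  On `Act` one has `Big`, `z.a ω = v.a ω` and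
  `Gam ⊆ v.a ω ∩ cov g v.t = subA`, so a colour of `z.a ω \ subA` is not in `Gam`: `gam_loss`.
* `chTwo_cons`: `c` is valid for `L` under `ω` and consistent with `g`, but `subList P m es` is
  refuted under `g :: ω`, so `c` is not valid for `subList P m es` under `g :: ω`.  The second
  clause of `Valid` holds for `subList P m es`, since its ids and neighbourhoods are those of
  `es.map Ent.y`, a sublist of `L`.  So there is `q ∈ es` with `subA .. q (g :: ω) ≠ ∅` (hence
  `Act`) and `c q.y.t ∉ subA .. q (g :: ω)`; moreover `q.y.a ω ≠ ∅`, so `c q.y.t ∈ q.y.a ω`.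
  The child is `ext g q.y q.D (c q.y.t)`.
-/

set_option autoImplicit false

open Finset

noncomputable section

namespace Pool.Agent.H45.OC

open Classical

variable {k : ℕ}

theorem gam_loss {c δ : ℝ} (hc : 0 < c) {r : ℕ} {D : Finset (Inp k)} {y : Inp k} {ω : Hyp k}
    {g : Expert k} {γ : Fin k} (hδ : 0 < δ) (hbig : Big δ D y ω) (hr : r ≤ D.card)
    (hγ : γ ∈ y.a ω) (hG : γ ∉ Gam c D y ω g) :
    c * δ * r ≤ ((D.filter (fun u => γ ∈ u.a ω ∧ γ ∉ cov g u.t)).card : ℝ) := by
  unfold Gam at hG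
  rw [Finset.mem_filter, not_and, not_lt] at hG
  have h1 := hG hγ
  have h2 := hbig.2
  have h3 : (((Dpp D y ω).filter (fun u => γ ∉ cov g u.t)).card : ℝ) ≤
      ((D.filter (fun u => γ ∈ u.a ω ∧ γ ∉ cov g u.t)).card : ℝ) := by
    have : ((Dpp D y ω).filter (fun u => γ ∉ cov g u.t)).card ≤
        (D.filter (fun u => γ ∈ u.a ω ∧ γ ∉ cov g u.t)).card := by
      apply Finset.card_le_card
      intro u hu
      unfold Dpp at hu
      rw [Finset.mem_filter, Finset.mem_filter] at hu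
      rw [Finset.mem_filter]
      exact ⟨hu.1.1, by rw [hu.1.2]; exact hγ, hu.2⟩
    exact_mod_cast this
  have h4 : (r : ℝ) ≤ D.card := by exact_mod_cast hr
  calc c * δ * r = c * (δ * r) := by ring
    _ ≤ c * (δ * D.card) := by
        apply mul_le_mul_of_nonneg_left _ hc.le
        exact mul_le_mul_of_nonneg_left h4 hδ.le
    _ ≤ c * ((Dpp D y ω).card : ℝ) := mul_le_mul_of_nonneg_left h2 hc.le
    _ ≤ _ := h1
    _ ≤ _ := h3

theorem length_ext (g : Expert k) (y : Inp k) (D : Finset (Inp k)) (γ : Fin k) :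
    (ext g y D γ).length = g.length + 1 := by
  simp [ext]

/-- weight of a set of one step extensions -/
theorem weight_ext {w0 : ℝ} (hw : 0 < w0) (g : Expert k) (T : Finset (Expert k)) (n : ℕ)
    (hT : ∀ g' ∈ T, g'.length = g.length + 1) (hn : T.card ≤ n) (hn2 : 2 * (n : ℝ) * w0 ≤ 1) :
    ∑ g' ∈ T, w0 ^ g'.length ≤ w0 ^ g.length / 2 := by
  have h1 : ∑ g' ∈ T, w0 ^ g'.length = (T.card : ℝ) * w0 ^ (g.length + 1) := by
    rw [Finset.sum_congr rfl (g := fun _ => w0 ^ (g.length + 1)) (fun g' hg' => by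
      rw [hT g' hg']), Finset.sum_const, nsmul_eq_mul]
  have h2 : (T.card : ℝ) ≤ n := by exact_mod_cast hn
  have h3 : 0 < w0 ^ g.length := by positivity
  rw [h1, pow_succ]
  have h4 : (T.card : ℝ) * w0 ≤ 1 / 2 := by nlinarith
  calc (T.card : ℝ) * (w0 ^ g.length * w0) = ((T.card : ℝ) * w0) * w0 ^ g.length := by ring
    _ ≤ 1 / 2 * w0 ^ g.length := mul_le_mul_of_nonneg_right h4 h3.le
    _ = _ := by ring

/-- weight of the children in a failure of the first kind -/
theorem chOne_weight {w0 : ℝ} {N1 : ℕ} (hw : 0 < w0) (hw2 : w0 * (2 * k * (N1 + 1)) ≤ 1)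
    (D : Finset (Inp k)) (y : Inp k) (ω : Hyp k) (g : Expert k) :
    ∑ g' ∈ chOne D y ω g, w0 ^ g'.length ≤ w0 ^ g.length / 2 := by
  apply weight_ext hw g _ k
  · intro g' hg'
    unfold chOne at hg'
    obtain ⟨γ, _, rfl⟩ := Finset.mem_image.mp hg'
    exact length_ext _ _ _ _
  · unfold chOne
    refine le_trans Finset.card_image_le ?_
    exact le_trans (Finset.card_le_univ _) (by simp)
  · have h1 : (0 : ℝ) ≤ N1 := Nat.cast_nonneg _
    have h2 : (0 : ℝ) ≤ k := Nat.cast_nonneg _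
    have h3 : 0 ≤ (k : ℝ) * N1 * w0 := by positivity
    nlinarith

/-- a consistent child in a failure of the first kind -/
theorem chOne_cons {L : List (Inp k)} {y : Inp k} {ω : Hyp k} {c : ℕ → Fin k}
    (hy : y ∈ L) (hc : Valid L ω c) (ha : y.a ω ≠ ∅) {g : Expert k} (hg : Cons g c)
    (D : Finset (Inp k)) : ∃ g' ∈ chOne D y ω g, Cons g' c := by
  refine ⟨ext g y D (c y.t), ?_, ?_⟩
  · unfold chOne
    exact Finset.mem_image_of_mem _ (hc.1 y hy ha)
  · intro ct hct
    unfold ext at hct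
    rw [List.mem_append, List.mem_singleton] at hct
    rcases hct with hct | rfl
    · exact hg ct hct
    · rfl

/-- the new family after a failure of the first kind -/
theorem famInv_one (P : Par k) {η κ κ0 : ℝ} {N M0 : ℕ} (hP : ParOK P η κ κ0 N M0)
    {fam : Hyp k → Finset (Expert k)} {L : List (Inp k)} {y : Inp k} {S : Finset (Inp k)}
    (hadm : Adm P.μ P.Xs P.ab η (L ++ [y])) (hS : ∀ u ∈ S, u ∈ L)
    (hfam : FamInv P.μ (L ++ [y]) S fam (P.c * P.δ * P.r)) (hr : P.r ≤ (nbS S y).card) :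
    FamInv P.μ (L ++ [y]) S
      (upd S fam (Bone P.c P.δ (nbS S y) y) (chOne (nbS S y) y)) (P.c * P.δ * P.r) := by
  refine hfam.upd hadm.inc hadm.nb (fun u hu => by simp [hS u hu]) _ _ ?_ ?_
  · intro ω _ g _ hQ c hc hg
    exact chOne_cons (by simp) hc hQ.1.1 hg _
  · intro ω _ g _ hQ g' hg'
    unfold chOne at hg'
    obtain ⟨γ, hγ, rfl⟩ := Finset.mem_image.mp hg'
    refine ⟨y, by simp, nbS S y, Finset.filter_subset _ _, γ, rfl, ?_, ?_⟩
    · intro u hu
      exact (mem_nbS.mp hu).2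
    · apply gam_loss hP.hc hP.hδ hQ.1 hr hγ
      rw [hQ.2]
      simp

/-- weight of the children in a failure of the second kind -/
theorem chTwo_weight {w0 : ℝ} {N1 : ℕ} (hw : 0 < w0) (hw2 : w0 * (2 * k * (N1 + 1)) ≤ 1)
    (c δ : ℝ) (m : ℕ) (es : List (Ent k)) (hes : es.length ≤ N1 + 1) (ω : Hyp k)
    (g : Expert k) : ∑ g' ∈ chTwo c δ m es ω g, w0 ^ g'.length ≤ w0 ^ g.length / 2 := by
  apply weight_ext hw g _ ((N1 + 1) * k)
  · intro g' hg'
    unfold chTwo at hg'
    obtain ⟨q, _, hg'⟩ := Finset.mem_biUnion.mp hg'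
    obtain ⟨γ, _, rfl⟩ := Finset.mem_image.mp hg'
    exact length_ext _ _ _ _
  · unfold chTwo
    refine le_trans (Finset.card_biUnion_le_card_mul _ _ k ?_) ?_
    · intro q _
      refine le_trans Finset.card_image_le ?_
      exact le_trans (Finset.card_le_univ _) (by simp)
    · apply Nat.mul_le_mul_right
      refine le_trans (Finset.card_filter_le _ _) ?_
      exact le_trans (List.toFinset_card_le _) hes
  · push_cast
    linarith

/-- a consistent child in a failure of the second kind -/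
theorem chTwo_cons (P : Par k) (m : ℕ) {L : List (Inp k)} {es : List (Ent k)}
    (hes : (es.map Ent.y).Sublist L) {ω : Hyp k} {c : ℕ → Fin k} (hc : Valid L ω c)
    {g : Expert k} (hg : Cons g c) (href : Refuted (subList P m es) (g :: ω)) :
    ∃ g' ∈ chTwo P.c P.δ m es ω g, Cons g' c := by
  have h2 : (subList P m es).Pairwise (fun y y' => y.t ∈ y'.nb → c y.t ≠ c y'.t) := by
    have h3 := hc.2.sublist hes
    unfold subList
    rw [List.pairwise_map] at h3 ⊢
    exact h3
  by_contra hcon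
  apply href
  refine ⟨c, ?_, h2⟩
  intro y' hy' hne
  unfold subList at hy'
  obtain ⟨q, hq, rfl⟩ := List.mem_map.mp hy'
  by_contra hnot
  apply hcon
  have hact : Act P.c P.δ m q ω g := by
    by_contra hna
    apply hne
    simp [subInp, subA, hna]
  have hqa : q.y.a ω ≠ ∅ := hact.1.1.1
  have hqL : q.y ∈ L := hes.subset (List.mem_map_of_mem hq)
  refine ⟨ext g q.y q.D (c q.y.t), ?_, ?_⟩
  · unfold chTwo
    rw [Finset.mem_biUnion]
    refine ⟨q, ?_, ?_⟩
    · rw [Finset.mem_filter, List.mem_toFinset]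
      exact ⟨hq, hact⟩
    · apply Finset.mem_image_of_mem
      rw [Finset.mem_sdiff]
      exact ⟨hc.1 _ hqL hqa, hnot⟩
  · intro ct hct
    unfold ext at hct
    rw [List.mem_append, List.mem_singleton] at hct
    rcases hct with hct | rfl
    · exact hg ct hct
    · rfl

/-- the new family after a failure of the second kind -/
theorem famInv_two (P : Par k) {η κ κ0 : ℝ} {N M0 : ℕ} (hP : ParOK P η κ κ0 N M0)
    {fam : Hyp k → Finset (Expert k)} {L : List (Inp k)} {S : Finset (Inp k)}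
    (hadm : Adm P.μ P.Xs P.ab η L) (hS : ∀ u ∈ S, u ∈ L)
    (hfam : FamInv P.μ L S fam (P.c * P.δ * P.r)) (m : ℕ) {es : List (Ent k)}
    (hes : (es.map Ent.y).Sublist L)
    (hent : ∀ q ∈ es, q.D ⊆ S ∧ P.r ≤ q.D.card ∧ (∀ u ∈ q.D, u.t ∈ q.y.nb) ∧ q.v ∈ q.D) :
    FamInv P.μ L S
      (upd S fam (fun ω g => Refuted (subList P m es) (g :: ω)) (chTwo P.c P.δ m es))
      (P.c * P.δ * P.r) := by
  refine hfam.upd hadm.inc hadm.nb hS _ _ ?_ ?_
  · intro ω _ g _ hQ c hc hg
    exact chTwo_cons P m hes hc hg hQ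
  · intro ω _ g _ hQ g' hg'
    unfold chTwo at hg'
    obtain ⟨q, hq, hg'⟩ := Finset.mem_biUnion.mp hg'
    obtain ⟨γ, hγ, rfl⟩ := Finset.mem_image.mp hg'
    rw [Finset.mem_filter, List.mem_toFinset] at hq
    obtain ⟨hqe, hact⟩ := hq
    obtain ⟨h1, h2, h3, h4⟩ := hent q hqe
    rw [Finset.mem_sdiff] at hγ
    refine ⟨q.y, hes.subset (List.mem_map_of_mem hqe), q.D, h1, γ, rfl, h3, ?_⟩
    apply gam_loss hP.hc hP.hδ hact.1.1 h2 hγ.1
    intro hG
    apply hγ.2
    simp only [subA, hact, if_true]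
    rw [Finset.mem_inter]
    refine ⟨?_, hact.1.2.2.2 hG⟩
    rw [hact.1.2.1]
    exact hγ.1

end Pool.Agent.H45.OC
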