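import Pool.Agent.H45.OC.Defs

/-!
# The graph of a list of inputs, and the statement of the high odd girth lemma
-/

set_option autoImplicit false

open Finset

noncomputable section

namespace Pool.Agent.H45.OC

open Classical

variable {k : ℕ}

/-- the graph on the ids of the list `L` -/
def gr (L : List (Inp k)) : SimpleGraph ℕ where
  Adj i j := i ≠ j ∧ ∃ y ∈ L, ∃ y' ∈ L, y.t = i ∧ y'.t = j ∧ (i ∈ y'.nb ∨ j ∈ y.nb)
  symm := ⟨by
    rintro i j ⟨hij, y, hy, y', hy', h1, h2, h3⟩
    exact ⟨hij.symm, y', hy', y, hy, h2, h1, h3.symm⟩⟩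
  loopless := ⟨fun i h => h.1 rfl⟩

/-- no closed walk of odd length at most `C` -/
def NoShortOdd (L : List (Inp k)) (C : ℕ) : Prop :=
  ∀ (v : ℕ) (w : (gr L).Walk v v), w.length ≤ C → ¬ Odd w.length

/-- the radii of the high odd girth algorithm -/
def hogR : ℕ → ℕ
  | 0 => 0
  | i + 1 => 7 * hogR i + 1

end Pool.Agent.H45.OC
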