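import Pool.Agent.H45.OC.HogStep
import Pool.Agent.H45.OC.Base

/-!
# High odd girth: the colouring lemma

Module HOG.  `hexec_inv` by induction on the reversed list (`hinv_step`; the hypotheses pass to
prefixes, for `NoShortOdd` by `gr_mono`).  `hog`: the colour is `lev * a ^ 2 + col`; inputs of
different levels have different colours as `col < a ^ 2`; for the same level use `nnedge` and
`diffcol`.
-/

set_option autoImplicit false

open Finset

noncomputable section

namespace Pool.Agent.H45.OC

open Classical

variable {k : ℕ}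

theorem hexec_concat (l a : ℕ) (L : List (Inp k)) (y : Inp k) :
    hexec l a (L ++ [y]) = hstep l a (hexec l a L) y := by
  unfold hexec
  rw [List.foldl_append, List.foldl_cons, List.foldl_nil]

theorem hexec_map (l a : ℕ) (L : List (Inp k)) : (hexec l a L).map HRec.y = L := by
  induction L using List.reverseRecOn with
  | nil => rfl
  | append_singleton L y ih =>
    rw [hexec_concat]
    unfold hstep
    simp only [List.map_append, List.map_cons, List.map_nil]
    rw [ih]

theorem hog_noShortOdd_prefix {L : List (Inp k)} {y : Inp k} {C : ℕ}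
    (h : NoShortOdd (L ++ [y]) C) : NoShortOdd L C := by
  intro v w hw hodd
  have hsub : L ⊆ L ++ [y] := List.subset_append_left _ _
  have hlen : (w.mapLe (gr_mono hsub)).length = w.length := by
    simp [SimpleGraph.Walk.mapLe]
  exact h v (w.mapLe (gr_mono hsub)) (by rw [hlen]; exact hw) (by rw [hlen]; exact hodd)

theorem hexec_inv {l a N : ℕ} (hl : 1 ≤ l) (ha : N < a ^ l) (L : List (Inp k))
    (hinc : L.Pairwise (fun y y' => y.t < y'.t)) (hnb : ∀ u ∈ L, ∀ i ∈ u.nb, i < u.t)
    (hN : L.length ≤ N) (hodd : NoShortOdd L (4 * hogR (l - 1) + 1)) :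
    HInv l a (hexec l a L) := by
  induction L using List.reverseRecOn with
  | nil => exact hinv_nil l a
  | append_singleton L y ih =>
    have hlen : L.length ≤ N := by
      rw [List.length_append] at hN
      omega
    have hH := ih (List.pairwise_append.1 hinc).1 (fun u hu => hnb u (List.mem_append_left _ hu))
      hlen (hog_noShortOdd_prefix hodd)
    rw [hexec_concat]
    refine hinv_step hl ha hH ?_ ?_ ?_ ?_
    · rw [hexec_map]; exact hinc
    · rw [hexec_map]; exact hnb
    · rw [hexec_map]; exact hN
    · rw [hexec_map]; exact hodd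

theorem run_hstrat (l a : ℕ) (L : List (Inp k)) :
    run (hstrat l a) L = (hexec l a L).map (fun h => (h.y, h.lev * a ^ 2 + h.col)) := by
  induction L using List.reverseRecOn with
  | nil => rfl
  | append_singleton L y ih =>
    rw [run_concat, ih]
    have h1 : hexec l a (L ++ [y]) = hstep l a (hexec l a L) y := hexec_concat l a L y
    have h2 : ∃ r : HRec k, hexec l a (L ++ [y]) = hexec l a L ++ [r] ∧ r.y = y := by
      rw [h1]
      exact ⟨_, rfl, rfl⟩
    obtain ⟨r, hr, hry⟩ := h2
    have h3 : hstrat l a (L ++ [y]) = r.lev * a ^ 2 + r.col := by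
      unfold hstrat
      rw [hr, List.getLast?_concat]
    rw [h3, hr, List.map_append, List.map_cons, List.map_nil, hry]

/-- **High odd girth lemma.** -/
theorem hog (k l a N : ℕ) (hl : 1 ≤ l) (ha : N < a ^ l) : HogFor k l a N := by
  refine ⟨hstrat l a, fun L hinc hnb hN hodd => ?_⟩
  have hI := hexec_inv hl ha L hinc hnb hN hodd
  unfold Good
  rw [run_hstrat]
  constructor
  · intro q hq
    obtain ⟨h, hh, rfl⟩ := List.mem_map.1 hq
    have h1 := hI.lev h hh
    have h2 := hI.colt h hh
    calc h.lev * a ^ 2 + h.col < h.lev * a ^ 2 + a ^ 2 := Nat.add_lt_add_left h2 _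
      _ = (h.lev + 1) * a ^ 2 := by ring
      _ ≤ l * a ^ 2 := Nat.mul_le_mul_right _ h1
  · rw [List.pairwise_map]
    have hpw := hI.nnedge.and hI.diffcol
    refine hpw.imp_of_mem ?_
    intro u h hu hh huh hut heq
    simp only at hut heq
    have hcu := hI.colt u hu
    have hch := hI.colt h hh
    have ha2 : 0 < a ^ 2 := by omega
    have hlev : u.lev = h.lev := by
      have e1 : (u.lev * a ^ 2 + u.col) / a ^ 2 = u.lev := by
        rw [Nat.mul_comm, Nat.mul_add_div ha2, Nat.div_eq_of_lt hcu, add_zero]
      have e2 : (h.lev * a ^ 2 + h.col) / a ^ 2 = h.lev := by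
        rw [Nat.mul_comm, Nat.mul_add_div ha2, Nat.div_eq_of_lt hch, add_zero]
      rw [← e1, heq, e2]
    have h1 := huh.1 hlev hut
    have h2 := huh.2 hlev h1
    rw [hlev] at heq
    exact h2 (by omega)

end Pool.Agent.H45.OC
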