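import Pool.Agent.H45.OC.HogDefs

/-!
# High odd girth: a free colour

Module HOGCOL.  In one cluster `(i, q)` the number of colours used is at most `a`: the colour is
determined by the set `nn` (`samecol`), the sets `nn` of the cluster form a chain (`nnmono`), so
such a set is determined by its size, which is less than `a` (`nncard`).  So the clusters of `nn`
use at most `(a - 1) * a < a ^ 2` colours together.
-/

set_option autoImplicit false

open Finset

noncomputable section

namespace Pool.Agent.H45.OC

open Classical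

variable {k : ℕ}

theorem hogCol_card_image_le {α β γ : Type} [DecidableEq β] [DecidableEq γ] (S : Finset α) (f : α → β) (g : α → γ)
    (h : ∀ x ∈ S, ∀ y ∈ S, f x = f y → g x = g y) :
    (S.image g).card ≤ (S.image f).card := by
  rcases S.eq_empty_or_nonempty with rfl | ⟨x0, hx0⟩
  · simp
  · have hsub : S.image g ⊆ (S.image f).image
        (fun c => g (if hc : ∃ x ∈ S, f x = c then hc.choose else x0)) := by
      intro z hz
      obtain ⟨x, hx, rfl⟩ := Finset.mem_image.1 hz
      rw [Finset.mem_image]
      refine ⟨f x, Finset.mem_image_of_mem _ hx, ?_⟩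
      have hc : ∃ x' ∈ S, f x' = f x := ⟨x, hx, rfl⟩
      rw [dif_pos hc]
      exact h _ hc.choose_spec.1 _ hx hc.choose_spec.2
    exact (Finset.card_le_card hsub).trans Finset.card_image_le

/-- the number of colours used in one cluster is at most `a` -/
theorem card_colours_cluster (H : List (HRec k)) (a i q : ℕ)
    (nncard : ∀ h ∈ H, h.nn.card < a)
    (nnmono : H.Pairwise (fun u h => u.lev = h.lev → u.cen = h.cen → u.nn ⊆ h.nn))
    (samecol : ∀ h ∈ H, ∀ h' ∈ H, h.lev = h'.lev → h.cen = h'.cen → h.nn = h'.nn →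
      h.col = h'.col) :
    ((H.toFinset.filter (fun h => h.lev = i ∧ h.cen = q)).image HRec.col).card ≤ a := by
  refine (hogCol_card_image_le _ (fun h : HRec k => h.nn.card) HRec.col ?_).trans ?_
  · intro h hh h' hh' hcard
    rw [Finset.mem_filter, List.mem_toFinset] at hh hh'
    obtain ⟨hH, hi, hq⟩ := hh
    obtain ⟨hH', hi', hq'⟩ := hh'
    refine samecol h hH h' hH' (hi.trans hi'.symm) (hq.trans hq'.symm) ?_
    rw [List.pairwise_iff_getElem] at nnmono
    obtain ⟨b, hb, rfl⟩ := List.mem_iff_getElem.1 hH
    obtain ⟨c, hc, rfl⟩ := List.mem_iff_getElem.1 hH'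
    rcases lt_trichotomy b c with h1 | h1 | h1
    · have h2 := nnmono b c hb hc h1 (hi.trans hi'.symm) (hq.trans hq'.symm)
      exact Finset.eq_of_subset_of_card_le h2 hcard.ge
    · subst h1
      rfl
    · have h2 := nnmono c b hc hb h1 (hi'.trans hi.symm) (hq'.trans hq.symm)
      exact (Finset.eq_of_subset_of_card_le h2 hcard.le).symm
  · calc _ ≤ (Finset.range a).card := by
          refine Finset.card_le_card fun c hc => ?_
          obtain ⟨h, hh, rfl⟩ := Finset.mem_image.1 hc
          rw [Finset.mem_filter, List.mem_toFinset] at hh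
          rw [Finset.mem_range]
          exact nncard h hh.1
      _ = a := Finset.card_range a

theorem exists_fresh (H : List (HRec k)) (a i : ℕ) (nn : Finset ℕ) (hnn : nn.card < a)
    (nncard : ∀ h ∈ H, h.nn.card < a)
    (nnmono : H.Pairwise (fun u h => u.lev = h.lev → u.cen = h.cen → u.nn ⊆ h.nn))
    (samecol : ∀ h ∈ H, ∀ h' ∈ H, h.lev = h'.lev → h.cen = h'.cen → h.nn = h'.nn →
      h.col = h'.col) :
    ∃ n < a ^ 2, HFresh H i nn n := by
  set U : Finset ℕ := nn.biUnion (fun q =>
    (H.toFinset.filter (fun h => h.lev = i ∧ h.cen = q)).image HRec.col) with hU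
  have hcard : U.card < (Finset.range (a ^ 2)).card := by
    rw [Finset.card_range]
    calc U.card ≤ ∑ q ∈ nn,
          ((H.toFinset.filter (fun h => h.lev = i ∧ h.cen = q)).image HRec.col).card :=
          Finset.card_biUnion_le
      _ ≤ ∑ _q ∈ nn, a := Finset.sum_le_sum fun q _ =>
          card_colours_cluster H a i q nncard nnmono samecol
      _ = nn.card * a := by rw [Finset.sum_const, smul_eq_mul]
      _ < a * a := Nat.mul_lt_mul_of_pos_right hnn (by omega)
      _ = a ^ 2 := by ring
  obtain ⟨n, hn, hnU⟩ := Finset.exists_mem_notMem_of_card_lt_card hcard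
  refine ⟨n, Finset.mem_range.1 hn, ?_⟩
  intro u hu hui hunn hcol
  apply hnU
  rw [hU, Finset.mem_biUnion]
  refine ⟨u.cen, hunn, ?_⟩
  rw [Finset.mem_image]
  exact ⟨u, Finset.mem_filter.2 ⟨List.mem_toFinset.2 hu, hui, rfl⟩, hcol⟩

end Pool.Agent.H45.OC
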