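import Pool.Agent.H45.OC.Graph

/-!
# On-line colouring of graphs with high odd girth: definitions

The algorithm.  When the input `y` arrives (list `L`, ending with `y`), let
`reach L R v` be the set of ids reachable from `v` by a walk of length exactly `R` in `gr L`.  The
level of `y` is the largest `i < l` with `a ^ i ≤ #(reach L (hogR i) y.t)`.  At each level there
are clusters, given by a centre (an id) and the ball `reach .. (hogR i) centre` at the time of
arrival of the centre; `y` joins a cluster of its level whose ball meets `reach L (hogR i) y.t`,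
or becomes the centre of a new cluster.  `nn` is the set of (centres of) the clusters of the same
level adjacent to the cluster of `y`, including the edges of `y`.  The colour is that of an earlier
record of the same cluster with the same `nn`, if there is one, and otherwise the least number
not used as a colour in the clusters of `nn`.
-/

set_option autoImplicit false

open Finset

noncomputable section

namespace Pool.Agent.H45.OC

open Classical

variable {k : ℕ}

/-- ids reachable from `v` by a walk of length exactly `R` -/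
def reach (L : List (Inp k)) (R : ℕ) (v : ℕ) : Finset ℕ :=
  (L.map Inp.t).toFinset.filter (fun z => ∃ w : (gr L).Walk v z, w.length = R)

/-- the record of an input -/
structure HRec (k : ℕ) where
  y : Inp k
  lev : ℕ
  cen : ℕ
  ball : Finset ℕ
  nn : Finset ℕ
  col : ℕ

/-- the level of an input -/
def hlev (l a : ℕ) (L : List (Inp k)) (y : Inp k) : ℕ :=
  Nat.findGreatest (fun i => a ^ i ≤ (reach L (hogR i) y.t).card) (l - 1)

/-- adjacency of the clusters `(i, p)` and `(i, q)`: there is a pair of adjacent inputs -/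
def ClAdj (T : List (Inp k × ℕ × ℕ)) (i p q : ℕ) : Prop :=
  ∃ u ∈ T, ∃ z ∈ T, u.2.1 = i ∧ u.2.2 = p ∧ z.2.1 = i ∧ z.2.2 = q ∧
    (u.1.t ∈ z.1.nb ∨ z.1.t ∈ u.1.nb)

/-- input, level, centre of the records -/
def trip (H : List (HRec k)) : List (Inp k × ℕ × ℕ) := H.map (fun h => (h.y, h.lev, h.cen))

/-- the adjacent clusters -/
def hnn (T : List (Inp k × ℕ × ℕ)) (i p : ℕ) : Finset ℕ :=
  (T.map (fun u => u.2.2)).toFinset.filter (fun q => q ≠ p ∧ ClAdj T i p q)

/-- the centre and the ball of the cluster of `y`, at the level `i` -/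
def hcl (H : List (HRec k)) (i : ℕ) (ball : Finset ℕ) (t : ℕ) : ℕ × Finset ℕ :=
  if h : ∃ u ∈ H, u.lev = i ∧ (u.ball ∩ ball).Nonempty then (h.choose.cen, h.choose.ball)
  else (t, ball)

/-- `n` is not the colour of a record of the level `i` in one of the clusters of `nn` -/
def HFresh (H : List (HRec k)) (i : ℕ) (nn : Finset ℕ) (n : ℕ) : Prop :=
  ∀ u ∈ H, u.lev = i → u.cen ∈ nn → u.col ≠ n

/-- the colour -/
def hcol (H : List (HRec k)) (i cen : ℕ) (nn : Finset ℕ) : ℕ :=
  if h : ∃ u ∈ H, u.lev = i ∧ u.cen = cen ∧ u.nn = nn then h.choose.col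
  else sInf {n | HFresh H i nn n}

/-- one step of the algorithm -/
def hstep (l a : ℕ) (H : List (HRec k)) (y : Inp k) : List (HRec k) :=
  let L := H.map HRec.y ++ [y]
  let i := hlev l a L y
  let cb := hcl H i (reach L (hogR i) y.t) y.t
  let nn := hnn (trip H ++ [(y, i, cb.1)]) i cb.1
  H ++ [⟨y, i, cb.1, cb.2, nn, hcol H i cb.1 nn⟩]

/-- all records -/
def hexec (l a : ℕ) (L : List (Inp k)) : List (HRec k) := L.foldl (hstep l a) []

/-- the strategy -/
def hstrat (l a : ℕ) (L : List (Inp k)) : ℕ :=
  match (hexec l a L).getLast? with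
  | some h => h.lev * a ^ 2 + h.col
  | none => 0

/-- the invariant -/
structure HInv (l a : ℕ) (H : List (HRec k)) : Prop where
  lev : ∀ h ∈ H, h.lev < l
  cenmem : ∀ h ∈ H, ∃ u ∈ H, u.y.t = h.cen
  size : ∀ h ∈ H, a ^ h.lev ≤ h.ball.card
  /-- the ball of `h` is reachable from its centre -/
  ballreach : ∀ h ∈ H, h.ball ⊆ reach (H.map HRec.y) (hogR h.lev) h.cen
  /-- the input of `h` reaches the ball of its cluster -/
  meet : ∀ h ∈ H, (h.ball ∩ reach (H.map HRec.y) (hogR h.lev) h.y.t).Nonempty
  same : ∀ h ∈ H, ∀ h' ∈ H, h.lev = h'.lev → h.cen = h'.cen → h.ball = h'.ball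
  disj : ∀ h ∈ H, ∀ h' ∈ H, h.lev = h'.lev → h.cen ≠ h'.cen → Disjoint h.ball h'.ball
  /-- clusters in `nn` are adjacent -/
  nnadj : ∀ h ∈ H, ∀ q ∈ h.nn, q ≠ h.cen ∧ ClAdj (trip H) h.lev h.cen q
  nncard : ∀ h ∈ H, h.nn.card < a
  /-- the sets `nn` increase -/
  nnmono : H.Pairwise (fun u h => u.lev = h.lev → u.cen = h.cen → u.nn ⊆ h.nn)
  /-- symmetry of the adjacency of clusters -/
  nnsymm : H.Pairwise (fun u h => u.lev = h.lev → h.cen ∈ u.nn → u.cen ∈ h.nn)
  /-- adjacent inputs of the same level are in different, adjacent clusters -/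
  nnedge : H.Pairwise (fun u h => u.lev = h.lev → u.y.t ∈ h.y.nb → u.cen ∈ h.nn)
  /-- records of one cluster with the same `nn` have the same colour -/
  samecol : ∀ h ∈ H, ∀ h' ∈ H, h.lev = h'.lev → h.cen = h'.cen → h.nn = h'.nn → h.col = h'.col
  /-- the colours of adjacent clusters -/
  diffcol : H.Pairwise (fun u h => u.lev = h.lev → u.cen ∈ h.nn → u.col ≠ h.col)
  colt : ∀ h ∈ H, h.col < a ^ 2

end Pool.Agent.H45.OC
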