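import Pool.Agent.H45.OC.HogDefs

/-!
# High odd girth: walks

Module HOGWALK.  Facts about `reach` (walks of length exactly `R` in the graph of the list).
`Walk.append`, `Walk.reverse`, `Walk.cons` and `SimpleGraph.Walk.mapLe` (for `gr L ≤ gr L'` when
`L ⊆ L'`).
-/

set_option autoImplicit false

open Finset

noncomputable section

namespace Pool.Agent.H45.OC

open Classical

variable {k : ℕ}

theorem gr_mono {L L' : List (Inp k)} (h : L ⊆ L') : gr L ≤ gr L' := by
  rintro i j ⟨hij, y, hy, y', hy', h1, h2, h3⟩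
  exact ⟨hij, y, h hy, y', h hy', h1, h2, h3⟩

theorem mem_reach {L : List (Inp k)} {R v z : ℕ} :
    z ∈ reach L R v ↔ (∃ y ∈ L, y.t = z) ∧ ∃ w : (gr L).Walk v z, w.length = R := by
  unfold reach
  rw [Finset.mem_filter, List.mem_toFinset, List.mem_map]

theorem reach_mono {L L' : List (Inp k)} (h : L ⊆ L') (R v : ℕ) :
    reach L R v ⊆ reach L' R v := by
  intro z hz
  rw [mem_reach] at hz ⊢
  obtain ⟨⟨y, hy, hyz⟩, w, hw⟩ := hz
  refine ⟨⟨y, h hy, hyz⟩, w.mapLe (gr_mono h), ?_⟩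
  rw [← hw]
  simp [SimpleGraph.Walk.mapLe]

theorem reach_zero {L : List (Inp k)} {y : Inp k} (hy : y ∈ L) : reach L 0 y.t = {y.t} := by
  ext z
  rw [mem_reach, Finset.mem_singleton]
  constructor
  · rintro ⟨-, w, hw⟩
    exact (SimpleGraph.Walk.eq_of_length_eq_zero hw).symm
  · rintro rfl
    exact ⟨⟨y, hy, rfl⟩, SimpleGraph.Walk.nil, rfl⟩

theorem reach_trans {L : List (Inp k)} {R R' v z z' : ℕ} (h : z ∈ reach L R v)
    (h' : z' ∈ reach L R' z) : z' ∈ reach L (R + R') v := by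
  rw [mem_reach] at h h' ⊢
  obtain ⟨-, w, hw⟩ := h
  obtain ⟨hz', w', hw'⟩ := h'
  exact ⟨hz', w.append w', by rw [SimpleGraph.Walk.length_append, hw, hw']⟩

theorem reach_symm {L : List (Inp k)} {R v z : ℕ} (hv : ∃ y ∈ L, y.t = v)
    (h : z ∈ reach L R v) : v ∈ reach L R z := by
  rw [mem_reach] at h ⊢
  obtain ⟨-, w, hw⟩ := h
  exact ⟨hv, w.reverse, by rw [SimpleGraph.Walk.length_reverse, hw]⟩

theorem reach_edge {L : List (Inp k)} {y y' : Inp k} (hy : y ∈ L) (hy' : y' ∈ L)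
    (hne : y.t ≠ y'.t) (h : y.t ∈ y'.nb ∨ y'.t ∈ y.nb) : y'.t ∈ reach L 1 y.t := by
  rw [mem_reach]
  have hadj : (gr L).Adj y.t y'.t := ⟨hne, y, hy, y', hy', rfl, rfl, h⟩
  exact ⟨⟨y', hy', rfl⟩, SimpleGraph.Walk.cons hadj SimpleGraph.Walk.nil, rfl⟩

theorem not_noShortOdd {L : List (Inp k)} {R C v : ℕ} (h : v ∈ reach L R v) (hR : Odd R)
    (hC : R ≤ C) : ¬ NoShortOdd L C := by
  intro hno
  rw [mem_reach] at h
  obtain ⟨-, w, hw⟩ := h
  exact hno v w (by rw [hw]; exact hC) (by rw [hw]; exact hR)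

theorem hogR_mono {i j : ℕ} (h : i ≤ j) : hogR i ≤ hogR j := by
  induction h with
  | refl => exact le_rfl
  | step _ ih =>
    refine ih.trans ?_
    simp only [hogR]
    omega

theorem card_reach_le (L : List (Inp k)) (R v : ℕ) : (reach L R v).card ≤ L.length := by
  unfold reach
  calc _ ≤ (L.map Inp.t).toFinset.card := Finset.card_filter_le _ _
    _ ≤ (L.map Inp.t).length := List.toFinset_card_le _
    _ = L.length := List.length_map _

end Pool.Agent.H45.OC
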