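import Pool.Agent.H45.OC.HogDefs
import Pool.Agent.H45.OC.HogWalk
import Pool.Agent.H45.OC.HogCol

/-!
# High odd girth: the invariant is preserved

Module HOGSTEP.  Put `L = H.map HRec.y ++ [y]`, `i = hlev l a L y`, `R = hogR i`,
`(cen, ball) = hcl ..`, `nn = hnn (trip H ++ [(y, i, cen)]) i cen`.

* level: `Nat.findGreatest_spec` (with `0`: `a ^ 0 ≤ #(reach L 0 y.t) = 1`), so
  `a ^ i ≤ #(reach L R y.t)`, and `Nat.findGreatest_is_greatest`.
* `ballreach`, `meet`, `same`, `disj`: distinguish whether `y` joins a cluster (`h.choose_spec`)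
  or not; in the second case the ball of `y` is disjoint from all balls of the level `i`, and
  `y.t` is different from all centres (`cenmem`, ids increase).  Old facts pass to the longer
  list by `reach_mono`.
* `nncard`: for `q ∈ nn` there are records `h1` of `(i, cen)`, `h2` of `(i, q)` (including the
  new one) with adjacent inputs, and every `z ∈ h2.ball` is reached from `y.t` by a walk
  `y.t → x → cen → x' → h1.y.t - h2.y.t → x'' → q → z` of length `7 R + 1 = hogR (i + 1)`; the
  balls of different `q` are disjoint and have at least `a ^ i` elements, so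
  `#nn * a ^ i ≤ #(reach L (hogR (i + 1)) y.t) < a ^ (i + 1)` (if `i + 1 ≤ l - 1` by maximality of
  `i`, otherwise by `card_reach_le` and `N < a ^ l`).
* `nnedge`: `u.cen ≠ cen`, since otherwise `y.t → x → cen → x' → u.y.t - y.t` is a closed walk
  of odd length `4 R + 1`.
* `nnmono`, `nnsymm`: `ClAdj` is monotone in the list and symmetric; use `nnadj`.
* `samecol`, `diffcol`: if the colour is fresh, `Nat.sInf_mem`, `exists_fresh`.  If it is the
  colour of an earlier record `h'` of the same cluster with `h'.nn = nn`: for `u` before the new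
  record with `u.cen ∈ nn` either `u` is before `h'` (`diffcol`), or `h'` before `u`: then
  `h'.cen ∈ u.nn` by `nnsymm`, and `diffcol` for `h', u`; `u = h'` is impossible by `nnadj`.
* `colt`: `Nat.sInf_le` and `exists_fresh`.
-/

set_option autoImplicit false

open Finset

noncomputable section

namespace Pool.Agent.H45.OC

open Classical

variable {k : ℕ}

theorem hinv_nil (l a : ℕ) : HInv (k := k) l a [] := by
  constructor <;> simp

theorem ClAdj.mono {T T' : List (Inp k × ℕ × ℕ)} (hs : T ⊆ T') {i p q : ℕ}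
    (h : ClAdj T i p q) : ClAdj T' i p q := by
  obtain ⟨u, hu, z, hz, h⟩ := h
  exact ⟨u, hs hu, z, hs hz, h⟩

theorem ClAdj.symm {T : List (Inp k × ℕ × ℕ)} {i p q : ℕ}
    (h : ClAdj T i p q) : ClAdj T i q p := by
  obtain ⟨u, hu, z, hz, h1, h2, h3, h4, h5⟩ := h
  exact ⟨z, hz, u, hu, h3, h4, h1, h2, h5.symm⟩

theorem mem_hnn {T : List (Inp k × ℕ × ℕ)} {i p q : ℕ} :
    q ∈ hnn T i p ↔ q ≠ p ∧ ClAdj T i p q := by
  unfold hnn
  rw [Finset.mem_filter]
  constructor
  · exact fun h => h.2
  · intro h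
    refine ⟨?_, h⟩
    obtain ⟨u, hu, z, hz, h1, h2, h3, h4, h5⟩ := h.2
    rw [List.mem_toFinset, List.mem_map]
    exact ⟨z, hz, h4⟩

theorem clAdj_trip {H : List (HRec k)} {i p q : ℕ} : ClAdj (trip H) i p q ↔
    ∃ h1 ∈ H, ∃ h2 ∈ H, h1.lev = i ∧ h1.cen = p ∧ h2.lev = i ∧ h2.cen = q ∧
      (h1.y.t ∈ h2.y.nb ∨ h2.y.t ∈ h1.y.nb) := by
  unfold ClAdj trip
  constructor
  · rintro ⟨u, hu, z, hz, h1, h2, h3, h4, h5⟩
    rw [List.mem_map] at hu hz
    obtain ⟨g1, hg1, rfl⟩ := hu
    obtain ⟨g2, hg2, rfl⟩ := hz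
    exact ⟨g1, hg1, g2, hg2, h1, h2, h3, h4, h5⟩
  · rintro ⟨g1, hg1, g2, hg2, h1, h2, h3, h4, h5⟩
    exact ⟨_, List.mem_map_of_mem hg1, _, List.mem_map_of_mem hg2, h1, h2, h3, h4, h5⟩

/-- the geometric part of the invariant -/
structure HGeo (l a : ℕ) (H : List (HRec k)) : Prop where
  lev : ∀ h ∈ H, h.lev < l
  cenmem : ∀ h ∈ H, ∃ u ∈ H, u.y.t = h.cen
  size : ∀ h ∈ H, a ^ h.lev ≤ h.ball.card
  ballreach : ∀ h ∈ H, h.ball ⊆ reach (H.map HRec.y) (hogR h.lev) h.cen
  meet : ∀ h ∈ H, (h.ball ∩ reach (H.map HRec.y) (hogR h.lev) h.y.t).Nonempty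
  same : ∀ h ∈ H, ∀ h' ∈ H, h.lev = h'.lev → h.cen = h'.cen → h.ball = h'.ball
  disj : ∀ h ∈ H, ∀ h' ∈ H, h.lev = h'.lev → h.cen ≠ h'.cen → Disjoint h.ball h'.ball

theorem HGeo.cen_reach {l a : ℕ} {H : List (HRec k)} (hG : HGeo l a H) {h : HRec k}
    (hh : h ∈ H) : h.cen ∈ reach (H.map HRec.y) (2 * hogR h.lev) h.y.t := by
  obtain ⟨x, hx⟩ := hG.meet h hh
  rw [Finset.mem_inter] at hx
  have h1 := hG.ballreach h hh hx.1
  have h2 := reach_symm (by
    obtain ⟨u, hu, he⟩ := hG.cenmem h hh
    exact ⟨u.y, List.mem_map_of_mem hu, he⟩) h1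
  have h3 := reach_trans hx.2 h2
  rwa [← two_mul] at h3

theorem HGeo.reach_cen {l a : ℕ} {H : List (HRec k)} (hG : HGeo l a H) {h : HRec k}
    (hh : h ∈ H) : h.y.t ∈ reach (H.map HRec.y) (2 * hogR h.lev) h.cen :=
  reach_symm ⟨h.y, List.mem_map_of_mem hh, rfl⟩ (hG.cen_reach hh)

/-- the volume argument -/
theorem HGeo.card_nn {l a : ℕ} {H : List (HRec k)} (hG : HGeo l a H) {h : HRec k}
    (hh : h ∈ H) (hne : ∀ u ∈ H, ∀ i ∈ u.y.nb, i < u.y.t) (nn : Finset ℕ)
    (hnn : ∀ q ∈ nn, q ≠ h.cen ∧ ClAdj (trip H) h.lev h.cen q) :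
    nn.card * a ^ h.lev ≤ (reach (H.map HRec.y) (hogR (h.lev + 1)) h.y.t).card := by
  have key : ∀ q ∈ nn, ∃ B : Finset ℕ, (∃ g ∈ H, g.lev = h.lev ∧ g.cen = q ∧ g.ball = B) ∧
      B ⊆ reach (H.map HRec.y) (hogR (h.lev + 1)) h.y.t := by
    intro q hq
    obtain ⟨_, hadj⟩ := hnn q hq
    obtain ⟨h1, hh1, h2, hh2, e1, e2, e3, e4, e5⟩ := clAdj_trip.1 hadj
    refine ⟨h2.ball, ⟨h2, hh2, e3, e4, rfl⟩, ?_⟩
    intro z hz
    have s1 := hG.cen_reach hh
    have s2 := hG.reach_cen hh1
    rw [e1, e2] at s2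
    have hne' : h1.y.t ≠ h2.y.t := by
      rcases e5 with e5 | e5
      · exact (hne h2 hh2 _ e5).ne
      · exact (hne h1 hh1 _ e5).ne'
    have s3 := reach_edge (List.mem_map_of_mem (f := HRec.y) hh1)
      (List.mem_map_of_mem (f := HRec.y) hh2) hne' e5
    have s4 := hG.cen_reach hh2
    rw [e3] at s4
    have s5 := hG.ballreach h2 hh2 hz
    rw [e3] at s5
    have s6 := reach_trans (reach_trans (reach_trans (reach_trans s1 s2) s3) s4) s5
    have e : 2 * hogR h.lev + 2 * hogR h.lev + 1 + 2 * hogR h.lev + hogR h.lev =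
        hogR (h.lev + 1) := by
      change _ = 7 * hogR h.lev + 1
      ring
    rwa [e] at s6
  choose! B hB1 hB2 using key
  calc nn.card * a ^ h.lev = ∑ _q ∈ nn, a ^ h.lev := by
        rw [Finset.sum_const, smul_eq_mul]
    _ ≤ ∑ q ∈ nn, (B q).card := by
        apply Finset.sum_le_sum
        intro q hq
        obtain ⟨g, hg, e1, e2, e3⟩ := hB1 q hq
        rw [← e3, ← e1]
        exact hG.size g hg
    _ = (nn.biUnion B).card := by
        rw [Finset.card_biUnion]
        intro q hq q' hq' hqq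
        obtain ⟨g, hg, e1, e2, e3⟩ := hB1 q hq
        obtain ⟨g', hg', e1', e2', e3'⟩ := hB1 q' hq'
        change Disjoint (B q) (B q')
        rw [← e3, ← e3']
        apply hG.disj g hg g' hg' (e1.trans e1'.symm)
        rw [e2, e2']
        exact hqq
    _ ≤ _ := by
        apply Finset.card_le_card
        intro z hz
        rw [Finset.mem_biUnion] at hz
        obtain ⟨q, hq, hz⟩ := hz
        exact hB2 q hq hz

/-- the geometric part for the new record -/
theorem hgeo_step {l a : ℕ} (hl : 1 ≤ l) (ha0 : 0 < a) {H : List (HRec k)} {y : Inp k}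
    (hH : HInv l a H)
    (hlt : ∀ u ∈ H, u.y.t < y.t) (nn : Finset ℕ) (col : ℕ) :
    HGeo l a (H ++ [⟨y, hlev l a (H.map HRec.y ++ [y]) y,
      (hcl H (hlev l a (H.map HRec.y ++ [y]) y) (reach (H.map HRec.y ++ [y])
        (hogR (hlev l a (H.map HRec.y ++ [y]) y)) y.t) y.t).1,
      (hcl H (hlev l a (H.map HRec.y ++ [y]) y) (reach (H.map HRec.y ++ [y])
        (hogR (hlev l a (H.map HRec.y ++ [y]) y)) y.t) y.t).2, nn, col⟩]) := by
  set L := H.map HRec.y ++ [y] with hL
  set i := hlev l a L y with hi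
  have hyL : y ∈ L := by simp [hL]
  have hil : i ≤ l - 1 := Nat.findGreatest_le _
  have hsz : a ^ i ≤ (reach L (hogR i) y.t).card := by
    have : (fun i => a ^ i ≤ (reach L (hogR i) y.t).card) 0 := by
      change a ^ 0 ≤ (reach L 0 y.t).card
      rw [reach_zero hyL]
      simp
    exact Nat.findGreatest_spec (P := fun i => a ^ i ≤ (reach L (hogR i) y.t).card)
      (Nat.zero_le (l - 1)) this
  have hsub : H.map HRec.y ⊆ L := by
    rw [hL]
    exact List.subset_append_left _ _
  -- the cluster of the new record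
  have hcase : (∃ u ∈ H, u.lev = i ∧ (u.ball ∩ reach L (hogR i) y.t).Nonempty ∧
      hcl H i (reach L (hogR i) y.t) y.t = (u.cen, u.ball)) ∨
      ((∀ u ∈ H, u.lev = i → Disjoint u.ball (reach L (hogR i) y.t)) ∧
      hcl H i (reach L (hogR i) y.t) y.t = (y.t, reach L (hogR i) y.t)) := by
    unfold hcl
    split_ifs with h
    · left
      exact ⟨h.choose, h.choose_spec.1, h.choose_spec.2.1, h.choose_spec.2.2, rfl⟩
    · right
      refine ⟨fun u hu he => ?_, rfl⟩
      rw [Finset.disjoint_iff_inter_eq_empty]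
      by_contra hc
      exact h ⟨u, hu, he, Finset.nonempty_iff_ne_empty.2 hc⟩
  generalize hcl H i (reach L (hogR i) y.t) y.t = cb at hcase
  obtain ⟨cen, ball⟩ := cb
  set r : HRec k := ⟨y, i, cen, ball, nn, col⟩ with hr
  have hLm : (H ++ [r]).map HRec.y = L := by simp [hr, hL]
  have hmem : ∀ {h : HRec k}, h ∈ H ++ [r] ↔ h ∈ H ∨ h = r := by
    intro h
    simp
  constructor
  · -- lev
    intro h hh
    rcases hmem.1 hh with hh | rfl
    · exact hH.lev h hh
    · change i < l
      omega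
  · -- cenmem
    intro h hh
    rcases hmem.1 hh with hh | rfl
    · obtain ⟨u, hu, he⟩ := hH.cenmem h hh
      exact ⟨u, hmem.2 (Or.inl hu), he⟩
    · rcases hcase with ⟨u, hu, hui, hne, he⟩ | ⟨hd, he⟩
      · obtain ⟨u', hu', he'⟩ := hH.cenmem u hu
        refine ⟨u', hmem.2 (Or.inl hu'), ?_⟩
        rw [he']
        exact (congrArg Prod.fst he).symm
      · exact ⟨r, hmem.2 (Or.inr rfl), (congrArg Prod.fst he).symm⟩
  · -- size
    intro h hh
    rcases hmem.1 hh with hh | rfl
    · exact hH.size h hh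
    · change a ^ i ≤ ball.card
      rcases hcase with ⟨u, hu, hui, hne, he⟩ | ⟨hd, he⟩
      · have := congrArg Prod.snd he
        simp only at this
        rw [this, ← hui]
        exact hH.size u hu
      · have := congrArg Prod.snd he
        simp only at this
        rw [this]
        exact hsz
  · -- ballreach
    intro h hh
    rw [hLm]
    rcases hmem.1 hh with hh | rfl
    · exact (hH.ballreach h hh).trans (reach_mono hsub _ _)
    · change ball ⊆ reach L (hogR i) cen
      rcases hcase with ⟨u, hu, hui, hne, he⟩ | ⟨hd, he⟩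
      · have e1 := congrArg Prod.fst he
        have e2 := congrArg Prod.snd he
        simp only at e1 e2
        rw [e1, e2, ← hui]
        exact (hH.ballreach u hu).trans (reach_mono hsub _ _)
      · have e1 := congrArg Prod.fst he
        have e2 := congrArg Prod.snd he
        simp only at e1 e2
        rw [e1, e2]
  · -- meet
    intro h hh
    rw [hLm]
    rcases hmem.1 hh with hh | rfl
    · obtain ⟨x, hx⟩ := hH.meet h hh
      rw [Finset.mem_inter] at hx
      exact ⟨x, Finset.mem_inter.2 ⟨hx.1, reach_mono hsub _ _ hx.2⟩⟩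
    · change (ball ∩ reach L (hogR i) y.t).Nonempty
      rcases hcase with ⟨u, hu, hui, hne, he⟩ | ⟨hd, he⟩
      · have e2 := congrArg Prod.snd he
        simp only at e2
        rw [e2]
        exact hne
      · have e2 := congrArg Prod.snd he
        simp only at e2
        rw [e2, Finset.inter_self, ← Finset.card_pos]
        exact lt_of_lt_of_le (Nat.pow_pos ha0) hsz
  · -- same
    have main : ∀ h' ∈ H, i = h'.lev → cen = h'.cen → ball = h'.ball := by
      intro h' hh' e1 e2
      rcases hcase with ⟨u, hu, hui, hne, he⟩ | ⟨hd, he⟩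
      · have f1 := congrArg Prod.fst he
        have f2 := congrArg Prod.snd he
        simp only at f1 f2
        rw [f2]
        exact hH.same u hu h' hh' (hui.trans e1) (f1.symm.trans e2)
      · exfalso
        have f1 := congrArg Prod.fst he
        simp only at f1
        obtain ⟨u, hu, hue⟩ := hH.cenmem h' hh'
        have := hlt u hu
        rw [hue, ← e2, f1] at this
        exact lt_irrefl _ this
    intro h hh h' hh' e1 e2
    rcases hmem.1 hh with hh | rfl
    · rcases hmem.1 hh' with hh' | rfl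
      · exact hH.same h hh h' hh' e1 e2
      · exact (main h hh e1.symm e2.symm).symm
    · rcases hmem.1 hh' with hh' | rfl
      · exact main h' hh' e1 e2
      · rfl
  · -- disj
    have main : ∀ h' ∈ H, i = h'.lev → cen ≠ h'.cen → Disjoint ball h'.ball := by
      intro h' hh' e1 e2
      rcases hcase with ⟨u, hu, hui, hne, he⟩ | ⟨hd, he⟩
      · have f1 := congrArg Prod.fst he
        have f2 := congrArg Prod.snd he
        simp only at f1 f2
        rw [f2]
        refine hH.disj u hu h' hh' (hui.trans e1) ?_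
        rw [← f1]
        exact e2
      · have f2 := congrArg Prod.snd he
        simp only at f2
        rw [f2]
        exact (hd h' hh' e1.symm).symm
    intro h hh h' hh' e1 e2
    rcases hmem.1 hh with hh | rfl
    · rcases hmem.1 hh' with hh' | rfl
      · exact hH.disj h hh h' hh' e1 e2
      · exact (main h hh e1.symm (Ne.symm e2)).symm
    · rcases hmem.1 hh' with hh' | rfl
      · exact main h' hh' e1 e2
      · exact absurd rfl e2

theorem hinv_step {l a N : ℕ} (hl : 1 ≤ l) (ha : N < a ^ l) {H : List (HRec k)} {y : Inp k}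
    (hH : HInv l a H)
    (hinc : (H.map HRec.y ++ [y]).Pairwise (fun y y' => y.t < y'.t))
    (hnb : ∀ u ∈ H.map HRec.y ++ [y], ∀ i ∈ u.nb, i < u.t)
    (hN : (H.map HRec.y ++ [y]).length ≤ N)
    (hodd : NoShortOdd (H.map HRec.y ++ [y]) (4 * hogR (l - 1) + 1)) :
    HInv l a (hstep l a H y) := by
  have ha0 : 0 < a := by
    rcases Nat.eq_zero_or_pos a with h | h
    · rw [h, Nat.zero_pow hl] at ha
      omega
    · exact h
  have hlt : ∀ u ∈ H, u.y.t < y.t := by
    intro u hu
    rw [List.pairwise_append] at hinc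
    exact hinc.2.2 u.y (List.mem_map_of_mem hu) y (by simp)
  unfold hstep
  simp only
  set L := H.map HRec.y ++ [y] with hL
  set i := hlev l a L y with hi
  set cb := hcl H i (reach L (hogR i) y.t) y.t with hcb
  set nn := hnn (trip H ++ [(y, i, cb.1)]) i cb.1 with hnn
  have hG := hgeo_step hl ha0 hH hlt nn (hcol H i cb.1 nn)
  rw [← hL, ← hi, ← hcb] at hG
  set col := hcol H i cb.1 nn with hcol'
  set r : HRec k := ⟨y, i, cb.1, cb.2, nn, col⟩ with hr
  have hLm : (H ++ [r]).map HRec.y = L := by simp [hr, hL]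
  have hTm : trip (H ++ [r]) = trip H ++ [(y, i, cb.1)] := by simp [trip, hr]
  have hmem : ∀ {h : HRec k}, h ∈ H ++ [r] ↔ h ∈ H ∨ h = r := by
    intro h
    simp
  have hrm : r ∈ H ++ [r] := hmem.2 (Or.inr rfl)
  have hHs : H ⊆ H ++ [r] := List.subset_append_left _ _
  have hTs : trip H ⊆ trip (H ++ [r]) := by
    rw [hTm]
    exact List.subset_append_left _ _
  have hnb' : ∀ u ∈ H ++ [r], ∀ i ∈ u.y.nb, i < u.y.t := by
    intro u hu
    apply hnb
    rw [← hLm]
    exact List.mem_map_of_mem hu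
  have hnnr : ∀ q, q ∈ nn ↔ q ≠ cb.1 ∧ ClAdj (trip (H ++ [r])) i cb.1 q := by
    intro q
    rw [hTm]
    exact mem_hnn
  have hil : i ≤ l - 1 := Nat.findGreatest_le _
  -- the number of adjacent clusters
  have hcard : nn.card < a := by
    have h1 := hG.card_nn hrm hnb' nn (fun q hq => (hnnr q).1 hq)
    rw [hLm] at h1
    change nn.card * a ^ i ≤ (reach L (hogR (i + 1)) y.t).card at h1
    have h2 : (reach L (hogR (i + 1)) y.t).card < a ^ (i + 1) := by
      rcases Nat.lt_or_ge (i + 1) l with h | h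
      · have := Nat.findGreatest_is_greatest
          (P := fun i => a ^ i ≤ (reach L (hogR i) y.t).card) (n := l - 1) (k := i + 1)
          (Nat.lt_succ_self _) (by omega)
        exact not_le.1 this
      · have : i + 1 = l := by omega
        rw [this]
        exact lt_of_le_of_lt ((card_reach_le _ _ _).trans hN) ha
    rw [pow_succ] at h2
    have h3 : nn.card * a ^ i < a * a ^ i := by
      rw [mul_comm a]
      exact lt_of_le_of_lt h1 h2
    exact Nat.lt_of_mul_lt_mul_right h3
  -- the edges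
  have hedge : ∀ u ∈ H, u.lev = i → u.y.t ∈ y.nb → u.cen ∈ nn := by
    intro u hu hui huy
    have hu' := hHs hu
    rw [hnnr]
    constructor
    · intro hc
      have s1 := hG.cen_reach hrm
      have s2 := hG.reach_cen hu'
      rw [hLm] at s1 s2
      change cb.1 ∈ reach L (2 * hogR i) y.t at s1
      rw [hui, hc] at s2
      have s3 := reach_edge (L := L) (y := u.y) (y' := y)
        (by rw [← hLm]; exact List.mem_map_of_mem hu') (by simp [hL])
        (hlt u hu).ne (Or.inl huy)
      have s4 := reach_trans (reach_trans s1 s2) s3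
      refine not_noShortOdd s4 ?_ ?_ hodd
      · exact ⟨2 * hogR i, by ring⟩
      · have := hogR_mono hil
        omega
    · rw [clAdj_trip]
      exact ⟨r, hrm, u, hu', rfl, rfl, hui, rfl, Or.inr huy⟩
  -- the colour
  have hfr := exists_fresh H a i nn hcard hH.nncard hH.nnmono hH.samecol
  have hcolc : (∃ h' ∈ H, h'.lev = i ∧ h'.cen = cb.1 ∧ h'.nn = nn ∧ col = h'.col) ∨
      ((¬ ∃ h' ∈ H, h'.lev = i ∧ h'.cen = cb.1 ∧ h'.nn = nn) ∧ HFresh H i nn col ∧
        col < a ^ 2) := by
    rw [hcol']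
    unfold hcol
    split_ifs with h
    · left
      exact ⟨h.choose, h.choose_spec.1, h.choose_spec.2.1, h.choose_spec.2.2.1,
        h.choose_spec.2.2.2, rfl⟩
    · right
      obtain ⟨n, hn, hn'⟩ := hfr
      refine ⟨h, ?_, ?_⟩
      · exact Nat.sInf_mem (s := {n | HFresh H i nn n}) ⟨n, hn'⟩
      · exact lt_of_le_of_lt (Nat.sInf_le hn') hn
  have happ : ∀ {R : HRec k → HRec k → Prop}, H.Pairwise R → (∀ u ∈ H, R u r) →
      (H ++ [r]).Pairwise R := by
    intro R h1 h2
    rw [List.pairwise_append]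
    refine ⟨h1, by simp, ?_⟩
    intro u hu v hv
    rw [List.mem_singleton] at hv
    rw [hv]
    exact h2 u hu
  refine
    { lev := hG.lev
      cenmem := hG.cenmem
      size := hG.size
      ballreach := hG.ballreach
      meet := hG.meet
      same := hG.same
      disj := hG.disj
      nnadj := ?_
      nncard := ?_
      nnmono := ?_
      nnsymm := ?_
      nnedge := ?_
      samecol := ?_
      diffcol := ?_
      colt := ?_ }
  · -- nnadj
    intro h hh q hq
    rcases hmem.1 hh with hh | rfl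
    · exact ⟨(hH.nnadj h hh q hq).1, (hH.nnadj h hh q hq).2.mono hTs⟩
    · exact (hnnr q).1 hq
  · -- nncard
    intro h hh
    rcases hmem.1 hh with hh | rfl
    · exact hH.nncard h hh
    · exact hcard
  · -- nnmono
    refine happ hH.nnmono fun u hu e1 e2 q hq => ?_
    change q ∈ nn
    rw [hnnr]
    have := hH.nnadj u hu q hq
    rw [e1, e2] at this
    exact ⟨this.1, this.2.mono hTs⟩
  · -- nnsymm
    refine happ hH.nnsymm fun u hu e1 e2 => ?_
    change u.cen ∈ nn
    rw [hnnr]
    have := hH.nnadj u hu _ e2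
    rw [e1] at this
    exact ⟨this.1.symm, (this.2.mono hTs).symm⟩
  · -- nnedge
    exact happ hH.nnedge fun u hu e1 e2 => hedge u hu e1 e2
  · -- samecol
    have main : ∀ h' ∈ H, i = h'.lev → cb.1 = h'.cen → nn = h'.nn → col = h'.col := by
      intro h' hh' e1 e2 e3
      rcases hcolc with ⟨g, hg, f1, f2, f3, f4⟩ | ⟨hno, _⟩
      · rw [f4]
        exact hH.samecol g hg h' hh' (f1.trans e1) (f2.trans e2) (f3.trans e3)
      · exact absurd ⟨h', hh', e1.symm, e2.symm, e3.symm⟩ hno
    intro h hh h' hh' e1 e2 e3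
    rcases hmem.1 hh with hh | rfl
    · rcases hmem.1 hh' with hh' | rfl
      · exact hH.samecol h hh h' hh' e1 e2 e3
      · exact (main h hh e1.symm e2.symm e3.symm).symm
    · rcases hmem.1 hh' with hh' | rfl
      · exact main h' hh' e1 e2 e3
      · rfl
  · -- diffcol
    refine happ hH.diffcol fun u hu e1 e2 => ?_
    change u.lev = i at e1
    change u.cen ∈ nn at e2
    change u.col ≠ col
    rcases hcolc with ⟨g, hg, f1, f2, f3, f4⟩ | ⟨_, hno, _⟩
    · rw [f4]
      have hpw : H.Pairwise (fun u h => (u.lev = h.lev → u.cen ∈ h.nn → u.col ≠ h.col) ∧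
          (u.lev = h.lev → h.cen ∈ u.nn → u.cen ∈ h.nn)) :=
        List.pairwise_and_iff.2 ⟨hH.diffcol, hH.nnsymm⟩
      have hsym : H.Pairwise (fun u h => (((u.lev = h.lev → u.cen ∈ h.nn → u.col ≠ h.col) ∧
          (u.lev = h.lev → h.cen ∈ u.nn → u.cen ∈ h.nn)) ∨
          ((h.lev = u.lev → h.cen ∈ u.nn → h.col ≠ u.col) ∧
          (h.lev = u.lev → u.cen ∈ h.nn → h.cen ∈ u.nn)))) :=
        hpw.imp fun h => Or.inl h
      by_cases hug : u = g
      · exfalso
        rw [hug, ← f3] at e2
        exact (hH.nnadj g hg _ e2).1 rfl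
      · have : Std.Symm (fun u h : HRec k =>
            (((u.lev = h.lev → u.cen ∈ h.nn → u.col ≠ h.col) ∧
            (u.lev = h.lev → h.cen ∈ u.nn → u.cen ∈ h.nn)) ∨
            ((h.lev = u.lev → h.cen ∈ u.nn → h.col ≠ u.col) ∧
            (h.lev = u.lev → u.cen ∈ h.nn → h.cen ∈ u.nn)))) := ⟨fun _ _ h => h.symm⟩
        have := hsym.forall hu hg hug
        rcases this with h | h
        · exact h.1 (e1.trans f1.symm) (f3.symm ▸ e2)
        · have h2 := h.2 (f1.trans e1.symm) (f3.symm ▸ e2)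
          exact (h.1 (f1.trans e1.symm) h2).symm
    · exact hno u hu e1 e2
  · -- colt
    intro h hh
    rcases hmem.1 hh with hh | rfl
    · exact hH.colt h hh
    · change col < a ^ 2
      rcases hcolc with ⟨g, hg, f1, f2, f3, f4⟩ | ⟨_, _, hno⟩
      · rw [f4]
        exact hH.colt g hg
      · exact hno

end Pool.Agent.H45.OC
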