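import Pool.Agent.H45.OC.Fam

/-!
# The invariant: generalities, First-Fit step, start of a new epoch

Module MACHA.

* `Inv.pair_unique`: `st.hist.map Prod.fst = L` has strictly increasing ids.
* `le_card_nbS`: for every `i < r` there is `q ∈ st.hist` with `q.1.t ∈ y.nb` and `q.2 = i`;
  then `q.1 ∈ nbS st.S y`, and different `i` give different `q.1` (`pair_unique`).
* `cols_lt`: in the second alternative of `Inv.cols` the number `q'.2` is less than `Msub`
  (field `good`, first clause of `Good`) and `m ≤ j - 1`.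
* `inv_first`: only `hist` and `S` change; use `FamInv.mono` with `S' = S0`.
* `inv_reset`: start of a new epoch; the colour `base P st.e` is new by `Inv.cols`.
-/

set_option autoImplicit false

open Finset

noncomputable section

namespace Pool.Agent.H45.OC

open Classical

variable {k : ℕ}

theorem inc_inj {L : List (Inp k)} (h : L.Pairwise (fun y y' => y.t < y'.t)) {u u' : Inp k}
    (hu : u ∈ L) (hu' : u' ∈ L) (he : u.t = u'.t) : u = u' := by
  rw [List.pairwise_iff_getElem] at h
  obtain ⟨i, hi, rfl⟩ := List.mem_iff_getElem.mp hu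
  obtain ⟨j, hj, rfl⟩ := List.mem_iff_getElem.mp hu'
  rcases lt_trichotomy i j with hij | hij | hij
  · exact absurd (h i j hi hj hij) (by omega)
  · subst hij
    rfl
  · exact absurd (h j i hj hi hij) (by omega)

theorem Inv.pair_unique {P : Par k} {l Lam : ℝ} {L : List (Inp k)} {st : St k}
    (hI : Inv P l Lam L st) (hinc : L.Pairwise (fun y y' => y.t < y'.t))
    {q q' : Inp k × ℕ} (hq : q ∈ st.hist) (hq' : q' ∈ st.hist) (he : q.1.t = q'.1.t) :
    q = q' := by
  have h : st.hist.Pairwise (fun q q' => q.1.t < q'.1.t) := by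
    rw [← hI.hist, List.pairwise_map] at hinc
    exact hinc
  rw [List.pairwise_iff_getElem] at h
  obtain ⟨i, hi, rfl⟩ := List.mem_iff_getElem.mp hq
  obtain ⟨j, hj, rfl⟩ := List.mem_iff_getElem.mp hq'
  rcases lt_trichotomy i j with hij | hij | hij
  · exact absurd (h i j hi hj hij) (by omega)
  · subst hij
    rfl
  · exact absurd (h j i hj hi hij) (by omega)

theorem Inv.S_sub {P : Par k} {l Lam : ℝ} {L : List (Inp k)} {st : St k}
    (hI : Inv P l Lam L st) : ∀ u ∈ st.S, u ∈ L := by
  intro u hu
  obtain ⟨i, _, h⟩ := (hI.memS u).mp hu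
  rw [← hI.hist]
  exact List.mem_map_of_mem (f := Prod.fst) h

theorem Inv.S_card {P : Par k} {l Lam : ℝ} {L : List (Inp k)} {st : St k}
    (hI : Inv P l Lam L st) : st.S.card ≤ L.length := by
  have h : st.S ⊆ L.toFinset := fun u hu => by
    rw [List.mem_toFinset]
    exact hI.S_sub u hu
  exact le_trans (Finset.card_le_card h) (List.toFinset_card_le _)

theorem Inv.le_card_nbS {P : Par k} {l Lam : ℝ} {L : List (Inp k)} {st : St k}
    (hI : Inv P l Lam L st) (hinc : L.Pairwise (fun y y' => y.t < y'.t)) {y : Inp k}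
    (hy : ¬ ∃ i, i < P.r ∧ Free st y i) : P.r ≤ (nbS st.S y).card := by
  have h : ∀ i, i < P.r → ∃ u : Inp k, u.t ∈ y.nb ∧ (u, i) ∈ st.hist := by
    intro i hi
    by_contra hcon
    apply hy
    refine ⟨i, hi, fun q hq h1 h2 => hcon ⟨q.1, h1, ?_⟩⟩
    rw [← h2]
    exact hq
  choose f hf1 hf2 using h
  have hc : (Finset.univ : Finset (Fin P.r)).card ≤ (nbS st.S y).card := by
    apply Finset.card_le_card_of_injOn (fun i : Fin P.r => f i.1 i.2)
    · intro i _
      rw [Finset.mem_coe, mem_nbS]
      exact ⟨(hI.memS _).mpr ⟨i.1, i.2, hf2 i.1 i.2⟩, hf1 i.1 i.2⟩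
    · intro i _ i' _ hii
      have h1 := hI.pair_unique hinc (hf2 i.1 i.2) (hf2 i'.1 i'.2) (by
        simp only
        exact congrArg Inp.t hii)
      exact Fin.ext (Prod.mk.inj h1).2
  simpa using hc

theorem base_succ (P : Par k) (e : ℕ) :
    base P (e + 1) = base P e + (1 + (P.j - 1) * P.Msub) := by
  unfold base Par.B
  ring

theorem Inv.cols_lt {P : Par k} {l Lam : ℝ} {L : List (Inp k)} {st : St k}
    (hI : Inv P l Lam L st) : ∀ q ∈ st.hist, q.2 < base P (st.e + 1) := by
  intro q hq
  rw [base_succ]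
  rcases hI.cols q hq with h | ⟨m, hm, hmj, q', hq', _, h⟩
  · omega
  · have h1 := (hI.good m).1 q' hq'
    rw [h]
    unfold subCol
    have h2 : (m - 1) * P.Msub + P.Msub ≤ (P.j - 1) * P.Msub := by
      have h3 : (m - 1) * P.Msub + P.Msub = (m - 1 + 1) * P.Msub := by ring
      rw [h3]
      exact Nat.mul_le_mul_right _ (by omega)
    omega

theorem Inv.ne_base {P : Par k} {l Lam : ℝ} {L : List (Inp k)} {st : St k}
    (hI : Inv P l Lam L st) : ∀ q ∈ st.hist, q.2 ≠ base P st.e := by
  intro q hq
  rcases hI.cols q hq with h | ⟨m, hm, hmj, q', hq', _, h⟩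
  · omega
  · rw [h]
    unfold subCol
    omega

theorem inv_first {P : Par k} {η l Lam : ℝ} {L : List (Inp k)} {st : St k} {y : Inp k}
    (hI : Inv P l Lam L st) (hadm : Adm P.μ P.Xs P.ab η (L ++ [y]))
    {i : ℕ} (hi : i < P.r) (hfree : Free st y i) :
    Inv P l Lam (L ++ [y]) { st with hist := st.hist ++ [(y, i)], S := insert y st.S } := by
  have hsub : L.Sublist (L ++ [y]) := List.sublist_append_left _ _
  have hinj : ∀ u ∈ st.S0, ∀ u' ∈ st.S0, u.t = u'.t → u = u' := by
    intro u hu u' hu' he
    exact inc_inj (hadm.inc.sublist hsub) (hI.S_sub u (hI.S0S hu)) (hI.S_sub u' (hI.S0S hu')) he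
  refine
    { hist := ?_
      memS := ?_
      S0S := ?_
      fam := hI.fam.mono hsub (Finset.Subset.refl _) hinj
      ent := ?_
      subl := fun m => (hI.subl m).trans hsub
      len := hI.len
      adm := hI.adm
      good := hI.good
      cols := ?_
      prop := ?_
      cnt := ?_ }
  · simp [hI.hist]
  · intro u
    simp only [Finset.mem_insert, List.mem_append, List.mem_singleton, Prod.mk.injEq]
    constructor
    · rintro (rfl | hu)
      · exact ⟨i, hi, Or.inr ⟨rfl, rfl⟩⟩
      · obtain ⟨i', h1, h2⟩ := (hI.memS u).mp hu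
        exact ⟨i', h1, Or.inl h2⟩
    · rintro ⟨i', h1, h2 | ⟨rfl, rfl⟩⟩
      · exact Or.inr ((hI.memS u).mpr ⟨i', h1, h2⟩)
      · exact Or.inl rfl
  · exact hI.S0S.trans (Finset.subset_insert _ _)
  · intro m q hq
    obtain ⟨h1, h2⟩ := hI.ent m q hq
    exact ⟨h1.trans (Finset.subset_insert _ _), h2⟩
  · intro q hq
    simp only [List.mem_append, List.mem_singleton] at hq
    rcases hq with hq | rfl
    · exact hI.cols q hq
    · left
      simp only [base]
      omega
  · rw [List.pairwise_append]
    refine ⟨hI.prop, List.pairwise_singleton _ _, ?_⟩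
    intro q hq q' hq'
    rw [List.mem_singleton] at hq'
    subst hq'
    intro h
    exact hfree q hq h
  · obtain ⟨nf, nt, h1, h2, h3⟩ := hI.cnt
    refine ⟨nf, nt, h1, h2, ?_⟩
    rw [List.length_append]
    exact le_trans h3 (Nat.le_add_right _ _)

theorem inv_reset {P : Par k} {η l Lam : ℝ} {L : List (Inp k)} {st : St k} {y : Inp k}
    (hI : Inv P l Lam L st) (hadm : Adm P.μ P.Xs P.ab η (L ++ [y])) (hηs : 0 ≤ P.ηs)
    {fam' : Hyp k → Finset (Expert k)} (hfam : FamInv P.μ (L ++ [y]) st.S fam' l)
    (hcnt : ∃ nf nt : ℕ, st.e + 1 = nf + nt ∧ P.c1 / 2 * (nf : ℝ) ≤ Phi P.μ fam' P.w0 Lam ∧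
      nt * P.N1 ≤ L.length + 1) :
    Inv P l Lam (L ++ [y])
      { hist := st.hist ++ [(y, base P st.e)]
        S := st.S
        fam := fam'
        S0 := st.S
        e := st.e + 1
        sub := fun _ => [] } := by
  refine
    { hist := ?_
      memS := ?_
      S0S := Finset.Subset.refl _
      fam := hfam
      ent := ?_
      subl := fun m => by simp
      len := fun m => Nat.zero_le _
      adm := ?_
      good := ?_
      cols := ?_
      prop := ?_
      cnt := ?_ }
  · simp [hI.hist]
  · intro u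
    simp only [List.mem_append, List.mem_singleton, Prod.mk.injEq]
    constructor
    · intro hu
      obtain ⟨i', h1, h2⟩ := (hI.memS u).mp hu
      exact ⟨i', h1, Or.inl h2⟩
    · rintro ⟨i', h1, h2 | ⟨rfl, rfl⟩⟩
      · exact (hI.memS u).mpr ⟨i', h1, h2⟩
      · unfold base at h1
        omega
  · intro m q hq
    simp at hq
  · intro m
    exact
      { inc := List.Pairwise.nil
        nb := fun z hz => by simp [subList] at hz
        mem := fun z hz => by simp [subList] at hz
        sub := fun z hz => by simp [subList] at hz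
        tol := fun z hz => by simp [subList] at hz }
  · intro m
    exact good_nil _ _
  · intro q hq
    left
    simp only [List.mem_append, List.mem_singleton] at hq
    rcases hq with hq | rfl
    · exact hI.cols_lt q hq
    · simp only
      rw [base_succ]
      omega
  · rw [List.pairwise_append]
    refine ⟨hI.prop, List.pairwise_singleton _ _, ?_⟩
    intro q hq q' hq'
    rw [List.mem_singleton] at hq'
    subst hq'
    intro _
    exact hI.ne_base q hq
  · obtain ⟨nf, nt, h1, h2, h3⟩ := hcnt
    refine ⟨nf, nt, h1, h2, ?_⟩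
    simpa using h3

end Pool.Agent.H45.OC
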