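import Pool.Agent.H45.OC.State

/-!
# The lists of the sub-games stay admissible

Module SUBSTEP.

* `inc`, `nb`: the ids and neighbourhoods of `subList P m es` are those of `es.map Ent.y`, a
  sublist of `L`; append `y`.
* `mem`: for the new entry the representative is `node y.x v.t v.x`.  From
  `0 < ps ≤ massP (Act ..)` there is a pair `(ω, g)`, `g ∈ fam ω`, with `Act`, and `m ≥ 1`, so
  `cov g v.t ≠ ∅`; by `FamInv.cen` there is `u ∈ S0` with `u.t = v.t`, so `v = u ∈ S0` as
  both are in `S`.  The mass condition: `Act` implies `subAb .. (g :: ω) ≠ ∅` (as `m ≥ 1`; use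
  `Adm.sub` for `y` and `v` and `Ev`), `massP_mono`, `subSp_mass`.
* `sub`: on `Act` both `y.a ω = v.a ω ≠ ∅`, so `ab y.x ω = y.a ω = v.a ω = ab v.x ω`.
* `tol`: `subAb .. ≠ ∅` and `subA .. = ∅` imply agreement of `ab y.x ω`, `ab v.x ω ≠ ∅`, and not
  `Ev` (on `Ev` the sets are `v.a ω = ab v.x ω`, so `Act` holds and `subA = subAb ≠ ∅`); then
  use the fourth clause of `Pick`.
-/

set_option autoImplicit false

open Finset

noncomputable section

namespace Pool.Agent.H45.OC

open Classical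

variable {k : ℕ}

theorem inc_inj {L : List (Inp k)} (h : L.Pairwise (fun y y' => y.t < y'.t)) {u v : Inp k}
    (hu : u ∈ L) (hv : v ∈ L) (huv : u.t = v.t) : u = v := by
  induction L with
  | nil => simp at hu
  | cons a L ih =>
    rw [List.pairwise_cons] at h
    rcases List.mem_cons.mp hu with rfl | hu'
    · rcases List.mem_cons.mp hv with rfl | hv'
      · rfl
      · exact absurd huv (h.1 v hv').ne
    · rcases List.mem_cons.mp hv with rfl | hv'
      · exact absurd huv (h.1 u hu').ne'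
      · exact ih h.2 hu' hv'

theorem massP_pos_exists {μ : Sp k} {fam : Hyp k → Finset (Expert k)} {w0 : ℝ}
    {Q : Hyp k → Expert k → Prop} (h : 0 < massP μ fam w0 Q) :
    ∃ ω ∈ μ.sp, ∃ g ∈ fam ω, Q ω g := by
  by_contra hno
  push Not at hno
  have : massP μ fam w0 Q = 0 := by
    unfold massP
    apply Finset.sum_eq_zero
    intro ω hω
    rw [Finset.filter_false_of_mem (fun g hg => hno ω hω g hg), Finset.sum_empty]
  linarith

theorem subA_cons {c δ : ℝ} {m : ℕ} {q : Ent k} {ω : Hyp k} {g : Expert k} :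
    subA c δ m q (g :: ω) = if Act c δ m q ω g then q.v.a ω ∩ cov g q.v.t else ∅ := rfl

theorem subAb_cons {ab : Rep → Hyp k → Finset (Fin k)} {m : ℕ} {x : Rep} {v : ℕ} {xv : Rep}
    {ω : Hyp k} {g : Expert k} :
    subAb ab m (Rep.node x v xv) (g :: ω) =
      if ab x ω = ab xv ω ∧ ab x ω ≠ ∅ ∧ (ab xv ω ∩ cov g v).card = m
      then ab xv ω ∩ cov g v else ∅ := rfl

/-- on the event `Act` the static function of the new entry is the set of allowed colours -/
theorem subAb_of_act {μ : Sp k} {Xs : Finset Rep} {ab : Rep → Hyp k → Finset (Fin k)} {η : ℝ}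
    {c δ : ℝ} {L : List (Inp k)} (hadm : Adm μ Xs ab η L) {y v : Inp k} (hy : y ∈ L)
    (hv : v ∈ L) {D : Finset (Inp k)} {m : ℕ} {ω : Hyp k} (hω : ω ∈ μ.sp) {g : Expert k}
    (h : Act c δ m ⟨y, D, v⟩ ω g) :
    subAb ab m (Rep.node y.x v.t v.x) (g :: ω) = v.a ω ∩ cov g v.t := by
  obtain ⟨⟨hbig, hvy, -, -⟩, hcard⟩ := h
  simp only at hbig hvy hcard
  have hyne : y.a ω ≠ ∅ := hbig.1
  have hvne : v.a ω ≠ ∅ := by rw [hvy]; exact hyne
  have h1 : y.a ω = ab y.x ω := hadm.sub y hy ω hω hyne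
  have h2 : v.a ω = ab v.x ω := hadm.sub v hv ω hω hvne
  rw [subAb_cons, if_pos]
  · rw [h2]
  · refine ⟨?_, ?_, ?_⟩
    · rw [← h1, ← h2, hvy]
    · rw [← h1]; exact hyne
    · rw [← h2]; exact hcard

theorem subAdm_append (P : Par k) {η κ κ0 : ℝ} {N M0 : ℕ} (hP : ParOK P η κ κ0 N M0)
    {fam : Hyp k → Finset (Expert k)} {L : List (Inp k)} {y v : Inp k}
    {S0 S D : Finset (Inp k)} {m : ℕ} {es : List (Ent k)}
    (hadm : Adm P.μ P.Xs P.ab η (L ++ [y])) (hS : ∀ u ∈ S, u ∈ L) (hS0 : S0 ⊆ S) (hD : D ⊆ S)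
    (hfam : FamInv P.μ (L ++ [y]) S0 fam (P.c * P.δ * P.r))
    (hes : (es.map Ent.y).Sublist L)
    (hold : Adm (spc P fam) (subXs (spc P fam) P.Xs P.ab P.ps S0 m) (subAb P.ab m) P.ηs
      (subList P m es))
    (hpick : Pick P fam D y v m) :
    Adm (spc P fam) (subXs (spc P fam) P.Xs P.ab P.ps S0 m) (subAb P.ab m) P.ηs
      (subList P m (es ++ [⟨y, D, v⟩])) := by
  obtain ⟨hvD, hm1, hmj, hpη, hpp⟩ := hpick
  have hyL : y ∈ L ++ [y] := by simp
  have hvL' : v ∈ L := hS v (hD hvD)
  have hvL : v ∈ L ++ [y] := List.mem_append_left _ hvL'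
  have hsl : ((es ++ [(⟨y, D, v⟩ : Ent k)]).map Ent.y).Sublist (L ++ [y]) := by
    rw [List.map_append]
    exact hes.append (List.Sublist.refl _)
  have heq : subList P m (es ++ [⟨y, D, v⟩]) =
      subList P m es ++ [subInp P.c P.δ m ⟨y, D, v⟩] := by
    unfold subList
    rw [List.map_append]
    rfl
  refine ⟨?_, ?_, ?_, ?_, ?_⟩
  · -- inc
    have h := hadm.inc.sublist hsl
    rw [List.pairwise_map] at h
    unfold subList
    rw [List.pairwise_map]
    exact h
  · -- nb
    intro z hz i hi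
    unfold subList at hz
    rw [List.mem_map] at hz
    obtain ⟨q, hq, rfl⟩ := hz
    have hqy : q.y ∈ L ++ [y] := hsl.subset (List.mem_map_of_mem hq)
    exact hadm.nb q.y hqy i hi
  · -- mem
    intro z hz
    rw [heq, List.mem_append, List.mem_singleton] at hz
    rcases hz with hz | rfl
    · exact hold.mem z hz
    · have hpos : 0 < massP P.μ fam P.w0 (fun ω g => Act P.c P.δ m ⟨y, D, v⟩ ω g) :=
        lt_of_lt_of_le hP.hps0 hpp
      obtain ⟨ω, hω, g, hg, hact⟩ := massP_pos_exists hpos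
      have hvS0 : v ∈ S0 := by
        have hcard : (v.a ω ∩ cov g v.t).card = m := hact.2
        have hne : (v.a ω ∩ cov g v.t).Nonempty := by
          rw [← Finset.card_pos, hcard]; exact hm1
        obtain ⟨γ, hγ⟩ := hne
        rw [Finset.mem_inter] at hγ
        obtain ⟨ct, hct, hvct, -⟩ := mem_cov.mp hγ.2
        obtain ⟨z, -, -, hz⟩ := hfam.cen ω hω g hg ct hct
        obtain ⟨-, u, huS0, hut⟩ := hz v.t hvct
        have : u = v := inc_inj hadm.inc (List.mem_append_left _ (hS u (hS0 huS0))) hvL hut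
        rwa [this] at huS0
      unfold subXs
      rw [Finset.mem_filter]
      refine ⟨?_, ?_⟩
      · rw [Finset.mem_image]
        refine ⟨(y.x, v), ?_, rfl⟩
        rw [Finset.mem_product]
        exact ⟨hadm.mem y hyL, hvS0⟩
      · unfold spc
        rw [subSp_mass]
        refine le_trans hpp (massP_mono P.μ fam P.hw ?_)
        intro ω1 hω1 g1 hg1 hact1
        change subAb P.ab m (Rep.node y.x v.t v.x) (g1 :: ω1) ≠ ∅
        rw [subAb_of_act hadm hyL hvL hω1 hact1]
        rw [← Finset.nonempty_iff_ne_empty, ← Finset.card_pos]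
        have hcard : (v.a ω1 ∩ cov g1 v.t).card = m := hact1.2
        rw [hcard]; exact hm1
  · -- sub
    intro z hz ω' hω' hne
    rw [heq, List.mem_append, List.mem_singleton] at hz
    rcases hz with hz | rfl
    · exact hold.sub z hz ω' hω' hne
    · obtain ⟨ω, hω, g, hg, rfl⟩ := mem_subSp.mp hω'
      change subA P.c P.δ m ⟨y, D, v⟩ (g :: ω) ≠ ∅ at hne
      change subA P.c P.δ m ⟨y, D, v⟩ (g :: ω) = subAb P.ab m (Rep.node y.x v.t v.x) (g :: ω)
      rw [subA_cons] at hne ⊢
      by_cases hact : Act P.c P.δ m ⟨y, D, v⟩ ω g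
      · rw [if_pos hact, subAb_of_act hadm hyL hvL hω hact]
      · rw [if_neg hact] at hne
        exact absurd rfl hne
  · -- tol
    intro z hz
    rw [heq, List.mem_append, List.mem_singleton] at hz
    rcases hz with hz | rfl
    · exact hold.tol z hz
    · unfold spc
      rw [subSp_mass]
      refine le_trans (massP_mono P.μ fam P.hw ?_) hpη
      intro ω hω g hg hQ
      change subAb P.ab m (Rep.node y.x v.t v.x) (g :: ω) ≠ ∅ ∧
        subA P.c P.δ m ⟨y, D, v⟩ (g :: ω) = ∅ at hQ
      obtain ⟨h1, h2⟩ := hQ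
      rw [subAb_cons] at h1
      by_cases hc : P.ab y.x ω = P.ab v.x ω ∧ P.ab y.x ω ≠ ∅ ∧
          (P.ab v.x ω ∩ cov g v.t).card = m
      · rw [if_pos hc] at h1
        refine ⟨⟨hc.1, hc.2.1⟩, ?_⟩
        intro hev
        have hyne : y.a ω ≠ ∅ := hev.1.1
        have hvy : v.a ω = y.a ω := hev.2.1
        have hvne : v.a ω ≠ ∅ := by rw [hvy]; exact hyne
        have hva : v.a ω = P.ab v.x ω := hadm.sub v hvL ω hω hvne
        have hact : Act P.c P.δ m ⟨y, D, v⟩ ω g := by
          refine ⟨hev, ?_⟩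
          change (v.a ω ∩ cov g v.t).card = m
          rw [hva]; exact hc.2.2
        rw [subA_cons, if_pos hact] at h2
        change v.a ω ∩ cov g v.t = ∅ at h2
        rw [hva] at h2
        exact h1 h2
      · rw [if_neg hc] at h1
        exact absurd rfl h1

/-- the strategy of the sub-game `m` is correct -/
theorem subStrat_spec (P : Par k) {η κ κ0 : ℝ} {N M0 : ℕ} (hP : ParOK P η κ κ0 N M0)
    (fam : Hyp k → Finset (Expert k)) {S0 : Finset (Inp k)} (hS0 : S0.card ≤ N)
    {m : ℕ} (hm : 1 ≤ m) (hmj : m < P.j) :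
    SubOK P fam S0 m (subStrat P fam S0 m) := by
  have hex : ∃ f, SubOK P fam S0 m f := by
    have hcl := hP.hsub m hm hmj (spc P fam) (subXs (spc P fam) P.Xs P.ab P.ps S0 m)
      (subAb P.ab m) ?_ ?_ ?_
    · exact hcl
    · -- number of representatives
      unfold subXs
      refine le_trans (Finset.card_filter_le _ _) (le_trans Finset.card_image_le ?_)
      rw [Finset.card_product]
      exact Nat.mul_le_mul hP.hXs hS0
    · -- size of the values
      intro x hx ω' hω' hne
      unfold subXs at hx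
      rw [Finset.mem_filter, Finset.mem_image] at hx
      obtain ⟨⟨q, hq, rfl⟩, -⟩ := hx
      obtain ⟨ω, hω, g, hg, rfl⟩ := mem_subSp.mp hω'
      rw [subAb_cons] at hne ⊢
      by_cases hc : P.ab q.1 ω = P.ab q.2.x ω ∧ P.ab q.1 ω ≠ ∅ ∧
          (P.ab q.2.x ω ∩ cov g q.2.t).card = m
      · rw [if_pos hc]
        exact hc.2.2
      · rw [if_neg hc] at hne
        exact absurd rfl hne
    · -- weight
      intro x hx
      unfold subXs at hx
      rw [Finset.mem_filter] at hx
      exact hx.2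
  unfold subStrat
  rw [dif_pos hex]
  exact hex.choose_spec

end Pool.Agent.H45.OC
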