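import Pool.Agent.H45.OC.Fam
import Pool.Agent.H45.OC.MachA
import Pool.Agent.H45.OC.SubStep

/-!
# The invariant: a normal step of a sub-game

Module MACHB.

The list of the sub-game `m` is extended by the entry `q = ⟨y, nbS st.S y, v⟩`, the lists of the
other sub-games do not change.  `adm` is `subAdm_append`; `good` for `m` is `subStrat_spec`
applied to the new list.  `prop`: let `(u, i) ∈ st.hist` with `u.t ∈ y.nb` and `i` equal to the
new colour `subCol P e m c'`, `c' < Msub`.  Since `i ≥ base P e`, the second alternative of `cols`
holds for some `m'` and `q' ∈ run ..`, `q'.2 < Msub` (field `good`), and comparing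
`(m' - 1) * Msub + q'.2 = (m - 1) * Msub + c'` gives `m' = m`, `q'.2 = c'`; this contradicts the
third part of `good_concat` (`q'.1.t = u.t ∈ y.nb`).  `cols`: for old pairs use
`run f (L ++ [y]) = run f L ++ ..` (`run_concat`).  `cnt`: the sum of the lengths over
`m ∈ range j` increases by one.
-/

set_option autoImplicit false

open Finset

noncomputable section

namespace Pool.Agent.H45.OC

open Classical

variable {k : ℕ}

theorem inv_normal {P : Par k} {η κ κ0 Lam : ℝ} {N M0 : ℕ} (hP : ParOK P η κ κ0 N M0)
    {L : List (Inp k)} {st : St k} {y v : Inp k} {m : ℕ}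
    (hI : Inv P (P.c * P.δ * P.r) Lam L st) (hadm : Adm P.μ P.Xs P.ab η (L ++ [y]))
    (hN : (L ++ [y]).length ≤ N) (hr : P.r ≤ (nbS st.S y).card)
    (hpick : Pick P st.fam (nbS st.S y) y v m)
    (hmass : (spc P st.fam).mass
      (Refuted (subList P m (st.sub m ++ [⟨y, nbS st.S y, v⟩]))) < P.κs)
    (hlen : (st.sub m).length < P.N1) :
    Inv P (P.c * P.δ * P.r) Lam (L ++ [y])
      { st with
        hist := st.hist ++ [(y, subCol P st.e m
          (subStrat P st.fam st.S0 m (subList P m (st.sub m ++ [⟨y, nbS st.S y, v⟩]))))]
        sub := Function.update st.sub m (st.sub m ++ [⟨y, nbS st.S y, v⟩]) } := by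
  set D := nbS st.S y with hD
  set q : Ent k := ⟨y, D, v⟩ with hq
  set f := subStrat P st.fam st.S0 m with hf
  have hm1 : 1 ≤ m := hpick.2.1
  have hmj : m < P.j := hpick.2.2.1
  have hincL : (L ++ [y]).Pairwise (fun y y' => y.t < y'.t) := hadm.inc
  have hincL' : L.Pairwise (fun y y' => y.t < y'.t) :=
    hincL.sublist (List.sublist_append_left L [y])
  have hSL : ∀ u ∈ st.S, u ∈ L := hI.S_sub
  have hfam : FamInv P.μ (L ++ [y]) st.S0 st.fam (P.c * P.δ * P.r) :=
    hI.fam.mono (List.sublist_append_left L [y]) (Finset.Subset.refl _)
      (fun u hu u' hu' he => inc_inj hincL' (hSL u (hI.S0S hu)) (hSL u' (hI.S0S hu')) he)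
  have hS0N : st.S0.card ≤ N := by
    have h1 := Finset.card_le_card hI.S0S
    have h2 := hI.S_card
    have h3 : L.length ≤ (L ++ [y]).length := by simp
    omega
  have hsubL : subList P m (st.sub m ++ [q]) = subList P m (st.sub m) ++ [subInp P.c P.δ m q] := by
    simp [subList]
  have hadmNew : Adm (spc P st.fam) (subXs (spc P st.fam) P.Xs P.ab P.ps st.S0 m)
      (subAb P.ab m) P.ηs (subList P m (st.sub m ++ [q])) :=
    subAdm_append P hP hadm hSL hI.S0S
      (show D ⊆ st.S from fun u hu => (mem_nbS.mp hu).1) hfam (hI.subl m) (hI.adm m) hpick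
  have hgoodNew : Good f (subList P m (st.sub m ++ [q])) P.Msub := by
    apply subStrat_spec P hP st.fam hS0N hm1 hmj _ hadmNew
    · simp only [subList, List.length_map, List.length_append, List.length_singleton]
      omega
    · exact hmass
  set c' := f (subList P m (st.sub m ++ [q])) with hc'
  have hcr : P.r ≤ subCol P st.e m c' := by
    unfold subCol base
    omega
  have hgc := hgoodNew
  rw [hsubL, good_concat, ← hsubL] at hgc
  obtain ⟨hg1, hg2, hg3⟩ := hgc
  constructor
  · simp only [List.map_append, hI.hist, List.map_cons, List.map_nil]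
  · intro u
    rw [hI.memS u]
    constructor
    · rintro ⟨i, hi, hu⟩
      exact ⟨i, hi, List.mem_append_left _ hu⟩
    · rintro ⟨i, hi, hu⟩
      rcases List.mem_append.mp hu with hu | hu
      · exact ⟨i, hi, hu⟩
      · exfalso
        rw [List.mem_singleton, Prod.mk.injEq] at hu
        omega
  · exact hI.S0S
  · exact hfam
  · intro m' q' hq'
    by_cases hmm : m' = m
    · subst hmm
      dsimp only at hq'
      rw [Function.update_self] at hq'
      rcases List.mem_append.mp hq' with h | h
      · exact hI.ent m' q' h
      · rw [List.mem_singleton] at h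
        subst h
        exact ⟨fun u hu => (mem_nbS.mp hu).1, hr, fun u hu => (mem_nbS.mp hu).2, hpick.1⟩
    · dsimp only at hq'
      rw [Function.update_of_ne hmm] at hq'
      exact hI.ent m' q' hq'
  · intro m'
    dsimp only
    by_cases hmm : m' = m
    · subst hmm
      rw [Function.update_self, List.map_append]
      exact (hI.subl m').append (List.Sublist.refl _)
    · rw [Function.update_of_ne hmm]
      exact (hI.subl m').trans (List.sublist_append_left L [y])
  · intro m'
    dsimp only
    by_cases hmm : m' = m
    · subst hmm
      rw [Function.update_self, List.length_append, List.length_singleton]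
      omega
    · rw [Function.update_of_ne hmm]
      exact hI.len m'
  · intro m'
    dsimp only
    by_cases hmm : m' = m
    · subst hmm
      rw [Function.update_self]
      exact hadmNew
    · rw [Function.update_of_ne hmm]
      exact hI.adm m'
  · intro m'
    dsimp only
    by_cases hmm : m' = m
    · subst hmm
      rw [Function.update_self]
      exact hgoodNew
    · rw [Function.update_of_ne hmm]
      exact hI.good m'
  · intro q0 hq0
    dsimp only at hq0 ⊢
    rcases List.mem_append.mp hq0 with h | h
    · rcases hI.cols q0 h with h1 | ⟨m', hm'1, hm'2, q', hq', h2, h3⟩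
      · exact Or.inl h1
      · right
        refine ⟨m', hm'1, hm'2, q', ?_, h2, h3⟩
        by_cases hmm : m' = m
        · subst hmm
          rw [Function.update_self, hsubL, run_concat]
          exact List.mem_append_left _ hq'
        · rw [Function.update_of_ne hmm]
          exact hq'
    · right
      rw [List.mem_singleton] at h
      subst h
      refine ⟨m, hm1, hmj, (subInp P.c P.δ m q, c'), ?_, rfl, rfl⟩
      rw [Function.update_self, hsubL, run_concat, ← hsubL]
      apply List.mem_append_right
      rw [List.mem_singleton]
  · dsimp only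
    rw [List.pairwise_append]
    refine ⟨hI.prop, List.pairwise_singleton _ _, ?_⟩
    intro u hu y' hy' hnb heq
    rw [List.mem_singleton] at hy'
    subst hy'
    dsimp only at hnb heq
    rcases hI.cols u hu with h1 | ⟨m', hm'1, hm'2, q', hq', h2, h3⟩
    · rw [heq] at h1
      unfold subCol at h1
      omega
    · have h4 : q'.2 < P.Msub := (hI.good m').1 q' hq'
      rw [heq] at h3
      unfold subCol at h3
      have h5 : (m - 1) * P.Msub + c' = (m' - 1) * P.Msub + q'.2 := by omega
      have hM : 0 < P.Msub := by omega
      have h6 : m - 1 = m' - 1 := by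
        have e1 : ((m - 1) * P.Msub + c') / P.Msub = m - 1 := by
          rw [mul_comm, Nat.mul_add_div hM, Nat.div_eq_of_lt hg2, add_zero]
        have e2 : ((m' - 1) * P.Msub + q'.2) / P.Msub = m' - 1 := by
          rw [mul_comm, Nat.mul_add_div hM, Nat.div_eq_of_lt h4, add_zero]
        rw [← e1, ← e2, h5]
      have h7 : m' = m := by omega
      subst h7
      have h8 : q'.2 = c' := by omega
      refine hg3 q' hq' ?_ h8
      rw [h2]
      exact hnb
  · obtain ⟨nf, nt, h1, h2, h3⟩ := hI.cnt
    refine ⟨nf, nt, h1, h2, ?_⟩
    dsimp only
    have h4 : ∑ m' ∈ Finset.range P.j,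
        (Function.update st.sub m (st.sub m ++ [q]) m').length =
        ∑ m' ∈ Finset.range P.j, (st.sub m').length + 1 := by
      have hmem : m ∈ Finset.range P.j := Finset.mem_range.mpr hmj
      rw [← Finset.add_sum_erase _ _ hmem, ← Finset.add_sum_erase (Finset.range P.j)
        (fun m' => (st.sub m').length) hmem, Function.update_self, List.length_append,
        List.length_singleton]
      have h5 : ∑ x ∈ (Finset.range P.j).erase m,
          (Function.update st.sub m (st.sub m ++ [q]) x).length =
          ∑ x ∈ (Finset.range P.j).erase m, (st.sub x).length := by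
        apply Finset.sum_congr rfl
        intro x hx
        rw [Function.update_of_ne (Finset.ne_of_mem_erase hx)]
      rw [h5]
      ring
    rw [h4, List.length_append, List.length_singleton]
    omega

end Pool.Agent.H45.OC
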