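import Pool.Agent.H45.OC.State

/-!
# The potential

Module POT.  Every failure increases the potential: for fixed `ω ∈ μ.sp` put
`W = W fam w0 ω`, `q = (∑ of w0 ^ |g| over the g ∈ fam ω with Q ω g) / W`.  The new weight is at
most `W (1 - q/2)`, so if the new family is nonempty, then
`- log W' ≥ - log W - log (1 - q/2) ≥ - log W + q/2`; if it is empty and the old one was not, the
value jumps from `- log W ≤ Lam * log (1/w0)` (as `W ≥ w0 ^ |g|` for some `g`, `|g| ≤ Lam`) to
`Lam * log (1/w0) + 1`, and `q/2 ≤ 1`.  If the old family is empty then so is the new one and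
`q = 0`.
-/

set_option autoImplicit false

open Finset

noncomputable section

namespace Pool.Agent.H45.OC

open Classical

variable {k : ℕ}

theorem phi_init (μ : Sp k) (w0 Lam : ℝ) :
    Phi μ (fun _ => ({[]} : Finset (Expert k))) w0 Lam = 0 := by
  unfold Phi W
  apply Finset.sum_eq_zero
  intro ω _
  simp

theorem W_pos {fam : Hyp k → Finset (Expert k)} {w0 : ℝ} (hw : 0 < w0) {ω : Hyp k}
    (h : fam ω ≠ ∅) : 0 < W fam w0 ω := by
  apply Finset.sum_pos
  · intro g _
    positivity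
  · exact Finset.nonempty_iff_ne_empty.mpr h

/-- the value of the potential at one hypothesis with a nonempty family -/
theorem neg_log_W_le {fam : Hyp k → Finset (Expert k)} {w0 Lam : ℝ} (hw : 0 < w0)
    (hw1 : w0 ≤ 1) {ω : Hyp k} (h : fam ω ≠ ∅)
    (hlen : ∀ g ∈ fam ω, (g.length : ℝ) ≤ Lam) :
    - Real.log (W fam w0 ω) ≤ Lam * Real.log (1 / w0) := by
  obtain ⟨g, hg⟩ := Finset.nonempty_iff_ne_empty.mpr h
  have h1 : w0 ^ g.length ≤ W fam w0 ω := by
    unfold W
    exact Finset.single_le_sum (f := fun g : Expert k => w0 ^ g.length)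
      (fun g _ => by positivity) hg
  have h2 : Real.log (w0 ^ g.length) ≤ Real.log (W fam w0 ω) :=
    Real.log_le_log (by positivity) h1
  rw [Real.log_pow] at h2
  have h3 : Real.log (1 / w0) = - Real.log w0 := by
    rw [one_div, Real.log_inv]
  have h4 : Real.log w0 ≤ 0 := Real.log_nonpos hw.le hw1
  have h5 := hlen g hg
  rw [h3]
  nlinarith

theorem phi_le {μ : Sp k} {fam : Hyp k → Finset (Expert k)} {w0 Lam : ℝ} (hw : 0 < w0)
    (hw1 : w0 ≤ 1) (hLam : 0 ≤ Lam)
    (hlen : ∀ ω ∈ μ.sp, ∀ g ∈ fam ω, (g.length : ℝ) ≤ Lam) :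
    Phi μ fam w0 Lam ≤ Lam * Real.log (1 / w0) + 1 := by
  have hlog : 0 ≤ Real.log (1 / w0) := by
    apply Real.log_nonneg
    rw [le_div_iff₀ hw]
    linarith
  have hnn : 0 ≤ Lam * Real.log (1 / w0) + 1 := by positivity
  unfold Phi
  calc _ ≤ ∑ ω ∈ μ.sp, μ.P ω * (Lam * Real.log (1 / w0) + 1) := by
        apply Finset.sum_le_sum
        intro ω hω
        apply mul_le_mul_of_nonneg_left _ (μ.nonneg ω)
        split_ifs with h
        · exact le_refl _
        · have := neg_log_W_le hw hw1 h (hlen ω hω)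
          linarith
    _ = (∑ ω ∈ μ.sp, μ.P ω) * (Lam * Real.log (1 / w0) + 1) := by rw [Finset.sum_mul]
    _ ≤ 1 * (Lam * Real.log (1 / w0) + 1) := mul_le_mul_of_nonneg_right μ.total hnn
    _ = _ := one_mul _

/-- the new total weight -/
theorem W_upd_le {fam : Hyp k → Finset (Expert k)} {w0 : ℝ} (hw : 0 < w0)
    (S : Finset (Inp k)) (Q : Hyp k → Expert k → Prop)
    (ch : Hyp k → Expert k → Finset (Expert k)) {ω : Hyp k}
    (hch : ∀ g ∈ fam ω, Q ω g → ∑ g' ∈ ch ω g, w0 ^ g'.length ≤ w0 ^ g.length / 2) :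
    W (upd S fam Q ch) w0 ω ≤
      W fam w0 ω - (∑ g ∈ (fam ω).filter (Q ω), w0 ^ g.length) / 2 := by
  unfold W
  have hpos : ∀ g : Expert k, 0 ≤ w0 ^ g.length := fun g => by positivity
  have h1 : ∑ g ∈ upd S fam Q ch ω, w0 ^ g.length ≤
      ∑ g ∈ (fam ω).filter (fun g => ¬ Q ω g), w0 ^ g.length +
        ∑ g ∈ ((fam ω).filter (Q ω)).biUnion (ch ω), w0 ^ g.length := by
    unfold upd
    calc _ ≤ ∑ g ∈ (fam ω).filter (fun g => ¬ Q ω g) ∪
          ((fam ω).filter (Q ω)).biUnion (ch ω), w0 ^ g.length :=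
          Finset.sum_le_sum_of_subset_of_nonneg (Finset.filter_subset _ _)
            (fun g _ _ => hpos g)
      _ ≤ _ := by
          rw [← Finset.sum_union_inter]
          exact le_add_of_nonneg_right (Finset.sum_nonneg fun g _ => hpos g)
  have h2 : ∑ g ∈ ((fam ω).filter (Q ω)).biUnion (ch ω), w0 ^ g.length ≤
      ∑ g ∈ (fam ω).filter (Q ω), ∑ g' ∈ ch ω g, w0 ^ g'.length := by
    have hg : ∀ T : Finset (Expert k), ∑ g ∈ T.biUnion (ch ω), w0 ^ g.length ≤
        ∑ g ∈ T, ∑ g' ∈ ch ω g, w0 ^ g'.length := by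
      intro T
      induction T using Finset.induction_on with
      | empty => simp
      | insert a T ha ih =>
        rw [Finset.biUnion_insert, Finset.sum_insert ha]
        have h3 : ∑ g ∈ ch ω a ∪ T.biUnion (ch ω), w0 ^ g.length ≤
            ∑ g ∈ ch ω a, w0 ^ g.length + ∑ g ∈ T.biUnion (ch ω), w0 ^ g.length := by
          rw [← Finset.sum_union_inter]
          exact le_add_of_nonneg_right (Finset.sum_nonneg fun g _ => hpos g)
        linarith
    exact hg _
  have h3 : ∑ g ∈ (fam ω).filter (Q ω), ∑ g' ∈ ch ω g, w0 ^ g'.length ≤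
      ∑ g ∈ (fam ω).filter (Q ω), w0 ^ g.length / 2 := by
    apply Finset.sum_le_sum
    intro g hg
    rw [Finset.mem_filter] at hg
    exact hch g hg.1 hg.2
  rw [← Finset.sum_div] at h3
  have h4 : ∑ g ∈ (fam ω).filter (Q ω), w0 ^ g.length +
      ∑ g ∈ (fam ω).filter (fun g => ¬ Q ω g), w0 ^ g.length =
      ∑ g ∈ fam ω, w0 ^ g.length := Finset.sum_filter_add_sum_filter_not _ _ _
  linarith

theorem phi_upd {μ : Sp k} {fam : Hyp k → Finset (Expert k)} {w0 Lam : ℝ} (hw : 0 < w0)
    (hw1 : w0 ≤ 1) (hLam : 0 ≤ Lam)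
    (hlen : ∀ ω ∈ μ.sp, ∀ g ∈ fam ω, (g.length : ℝ) ≤ Lam)
    (S : Finset (Inp k)) (Q : Hyp k → Expert k → Prop)
    (ch : Hyp k → Expert k → Finset (Expert k))
    (hch : ∀ ω ∈ μ.sp, ∀ g ∈ fam ω, Q ω g →
      ∑ g' ∈ ch ω g, w0 ^ g'.length ≤ w0 ^ g.length / 2) :
    Phi μ fam w0 Lam + massP μ fam w0 Q / 2 ≤ Phi μ (upd S fam Q ch) w0 Lam := by
  unfold Phi massP
  rw [Finset.sum_div, ← Finset.sum_add_distrib]
  apply Finset.sum_le_sum
  intro ω hω
  have hP := μ.nonneg ω
  by_cases hf : fam ω = ∅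
  · have hf' : upd S fam Q ch ω = ∅ := by
      unfold upd
      rw [hf]
      simp
    rw [hf, hf']
    simp
  · have hW := W_pos (w0 := w0) hw hf
    set A : ℝ := ∑ g ∈ (fam ω).filter (Q ω), w0 ^ g.length with hA
    have hA0 : 0 ≤ A := Finset.sum_nonneg fun g _ => by positivity
    have hAW : A ≤ W fam w0 ω := by
      rw [hA]
      exact Finset.sum_le_sum_of_subset_of_nonneg (Finset.filter_subset _ _)
        (fun g _ _ => by positivity)
    have hq : ∑ g ∈ (fam ω).filter (Q ω), pw μ fam w0 ω g = μ.P ω * (A / W fam w0 ω) := by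
      unfold pw
      rw [← Finset.sum_div, ← Finset.mul_sum, ← hA, mul_div_assoc]
    have hq1 : A / W fam w0 ω ≤ 1 := by
      rw [div_le_one hW]
      exact hAW
    have hq0 : 0 ≤ A / W fam w0 ω := by positivity
    rw [hq, if_neg hf]
    have key : - Real.log (W fam w0 ω) + A / W fam w0 ω / 2 ≤
        (if upd S fam Q ch ω = ∅ then Lam * Real.log (1 / w0) + 1
          else - Real.log (W (upd S fam Q ch) w0 ω)) := by
      split_ifs with hf'
      · have := neg_log_W_le hw hw1 hf (hlen ω hω)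
        linarith
      · have h1 := W_upd_le hw S Q ch (hch ω hω)
        rw [← hA] at h1
        have h2 := W_pos (w0 := w0) hw hf'
        have h3 : W fam w0 ω - A / 2 = W fam w0 ω * (1 - A / W fam w0 ω / 2) := by
          field_simp
        have h4 : 0 < 1 - A / W fam w0 ω / 2 := by linarith
        have h5 : Real.log (W (upd S fam Q ch) w0 ω) ≤
            Real.log (W fam w0 ω * (1 - A / W fam w0 ω / 2)) := by
          apply Real.log_le_log h2
          rw [← h3]
          exact h1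
        rw [Real.log_mul hW.ne' h4.ne'] at h5
        have h6 := Real.log_le_sub_one_of_pos h4
        linarith
    calc μ.P ω * -Real.log (W fam w0 ω) + μ.P ω * (A / W fam w0 ω) / 2 =
        μ.P ω * (- Real.log (W fam w0 ω) + A / W fam w0 ω / 2) := by ring
      _ ≤ _ := mul_le_mul_of_nonneg_left key hP

end Pool.Agent.H45.OC
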