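import Pool.Agent.H45.OC.Fam
import Pool.Agent.H45.OC.Pot
import Pool.Agent.H45.OC.Fail
import Pool.Agent.H45.OC.MachA

/-!
# The invariant: failures and timeouts

Module MACHC.  All three use `inv_reset`.  For a failure the new family satisfies `FamInv` with
`S = st.S` (first pass from `st.S0` to `st.S` with `FamInv.mono`, then `famInv_one` or
`famInv_two`), and the potential increases by at least `c1 / 2` (`phi_upd`, `chOne_weight`,
`chTwo_weight`; the lengths are bounded by `Lam` by `FamInv.len_le`).  For a timeout the family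
does not change, and `N1 ≤ (st.sub m).length ≤ ∑ m ∈ range j, (st.sub m).length`.
-/

set_option autoImplicit false

open Finset

noncomputable section

namespace Pool.Agent.H45.OC

open Classical

variable {k : ℕ}

theorem Inv.famS {P : Par k} {η l Lam : ℝ} {L : List (Inp k)} {st : St k} {y : Inp k}
    (hI : Inv P l Lam L st) (hadm : Adm P.μ P.Xs P.ab η (L ++ [y])) :
    FamInv P.μ (L ++ [y]) st.S st.fam l := by
  have hsub : L.Sublist (L ++ [y]) := List.sublist_append_left _ _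
  refine hI.fam.mono hsub hI.S0S ?_
  intro u hu u' hu' he
  exact inc_inj (hadm.inc.sublist hsub) (hI.S_sub u hu) (hI.S_sub u' hu') he

theorem ParOK.w0_le {P : Par k} {η κ κ0 : ℝ} {N M0 : ℕ} (hP : ParOK P η κ κ0 N M0) :
    P.w0 ≤ 1 := by
  have h1 := hP.hw
  have h2 : (3 : ℝ) ≤ k := by
    have := le_trans hP.hj hP.hk
    exact_mod_cast this
  have h3 : (0 : ℝ) ≤ P.N1 := Nat.cast_nonneg _
  have h4 := P.hw
  have h5 : (1 : ℝ) ≤ 2 * k * (P.N1 + 1) := by nlinarith
  nlinarith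

theorem ParOK.l_pos {P : Par k} {η κ κ0 : ℝ} {N M0 : ℕ} (hP : ParOK P η κ κ0 N M0) :
    0 < P.c * P.δ * P.r := by
  have h1 := hP.hc
  have h2 := hP.hδ
  have h3 : (0 : ℝ) < P.r := by
    have := hP.hr
    exact_mod_cast this
  positivity

theorem ParOK.Lam_nonneg {P : Par k} {η κ κ0 Lam : ℝ} {N M0 : ℕ} (hP : ParOK P η κ κ0 N M0)
    (hLam : (k : ℝ) * N ≤ P.c * P.δ * P.r * Lam) : 0 ≤ Lam := by
  have h1 := hP.l_pos
  have h2 : (0 : ℝ) ≤ (k : ℝ) * N := by positivity
  by_contra h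
  push Not at h
  have := mul_neg_of_pos_of_neg h1 h
  linarith

theorem ParOK.ηs_nonneg {P : Par k} {η κ κ0 : ℝ} {N M0 : ℕ} (hP : ParOK P η κ κ0 N M0) :
    0 ≤ P.ηs := by
  have h1 := hP.hηs
  have h2 := hP.hη
  have h3 := hP.hδ
  have h4 := hP.hc1
  have h5 := hP.hc
  have h6 : (0 : ℝ) ≤ (k : ℝ) * P.c := by positivity
  linarith

/-- the lengths of the experts are bounded by `Lam` -/
theorem Inv.len_le {P : Par k} {η κ κ0 Lam : ℝ} {N M0 : ℕ} (hP : ParOK P η κ κ0 N M0)
    (hLam : (k : ℝ) * N ≤ P.c * P.δ * P.r * Lam) {L : List (Inp k)} {st : St k}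
    (hI : Inv P (P.c * P.δ * P.r) Lam L st) (hN : L.length ≤ N) :
    ∀ ω ∈ P.μ.sp, ∀ g ∈ st.fam ω, (g.length : ℝ) ≤ Lam := by
  have h1 : st.S0.card ≤ N :=
    le_trans (Finset.card_le_card hI.S0S) (le_trans hI.S_card hN)
  exact hI.fam.len_le hP.l_pos h1 hLam

/-- a failure of weight at least `c1` -/
theorem inv_fail {P : Par k} {η κ κ0 Lam : ℝ} {N M0 : ℕ} (hP : ParOK P η κ κ0 N M0)
    (hLam : (k : ℝ) * N ≤ P.c * P.δ * P.r * Lam)
    {L : List (Inp k)} {st : St k} {y : Inp k}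
    (hI : Inv P (P.c * P.δ * P.r) Lam L st) (hadm : Adm P.μ P.Xs P.ab η (L ++ [y]))
    (hN : (L ++ [y]).length ≤ N) (Q : Hyp k → Expert k → Prop)
    (ch : Hyp k → Expert k → Finset (Expert k))
    (hch : ∀ ω ∈ P.μ.sp, ∀ g ∈ st.fam ω, Q ω g →
      ∑ g' ∈ ch ω g, P.w0 ^ g'.length ≤ P.w0 ^ g.length / 2)
    (hfam : FamInv P.μ (L ++ [y]) st.S (upd st.S st.fam Q ch) (P.c * P.δ * P.r))
    (hQ : P.c1 ≤ massP P.μ st.fam P.w0 Q) :
    Inv P (P.c * P.δ * P.r) Lam (L ++ [y])
      { hist := st.hist ++ [(y, base P st.e)]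
        S := st.S
        fam := upd st.S st.fam Q ch
        S0 := st.S
        e := st.e + 1
        sub := fun _ => [] } := by
  have hNL : L.length ≤ N := by
    rw [List.length_append] at hN
    omega
  apply inv_reset hI hadm hP.ηs_nonneg hfam
  obtain ⟨nf, nt, h1, h2, h3⟩ := hI.cnt
  refine ⟨nf + 1, nt, by omega, ?_, by omega⟩
  have h4 := phi_upd P.hw hP.w0_le (hP.Lam_nonneg hLam) (Inv.len_le hP hLam hI hNL) st.S Q ch hch
  push_cast
  linarith

theorem inv_failOne {P : Par k} {η κ κ0 Lam : ℝ} {N M0 : ℕ} (hP : ParOK P η κ κ0 N M0)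
    (hLam : (k : ℝ) * N ≤ P.c * P.δ * P.r * Lam)
    {L : List (Inp k)} {st : St k} {y : Inp k}
    (hI : Inv P (P.c * P.δ * P.r) Lam L st) (hadm : Adm P.μ P.Xs P.ab η (L ++ [y]))
    (hN : (L ++ [y]).length ≤ N) (hr : P.r ≤ (nbS st.S y).card)
    (hB : P.c1 ≤ massP P.μ st.fam P.w0 (Bone P.c P.δ (nbS st.S y) y)) :
    Inv P (P.c * P.δ * P.r) Lam (L ++ [y])
      { hist := st.hist ++ [(y, base P st.e)]
        S := st.S
        fam := upd st.S st.fam (Bone P.c P.δ (nbS st.S y) y) (chOne (nbS st.S y) y)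
        S0 := st.S
        e := st.e + 1
        sub := fun _ => [] } :=
  inv_fail hP hLam hI hadm hN _ _
    (fun _ _ _ _ _ => chOne_weight P.hw hP.hw _ _ _ _)
    (famInv_one P hP hadm hI.S_sub (hI.famS hadm) hr) hB

theorem inv_failTwo {P : Par k} {η κ κ0 Lam : ℝ} {N M0 : ℕ} (hP : ParOK P η κ κ0 N M0)
    (hLam : (k : ℝ) * N ≤ P.c * P.δ * P.r * Lam)
    {L : List (Inp k)} {st : St k} {y v : Inp k} {m : ℕ}
    (hI : Inv P (P.c * P.δ * P.r) Lam L st) (hadm : Adm P.μ P.Xs P.ab η (L ++ [y]))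
    (hN : (L ++ [y]).length ≤ N) (hr : P.r ≤ (nbS st.S y).card)
    (hv : v ∈ nbS st.S y)
    (hmass : P.κs ≤ (spc P st.fam).mass
      (Refuted (subList P m (st.sub m ++ [⟨y, nbS st.S y, v⟩])))) :
    Inv P (P.c * P.δ * P.r) Lam (L ++ [y])
      { hist := st.hist ++ [(y, base P st.e)]
        S := st.S
        fam := upd st.S st.fam (fun ω g => Refuted (subList P m
          (st.sub m ++ [⟨y, nbS st.S y, v⟩])) (g :: ω))
          (chTwo P.c P.δ m (st.sub m ++ [⟨y, nbS st.S y, v⟩]))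
        S0 := st.S
        e := st.e + 1
        sub := fun _ => [] } := by
  apply inv_fail hP hLam hI hadm hN
  · intro ω _ g _ _
    apply chTwo_weight P.hw hP.hw
    rw [List.length_append, List.length_singleton]
    have := hI.len m
    omega
  · apply famInv_two P hP hadm
    · intro u hu
      rw [List.mem_append]
      exact Or.inl (hI.S_sub u hu)
    · exact hI.famS hadm
    · rw [List.map_append]
      exact (hI.subl m).append (List.Sublist.refl _)
    · intro q hq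
      rw [List.mem_append, List.mem_singleton] at hq
      rcases hq with hq | rfl
      · exact hI.ent m q hq
      · exact ⟨Finset.filter_subset _ _, hr, fun u hu => (mem_nbS.mp hu).2, hv⟩
  · have h1 : (spc P st.fam).mass (Refuted (subList P m (st.sub m ++ [⟨y, nbS st.S y, v⟩]))) =
        massP P.μ st.fam P.w0 (fun ω g => Refuted (subList P m
          (st.sub m ++ [⟨y, nbS st.S y, v⟩])) (g :: ω)) := subSp_mass _ _ _ _ _
    rw [h1] at hmass
    exact le_trans hP.hc1s hmass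

theorem inv_timeout {P : Par k} {η κ κ0 Lam : ℝ} {N M0 : ℕ} (hP : ParOK P η κ κ0 N M0)
    {L : List (Inp k)} {st : St k} {y : Inp k} {m : ℕ}
    (hI : Inv P (P.c * P.δ * P.r) Lam L st) (hadm : Adm P.μ P.Xs P.ab η (L ++ [y]))
    (hm : m < P.j) (hlen : P.N1 ≤ (st.sub m).length) :
    Inv P (P.c * P.δ * P.r) Lam (L ++ [y])
      { hist := st.hist ++ [(y, base P st.e)]
        S := st.S
        fam := st.fam
        S0 := st.S
        e := st.e + 1
        sub := fun _ => [] } := by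
  apply inv_reset hI hadm hP.ηs_nonneg (hI.famS hadm)
  obtain ⟨nf, nt, h1, h2, h3⟩ := hI.cnt
  refine ⟨nf, nt + 1, by omega, h2, ?_⟩
  have h4 : (st.sub m).length ≤ ∑ m ∈ Finset.range P.j, (st.sub m).length :=
    Finset.single_le_sum (f := fun m => (st.sub m).length) (fun _ _ => Nat.zero_le _)
      (Finset.mem_range.mpr hm)
  have h5 : (nt + 1) * P.N1 = nt * P.N1 + P.N1 := by ring
  omega

end Pool.Agent.H45.OC
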