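import Pool.Agent.H45.OC.Pick
import Pool.Agent.H45.OC.MachB
import Pool.Agent.H45.OC.MachC

/-!
# The step of the recursion: assembly

Module MACHD.  `step_inv` distinguishes the branches of `step` (`h.choose_spec`); the last branch
is impossible by `exists_pick` (use `FamInv.mono` to pass from `S0` to `S`, `FamInv.mass_empty`).
`exec_inv` is by induction on the reversed list; its hypotheses pass to prefixes
(`Adm.sublist`, `mass_refuted_mono`).  `good_strat`: `run_strat`, `Inv.prop`, `Inv.cols_lt`, and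
`e + 1 ≤ E` from `Inv.cnt`, `phi_le`, `FamInv.len_le`.  `claimPA_of_sub`: take
`w0 = 1 / (2 k (N1 + 1))`, `Lam = k N / (c δ r)`.
-/

set_option autoImplicit false

open Finset

noncomputable section

namespace Pool.Agent.H45.OC

open Classical

variable {k : ℕ}

theorem inv_init (P : Par k) (l Lam : ℝ) : Inv P l Lam [] (St.init k) := by
  refine
    { hist := rfl
      memS := by
        intro u
        simp [St.init]
      S0S := Finset.Subset.refl _
      fam := FamInv.init P.μ l
      ent := by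
        intro m q hq
        simp [St.init] at hq
      subl := by
        intro m
        simp [St.init]
      len := by
        intro m
        simp [St.init]
      adm := by
        intro m
        constructor <;> simp [St.init, subList]
      good := by
        intro m
        exact good_nil _ _
      cols := by
        intro q hq
        simp [St.init] at hq
      prop := by
        simp [St.init]
      cnt := ⟨0, 0, rfl, ?_, ?_⟩ }
  · have : Phi P.μ (St.init k).fam P.w0 Lam = 0 := phi_init P.μ P.w0 Lam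
    rw [this]
    simp
  · simp [St.init]

theorem step_inv {P : Par k} {η κ κ0 Lam : ℝ} {N M0 : ℕ} (hP : ParOK P η κ κ0 N M0)
    (hLam : (k : ℝ) * N ≤ P.c * P.δ * P.r * Lam)
    {L : List (Inp k)} {st : St k} {y : Inp k}
    (hI : Inv P (P.c * P.δ * P.r) Lam L st) (hadm : Adm P.μ P.Xs P.ab η (L ++ [y]))
    (hN : (L ++ [y]).length ≤ N) (hm : P.μ.mass (Refuted (L ++ [y])) < κ) :
    Inv P (P.c * P.δ * P.r) Lam (L ++ [y]) (step P st y) := by
  have hsub : L.Sublist (L ++ [y]) := List.sublist_append_left _ _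
  have hinc : L.Pairwise (fun y y' => y.t < y'.t) := hadm.inc.sublist hsub
  unfold step
  by_cases h1 : ∃ i, i < P.r ∧ Free st y i
  · rw [dif_pos h1]
    exact inv_first hI hadm h1.choose_spec.1 h1.choose_spec.2
  rw [dif_neg h1]
  have hr : P.r ≤ (nbS st.S y).card := hI.le_card_nbS hinc h1
  by_cases h2 : P.c1 ≤ massP P.μ st.fam P.w0 (Bone P.c P.δ (nbS st.S y) y)
  · rw [if_pos h2]
    exact inv_failOne hP hLam hI hadm hN hr h2
  rw [if_neg h2]
  by_cases h3 : ∃ q : Inp k × ℕ, Pick P st.fam (nbS st.S y) y q.1 q.2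
  · rw [dif_pos h3]
    have hp := h3.choose_spec
    by_cases h4 : P.κs ≤ (spc P st.fam).mass (Refuted (subList P h3.choose.2
        (st.sub h3.choose.2 ++ [⟨y, nbS st.S y, h3.choose.1⟩])))
    · rw [if_pos h4]
      exact inv_failTwo hP hLam hI hadm hN hr hp.1 h4
    rw [if_neg h4]
    by_cases h5 : P.N1 ≤ (st.sub h3.choose.2).length
    · rw [if_pos h5]
      exact inv_timeout hP hI hadm hp.2.2.1 h5
    rw [if_neg h5]
    exact inv_normal hP hI hadm hN hr hp (not_le.1 h4) (not_le.1 h5)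
  · exfalso
    have hinj : ∀ u ∈ st.S, ∀ u' ∈ st.S, u.t = u'.t → u = u' := fun u hu u' hu' he =>
      inc_inj hinc (hI.S_sub u hu) (hI.S_sub u' hu') he
    have hfam : FamInv P.μ L st.S st.fam (P.c * P.δ * P.r) :=
      hI.fam.mono (List.Sublist.refl L) hI.S0S hinj
    apply h3
    refine exists_pick P hP st.fam hadm ?_ ?_ ?_ ?_ (not_le.1 h2)
    · intro u hu
      exact hI.S_sub u (mem_nbS.1 hu).1
    · rw [← Finset.card_pos]
      exact lt_of_lt_of_le hP.hr hr
    · exact hfam.mass_empty.trans ((mass_refuted_mono P.μ hsub).trans hm.le)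
    · intro ω hω g hg u hu
      exact hfam.alive ω hω g hg u (mem_nbS.1 hu).1

theorem exec_concat (P : Par k) (L : List (Inp k)) (y : Inp k) :
    exec P (L ++ [y]) = step P (exec P L) y := by
  unfold exec
  rw [List.foldl_append, List.foldl_cons, List.foldl_nil]

theorem exec_inv {P : Par k} {η κ κ0 Lam : ℝ} {N M0 : ℕ} (hP : ParOK P η κ κ0 N M0)
    (hLam : (k : ℝ) * N ≤ P.c * P.δ * P.r * Lam)
    (L : List (Inp k)) (hadm : Adm P.μ P.Xs P.ab η L)
    (hN : L.length ≤ N) (hm : P.μ.mass (Refuted L) < κ) :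
    Inv P (P.c * P.δ * P.r) Lam L (exec P L) := by
  induction L using List.reverseRecOn with
  | nil => exact inv_init P _ _
  | append_singleton L y ih =>
    have hsub : L.Sublist (L ++ [y]) := List.sublist_append_left _ _
    rw [exec_concat]
    refine step_inv hP hLam (ih (hadm.sublist hsub) (hsub.length_le.trans hN)
      (lt_of_le_of_lt (mass_refuted_mono P.μ hsub) hm)) hadm hN hm

theorem step_hist (P : Par k) (st : St k) (y : Inp k) :
    ∃ i, (step P st y).hist = st.hist ++ [(y, i)] := by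
  unfold step
  split_ifs <;> exact ⟨_, rfl⟩

theorem run_strat (P : Par k) (L : List (Inp k)) : run (strat P) L = (exec P L).hist := by
  induction L using List.reverseRecOn with
  | nil => rfl
  | append_singleton L y ih =>
    rw [run_concat, ih, exec_concat]
    obtain ⟨i, hi⟩ := step_hist P (exec P L) y
    rw [hi]
    congr 3
    unfold strat
    rw [exec_concat, hi, List.getLast?_append]
    rfl

theorem good_strat {P : Par k} {η κ κ0 Lam : ℝ} {N M0 : ℕ} (hP : ParOK P η κ κ0 N M0)
    (hLam : (k : ℝ) * N ≤ P.c * P.δ * P.r * Lam) (hLam0 : 0 ≤ Lam) (hN1 : 1 ≤ P.N1)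
    {E : ℕ} (hE : 2 * (Lam * Real.log (1 / P.w0) + 1) / P.c1 + (N : ℝ) / P.N1 + 1 ≤ E)
    (L : List (Inp k)) (hadm : Adm P.μ P.Xs P.ab η L)
    (hN : L.length ≤ N) (hm : P.μ.mass (Refuted L) < κ) :
    Good (strat P) L (P.r + E * (1 + (P.j - 1) * P.Msub)) := by
  have hI := exec_inv hP hLam L hadm hN hm
  unfold Good
  rw [run_strat]
  refine ⟨?_, hI.prop⟩
  have hw0 : 0 < P.w0 := P.hw
  have hw1 : P.w0 ≤ 1 := by
    have h1 := hP.hw
    have h2 : (1 : ℝ) ≤ 2 * k * (P.N1 + 1) := by
      have h3 : (3 : ℝ) ≤ k := by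
        have : 3 ≤ k := hP.hj.trans hP.hk
        exact_mod_cast this
      have h4 : (0 : ℝ) ≤ P.N1 := Nat.cast_nonneg _
      nlinarith
    nlinarith
  have hl : 0 < P.c * P.δ * P.r := by
    have h1 := hP.hc
    have h2 := hP.hδ
    have h3 : (0 : ℝ) < P.r := by exact_mod_cast hP.hr
    positivity
  have hS0 : (exec P L).S0.card ≤ N :=
    (Finset.card_le_card hI.S0S).trans (hI.S_card.trans hN)
  have hlen := hI.fam.len_le hl hS0 hLam
  have hphi := phi_le (μ := P.μ) hw0 hw1 hLam0 hlen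
  obtain ⟨nf, nt, he, hnf, hnt⟩ := hI.cnt
  have hc1 := hP.hc1
  have hN1' : (0 : ℝ) < P.N1 := by exact_mod_cast hN1
  have h1 : (nf : ℝ) ≤ 2 * (Lam * Real.log (1 / P.w0) + 1) / P.c1 := by
    rw [le_div_iff₀ hc1]
    have := hnf.trans hphi
    linarith
  have h2 : (nt : ℝ) ≤ (N : ℝ) / P.N1 := by
    rw [le_div_iff₀ hN1']
    have h3 : nt * P.N1 ≤ N := by
      have : nt * P.N1 ≤ L.length := le_trans (Nat.le_add_right _ _) hnt
      exact this.trans hN
    exact_mod_cast h3
  have h3 : (exec P L).e + 1 ≤ E := by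
    have : (((exec P L).e + 1 : ℕ) : ℝ) ≤ E := by
      rw [he]
      push_cast
      linarith
    exact_mod_cast this
  intro q hq
  refine lt_of_lt_of_le (hI.cols_lt q hq) ?_
  unfold base Par.B
  exact Nat.add_le_add_left (Nat.mul_le_mul_right _ h3) _

/-- **The step of the recursion.** -/
theorem claimPA_of_sub {j N N1 r Msub M0 E : ℕ} {κ η κ0 c δ c1 κs ηs ps : ℝ}
    (hj : 3 ≤ j) (hk : j ≤ k) (hr : 1 ≤ r) (hN1 : 1 ≤ N1) (hc : 0 < c) (hδ : 0 < δ)
    (hδ1 : δ ≤ 1) (hc1 : 0 < c1) (hc1s : c1 ≤ κs) (hη : 0 ≤ η)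
    (hηs : 2 * η + δ + c1 + k * c ≤ ηs) (hps : ps ≤ κ0 / (2 * k)) (hps0 : 0 < ps)
    (hκ : κ + ηs ≤ κ0 / 2)
    (hE : 2 * ((k * N / (c * δ * r)) * Real.log (2 * k * (N1 + 1)) + 1) / c1 +
      (N : ℝ) / N1 + 1 ≤ E)
    (hsub : ∀ m, 1 ≤ m → m < j → Claim k m N1 κs ηs ps (M0 * N) Msub) :
    ClaimPA k j N κ η κ0 M0 (r + E * (1 + (j - 1) * Msub)) := by
  intro μ Xs ab hXs hab hag
  have hk3 : (3 : ℝ) ≤ k := by
    have : 3 ≤ k := hj.trans hk
    exact_mod_cast this
  have hden : (0 : ℝ) < 2 * k * (N1 + 1) := by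
    have h4 : (0 : ℝ) ≤ N1 := Nat.cast_nonneg _
    nlinarith
  have hr' : (0 : ℝ) < r := by exact_mod_cast hr
  let P : Par k :=
    { μ := μ
      Xs := Xs
      ab := ab
      j := j
      r := r
      N1 := N1
      Msub := Msub
      c := c
      δ := δ
      c1 := c1
      w0 := 1 / (2 * k * (N1 + 1))
      κs := κs
      ηs := ηs
      ps := ps
      hw := by positivity }
  have hP : ParOK P η κ κ0 N M0 :=
    { hj := hj
      hk := hk
      hr := hr
      hc := hc
      hδ := hδ
      hδ1 := hδ1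
      hc1 := hc1
      hc1s := hc1s
      hη := hη
      hw := by
        change 1 / (2 * (k : ℝ) * (N1 + 1)) * (2 * k * (N1 + 1)) ≤ 1
        rw [div_mul_cancel₀ _ hden.ne']
      hηs := hηs
      hps := hps
      hps0 := hps0
      hκ := hκ
      hXs := hXs
      hab := hab
      hag := hag
      hsub := hsub }
  have hl : 0 < c * δ * r := by positivity
  refine ⟨strat P, fun L hadm hN hm => ?_⟩
  refine good_strat hP (Lam := k * N / (c * δ * r)) ?_ (by positivity) hN1 ?_ L hadm hN hm
  · change (k : ℝ) * N ≤ c * δ * r * (k * N / (c * δ * r))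
    rw [mul_div_cancel₀ _ hl.ne']
  · change 2 * ((k * N / (c * δ * r)) * Real.log (1 / (1 / (2 * k * (N1 + 1)))) + 1) / c1 +
      (N : ℝ) / N1 + 1 ≤ E
    rw [one_div_one_div]
    exact hE

end Pool.Agent.H45.OC
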