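import Pool.Agent.H45.OC.AsymB
import Pool.Agent.H45.OC.Base
import Pool.Agent.H45.OC.Hog
import Pool.Agent.H45.OC.MachD

/-!
# The choice of the parameters

Module PARAM.

`SS k j`: for `b ≤ N ≤ n`, `b ^ (j - 1) ≤ N` the relative game with sets of size `j` can be won
with `n ^ ε * N / b` colours.
-/

set_option autoImplicit false

open Finset

noncomputable section

namespace Pool.Agent.H45.OC

/-- the statement that is proved by induction on `j` -/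
def SS (k j : ℕ) : Prop :=
  ∀ (C0 : ℕ) (ε : ℝ), 0 < ε → ∃ δ : ℝ, 0 < δ ∧ ∃ n0 : ℕ, ∀ n : ℕ, n0 ≤ n →
    ∀ b N : ℕ, 1 ≤ b → b ≤ N → N ≤ n → b ^ (j - 1) ≤ N →
      ∃ M : ℕ, (M : ℝ) ≤ (n : ℝ) ^ ε * N / b ∧
        Claim k j N ((n : ℝ) ^ (-ε)) ((n : ℝ) ^ (-(2 * ε))) ((n : ℝ) ^ (-δ)) (n ^ C0) M

theorem Adm.mono {k : ℕ} {μ : Sp k} {Xs : Finset Rep} {ab : Rep → Hyp k → Finset (Fin k)}
    {η η' : ℝ} {L : List (Inp k)} (h : Adm μ Xs ab η' L) (hη : η' ≤ η) : Adm μ Xs ab η L :=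
  ⟨h.inc, h.nb, h.mem, h.sub, fun y hy => le_trans (h.tol y hy) hη⟩

theorem Good.mono {k : ℕ} {f : List (Inp k) → ℕ} {L : List (Inp k)} {M M' : ℕ}
    (h : Good f L M) (hM : M ≤ M') : Good f L M' :=
  ⟨fun q hq => lt_of_lt_of_le (h.1 q hq) hM, h.2⟩

theorem Claim.mono {k j N N' M0 M0' M M' : ℕ} {κ κ' η η' p p' : ℝ}
    (h : Claim k j N κ η p M0 M) (hN : N' ≤ N) (hκ : κ' ≤ κ) (hη : η' ≤ η) (hp : p ≤ p')
    (hM0 : M0' ≤ M0) (hM : M ≤ M') : Claim k j N' κ' η' p' M0' M' := by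
  intro μ Xs ab h1 h2 h3
  obtain ⟨f, hf⟩ := h μ Xs ab (le_trans h1 hM0) h2 (fun x hx => le_trans hp (h3 x hx))
  refine ⟨f, fun L hL hl hm => ?_⟩
  exact (hf L (hL.mono hη) (le_trans hl hN) (lt_of_lt_of_le hm hκ)).mono hM

end Pool.Agent.H45.OC
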