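import Pool.Agent.H45.OC.Param

/-!
# The base cases of the induction

Module PARAMBASE.

`ss_one`: `claim_one` with `κc = n ^ (-ε/2)` (for large `n` at least `n ^ (-ε) + 2 n ^ (-2ε)`, use
`ev_const`), `cluster_param k C0 2 (ε/2) ε`; the number of colours is at most
`n ^ ε ≤ n ^ ε * N / b`.

`ss_two`: `claim_two` with `κc = n ^ (-ε/2)`, `l` and `a` from `hog_param (ε/2)`,
`C = 4 * hogR (l - 1) + 1`, `cluster_param k C0 C (ε/2) (ε/2)`, and `hog`.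
-/

set_option autoImplicit false

open Finset

noncomputable section

namespace Pool.Agent.H45.OC

theorem le_mul_div_of_le {n b N : ℕ} {ε x : ℝ} (hx : x ≤ (n : ℝ) ^ ε) (hb : 1 ≤ b)
    (hbN : b ≤ N) : x ≤ (n : ℝ) ^ ε * N / b := by
  have hbR : (0 : ℝ) < b := by exact_mod_cast hb
  have hbN' : (b : ℝ) ≤ N := by exact_mod_cast hbN
  rw [le_div_iff₀ hbR]
  have h0 : (0 : ℝ) ≤ (n : ℝ) ^ ε := by positivity
  calc x * b ≤ (n : ℝ) ^ ε * b := mul_le_mul_of_nonneg_right hx hbR.le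
    _ ≤ (n : ℝ) ^ ε * N := mul_le_mul_of_nonneg_left hbN' h0

theorem ss_one (k : ℕ) : SS k 1 := by
  intro C0 ε hε
  obtain ⟨δ, hδ, n1, hn1, h1⟩ := cluster_param k C0 2 (ε / 2) ε (by positivity) hε
  obtain ⟨n2, hn2, h2⟩ := ev_const 3 (-ε) (-(ε / 2)) (by linarith)
  refine ⟨δ, hδ, max n1 n2, fun n hn b N hb hbN hNn _ => ?_⟩
  have hnn1 : n1 ≤ n := le_trans (le_max_left _ _) hn
  have hnn2 : n2 ≤ n := le_trans (le_max_right _ _) hn
  have hnR : (1 : ℝ) ≤ n := by exact_mod_cast hn1.trans hnn1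
  have hn0 : (0 : ℝ) < n := by linarith
  obtain ⟨mm, J, e1, e2, e3⟩ := h1 n hnn1
  refine ⟨(2 ^ k * mm) ^ J, le_mul_div_of_le e3 hb hbN, ?_⟩
  have hp1 : (n : ℝ) ^ (-δ) ≤ 1 := Real.rpow_le_one_of_one_le_of_nonpos hnR (by linarith)
  refine claim_one (κc := (n : ℝ) ^ (-(ε / 2))) (by positivity) (by linarith) (by positivity)
    ?_ e1 e2
  have h3 : (n : ℝ) ^ (-(2 * ε)) ≤ (n : ℝ) ^ (-ε) :=
    Real.rpow_le_rpow_of_exponent_le hnR (by linarith)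
  have h4 := h2 n hnn2
  linarith

theorem ss_two (k : ℕ) : SS k 2 := by
  intro C0 ε hε
  obtain ⟨l, hl, n0, hn0, h0⟩ := hog_param (ε / 2) (by positivity)
  obtain ⟨δ, hδ, n1, hn1, h1⟩ :=
    cluster_param k C0 (4 * hogR (l - 1) + 1) (ε / 2) (ε / 2) (by positivity) (by positivity)
  obtain ⟨n2, hn2, h2⟩ := ev_const (((4 * hogR (l - 1) + 1 : ℕ) : ℝ) + 1) (-ε) (-(ε / 2))
    (by linarith)
  refine ⟨δ, hδ, max n0 (max n1 n2), fun n hn b N hb hbN hNn _ => ?_⟩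
  have hnn0 : n0 ≤ n := le_trans (le_max_left _ _) hn
  have hnn1 : n1 ≤ n := le_trans ((le_max_left _ _).trans (le_max_right _ _)) hn
  have hnn2 : n2 ≤ n := le_trans ((le_max_right _ _).trans (le_max_right _ _)) hn
  have hnR : (1 : ℝ) ≤ n := by exact_mod_cast hn1.trans hnn1
  have hnpos : (0 : ℝ) < n := by linarith
  obtain ⟨a, ha, hla⟩ := h0 n hnn0
  obtain ⟨mm, J, e1, e2, e3⟩ := h1 n hnn1
  refine ⟨(2 ^ k * mm) ^ J * (l * a ^ 2), le_mul_div_of_le ?_ hb hbN, ?_⟩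
  · rw [Nat.cast_mul]
    calc (((2 ^ k * mm) ^ J : ℕ) : ℝ) * ((l * a ^ 2 : ℕ) : ℝ)
        ≤ (n : ℝ) ^ (ε / 2) * (n : ℝ) ^ (ε / 2) :=
          mul_le_mul e3 hla (Nat.cast_nonneg _) (by positivity)
      _ = (n : ℝ) ^ ε := by
          rw [← Real.rpow_add hnpos]
          congr 1
          ring
  · have hp1 : (n : ℝ) ^ (-δ) ≤ 1 := Real.rpow_le_one_of_one_le_of_nonpos hnR (by linarith)
    refine claim_two (κc := (n : ℝ) ^ (-(ε / 2))) (by positivity) (by linarith) (by positivity)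
      (by positivity) ?_ (hog k l a N hl (lt_of_le_of_lt hNn ha)) e1 e2
    have h3 : (n : ℝ) ^ (-(2 * ε)) ≤ (n : ℝ) ^ (-ε) :=
      Real.rpow_le_rpow_of_exponent_le hnR (by linarith)
    have h4 := h2 n hnn2
    have h5 : ((4 * hogR (l - 1) + 1 : ℕ) : ℝ) * (n : ℝ) ^ (-(2 * ε)) ≤
        ((4 * hogR (l - 1) + 1 : ℕ) : ℝ) * (n : ℝ) ^ (-ε) :=
      mul_le_mul_of_nonneg_left h3 (Nat.cast_nonneg _)
    linarith

end Pool.Agent.H45.OC
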