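import Pool.Agent.H45.OC.Param

/-!
# The induction hypothesis, uniformly in `m`, and `N1 = N / b`

Module PARAMUNI.  `ss_uniform`: minimum of the `δ_m`, maximum of the thresholds, `Claim.mono`
(for `n ≥ 1` and `δ ≤ δ_m`: `n ^ (-δ_m) ≤ n ^ (-δ)`), `Nat.le_floor`.  `div_facts`:
`b * b ^ (j - 2) = b ^ (j - 1) ≤ N`.
-/

set_option autoImplicit false

open Finset

noncomputable section

namespace Pool.Agent.H45.OC

/-- the induction hypothesis, uniformly in `m < j` -/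
theorem ss_uniform {k j : ℕ} (h : ∀ m, 1 ≤ m → m < j → SS k m) (C0 : ℕ) (ε : ℝ) (hε : 0 < ε) :
    ∃ δ : ℝ, 0 < δ ∧ ∃ n0 : ℕ, 1 ≤ n0 ∧ ∀ n : ℕ, n0 ≤ n → ∀ m, 1 ≤ m → m < j →
      ∀ b N : ℕ, 1 ≤ b → b ≤ N → N ≤ n → b ^ (m - 1) ≤ N →
        Claim k m N ((n : ℝ) ^ (-ε)) ((n : ℝ) ^ (-(2 * ε))) ((n : ℝ) ^ (-δ)) (n ^ C0)
          ⌊(n : ℝ) ^ ε * N / b⌋₊ := by
  induction j with
  | zero => exact ⟨1, one_pos, 1, le_refl _, fun n _ m _ hm => absurd hm (Nat.not_lt_zero m)⟩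
  | succ j ih =>
    obtain ⟨δ, hδ, n0, hn0, H⟩ := ih fun m h1 h2 => h m h1 (Nat.lt_succ_of_lt h2)
    rcases Nat.eq_zero_or_pos j with hj | hj
    · refine ⟨δ, hδ, n0, hn0, fun n hn m h1 h2 => ?_⟩
      omega
    · obtain ⟨δ', hδ', n0', H'⟩ := h j hj (Nat.lt_succ_self j) C0 ε hε
      refine ⟨min δ δ', lt_min hδ hδ', max n0 n0', hn0.trans (le_max_left _ _), ?_⟩
      intro n hn m h1 h2 b N hb hbN hNn hbm
      have hn1 : (1 : ℝ) ≤ n := by
        have : 1 ≤ n := (hn0.trans (le_max_left _ _)).trans hn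
        exact_mod_cast this
      rcases Nat.lt_succ_iff_lt_or_eq.1 h2 with h3 | h3
      · refine (H n ((le_max_left _ _).trans hn) m h1 h3 b N hb hbN hNn hbm).mono le_rfl le_rfl
          le_rfl ?_ le_rfl le_rfl
        exact Real.rpow_le_rpow_of_exponent_le hn1 (neg_le_neg (min_le_left _ _))
      · subst h3
        obtain ⟨M, hM, hC⟩ := H' n ((le_max_right _ _).trans hn) b N hb hbN hNn hbm
        refine hC.mono le_rfl le_rfl le_rfl ?_ le_rfl (Nat.le_floor hM)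
        exact Real.rpow_le_rpow_of_exponent_le hn1 (neg_le_neg (min_le_right _ _))

/-- elementary facts about `N1 = N / b` -/
theorem div_facts {j b N : ℕ} (hj : 3 ≤ j) (hb : 1 ≤ b) (hN : b ^ (j - 1) ≤ N) (hbN : b ≤ N) :
    1 ≤ N / b ∧ b ≤ N / b ∧ (∀ m, 1 ≤ m → m < j → b ^ (m - 1) ≤ N / b) ∧
      ((N / b : ℕ) : ℝ) ≤ (N : ℝ) / b ∧ (N : ℝ) / (2 * b) ≤ ((N / b : ℕ) : ℝ) ∧
      N / b ≤ N := by
  have h1 : 1 ≤ N / b := (Nat.one_le_div_iff hb).2 hbN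
  refine ⟨h1, ?_, ?_, Nat.cast_div_le, ?_, Nat.div_le_self _ _⟩
  · rw [Nat.le_div_iff_mul_le hb]
    calc b * b = b ^ 2 := (sq b).symm
      _ ≤ b ^ (j - 1) := Nat.pow_le_pow_right hb (by omega)
      _ ≤ N := hN
  · intro m hm hmj
    rw [Nat.le_div_iff_mul_le hb, ← pow_succ]
    exact (Nat.pow_le_pow_right hb (by omega)).trans hN
  · have hb' : (0 : ℝ) < b := by exact_mod_cast hb
    rw [div_le_iff₀ (by positivity)]
    have h2 : N < b * (N / b + 1) := Nat.lt_mul_div_succ N hb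
    have h3 : b * (N / b + 1) ≤ N / b * (2 * b) := by
      calc b * (N / b + 1) ≤ b * (N / b + N / b) :=
            Nat.mul_le_mul_left _ (Nat.add_le_add_left h1 _)
        _ = N / b * (2 * b) := by ring
    have h4 : N ≤ N / b * (2 * b) := h2.le.trans h3
    exact_mod_cast h4

end Pool.Agent.H45.OC
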