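import Pool.Agent.H45.OC.State

/-!
# The averaging argument

Module PICK.

* `not_ev_count`: for `v ∈ Dpp D y ω`, not `Ev` means that some `γ ∈ Gam` is not in `cov g v.t`;
  for each `γ ∈ Gam` there are fewer than `c |Dpp|` such `v`, and `|Gam| ≤ k`, `|Dpp| ≤ |D|`.
* `sum_not_ev`: write every `massP` as the sum of `pw` over the pairs `(ω, g)` (`massP_eq_sum`)
  and exchange the sums.  For a fixed pair the number of the `v ∈ D` with
  `ab y.x ω = ab v.x ω ≠ ∅` and not `Ev` is at most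
  `|D| [ab y.x ω ≠ ∅, y.a ω = ∅] + ∑ v, [ab v.x ω ≠ ∅, v.a ω = ∅] + δ |D| + |D| [Bone] + k c |D|`:
  if both `y.a ω` and `v.a ω` are nonempty, then `v.a ω = ab v.x ω = ab y.x ω = y.a ω` (field
  `sub` of `Adm`), so `v ∈ Dpp`; when not `Big` there are fewer than `δ |D|` such `v` (here
  `y.a ω ≠ ∅`), and when `Big` and not `Bone` use `not_ev_count`.  Then use `massP_fst_le`,
  `Adm.tol`, `hB` and `hP.hηs`.
* `exists_pick`: by `sum_not_ev` some `v ∈ D` has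
  `massP (agree ∧ ¬ Ev) ≤ ηs`; by `hP.hag` and `massP_fst_ge` one has
  `massP agree ≥ κ0 - mass (fam ω = ∅) ≥ κ0 - κ`, so `massP Ev ≥ κ0 - κ - ηs ≥ κ0 / 2` by
  `hP.hκ`.  On `Ev` (and `g ∈ fam ω`) the number `m` of elements of `v.a ω ∩ cov g v.t` satisfies
  `1 ≤ m < j`: it contains `Gam ≠ ∅`, and it is a proper subset of `v.a ω`, which has `j`
  elements, because `g` is alive on `D`.  Choose `m` by pigeonhole (there are fewer than `j ≤ k`
  values), `hP.hps`.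
-/

set_option autoImplicit false

open Finset

noncomputable section

namespace Pool.Agent.H45.OC

open Classical

variable {k : ℕ}

theorem massP_eq_sum (μ : Sp k) (fam : Hyp k → Finset (Expert k)) (w0 : ℝ)
    (Q : Hyp k → Expert k → Prop) :
    massP μ fam w0 Q = ∑ ω ∈ μ.sp, ∑ g ∈ fam ω, pw μ fam w0 ω g * (if Q ω g then 1 else 0) := by
  unfold massP
  apply Finset.sum_congr rfl
  intro ω _
  rw [Finset.sum_filter]
  apply Finset.sum_congr rfl
  intro g _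
  by_cases h : Q ω g <;> simp [h]

theorem not_ev_count {c δ : ℝ} (hc : 0 < c) {D : Finset (Inp k)} {y : Inp k} {ω : Hyp k}
    {g : Expert k} (hbig : Big δ D y ω) (hG : Gam c D y ω g ≠ ∅) :
    ((D.filter (fun v => v.a ω = y.a ω ∧ ¬ Ev c δ D y v ω g)).card : ℝ) ≤
      k * c * (D.card : ℝ) := by
  have hsub : D.filter (fun v => v.a ω = y.a ω ∧ ¬ Ev c δ D y v ω g) ⊆
      (Gam c D y ω g).biUnion (fun γ => (Dpp D y ω).filter (fun u => γ ∉ cov g u.t)) := by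
    intro v hv
    rw [Finset.mem_filter] at hv
    obtain ⟨hvD, hva, hne⟩ := hv
    have h1 : ¬ Gam c D y ω g ⊆ cov g v.t := fun h => hne ⟨hbig, hva, hG, h⟩
    rw [Finset.not_subset] at h1
    obtain ⟨γ, hγ, hγ2⟩ := h1
    rw [Finset.mem_biUnion]
    refine ⟨γ, hγ, ?_⟩
    rw [Finset.mem_filter]
    refine ⟨?_, hγ2⟩
    unfold Dpp
    rw [Finset.mem_filter]
    exact ⟨hvD, hva⟩
  have h1 : ((D.filter (fun v => v.a ω = y.a ω ∧ ¬ Ev c δ D y v ω g)).card : ℝ) ≤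
      ∑ γ ∈ Gam c D y ω g, (((Dpp D y ω).filter (fun u => γ ∉ cov g u.t)).card : ℝ) := by
    have h2 := Finset.card_le_card hsub
    have h3 := h2.trans Finset.card_biUnion_le
    exact_mod_cast h3
  have h2 : ∑ γ ∈ Gam c D y ω g, (((Dpp D y ω).filter (fun u => γ ∉ cov g u.t)).card : ℝ) ≤
      ∑ γ ∈ Gam c D y ω g, c * ((Dpp D y ω).card : ℝ) := by
    apply Finset.sum_le_sum
    intro γ hγ
    unfold Gam at hγ
    rw [Finset.mem_filter] at hγ
    exact hγ.2.le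
  rw [Finset.sum_const, nsmul_eq_mul] at h2
  have h3 : ((Gam c D y ω g).card : ℝ) ≤ k := by
    have h4 := Finset.card_le_univ (Gam c D y ω g)
    rw [Fintype.card_fin] at h4
    exact_mod_cast h4
  have h5 : ((Dpp D y ω).card : ℝ) ≤ (D.card : ℝ) := by
    have h6 := Finset.card_le_card (Finset.filter_subset (fun u : Inp k => u.a ω = y.a ω) D)
    exact_mod_cast h6
  have h6 : ((Gam c D y ω g).card : ℝ) * (c * ((Dpp D y ω).card : ℝ)) ≤
      (k : ℝ) * (c * (D.card : ℝ)) :=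
    mul_le_mul h3 (mul_le_mul_of_nonneg_left h5 hc.le) (by positivity) (by positivity)
  linarith

theorem sum_not_ev (P : Par k) {η κ κ0 : ℝ} {N M0 : ℕ} (hP : ParOK P η κ κ0 N M0)
    (fam : Hyp k → Finset (Expert k)) {L : List (Inp k)} {y : Inp k} {D : Finset (Inp k)}
    (hadm : Adm P.μ P.Xs P.ab η (L ++ [y])) (hD : ∀ u ∈ D, u ∈ L)
    (hB : massP P.μ fam P.w0 (Bone P.c P.δ D y) < P.c1) :
    ∑ v ∈ D, massP P.μ fam P.w0 (fun ω g => (P.ab y.x ω = P.ab v.x ω ∧ P.ab y.x ω ≠ ∅) ∧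
      ¬ Ev P.c P.δ D y v ω g) ≤ P.ηs * (D.card : ℝ) := by
  have hyL : y ∈ L ++ [y] := by simp
  have hw := P.hw
  have hpw : ∀ ω g, 0 ≤ pw P.μ fam P.w0 ω g := fun ω g => pw_nonneg P.μ fam hw ω g
  have key : ∀ ω ∈ P.μ.sp, ∀ g : Expert k,
      (∑ v ∈ D, (if (P.ab y.x ω = P.ab v.x ω ∧ P.ab y.x ω ≠ ∅) ∧
        ¬ Ev P.c P.δ D y v ω g then (1 : ℝ) else 0)) ≤
      (D.card : ℝ) * (if P.ab y.x ω ≠ ∅ ∧ y.a ω = ∅ then 1 else 0) +
      (∑ v ∈ D, (if P.ab v.x ω ≠ ∅ ∧ v.a ω = ∅ then (1 : ℝ) else 0)) +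
      P.δ * (D.card : ℝ) + (D.card : ℝ) * (if Bone P.c P.δ D y ω g then 1 else 0) +
      k * P.c * (D.card : ℝ) := by
    intro ω hω g
    have hD0 : (0 : ℝ) ≤ (D.card : ℝ) := Nat.cast_nonneg _
    have hk0 : (0 : ℝ) ≤ k * P.c * (D.card : ℝ) :=
      mul_nonneg (mul_nonneg (Nat.cast_nonneg _) hP.hc.le) hD0
    have hδ0 : (0 : ℝ) ≤ P.δ * (D.card : ℝ) := mul_nonneg hP.hδ.le hD0
    have hS0 : (0 : ℝ) ≤ ∑ v ∈ D, (if P.ab v.x ω ≠ ∅ ∧ v.a ω = ∅ then (1 : ℝ) else 0) := by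
      apply Finset.sum_nonneg
      intro v _
      split_ifs <;> norm_num
    have hB0 : (0 : ℝ) ≤ (D.card : ℝ) * (if Bone P.c P.δ D y ω g then 1 else 0) := by
      apply mul_nonneg hD0
      split_ifs <;> norm_num
    have hY0 : (0 : ℝ) ≤ (D.card : ℝ) * (if P.ab y.x ω ≠ ∅ ∧ y.a ω = ∅ then 1 else 0) := by
      apply mul_nonneg hD0
      split_ifs <;> norm_num
    have hle : (∑ v ∈ D, (if (P.ab y.x ω = P.ab v.x ω ∧ P.ab y.x ω ≠ ∅) ∧
        ¬ Ev P.c P.δ D y v ω g then (1 : ℝ) else 0)) ≤ (D.card : ℝ) := by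
      have h1 : (∑ v ∈ D, (if (P.ab y.x ω = P.ab v.x ω ∧ P.ab y.x ω ≠ ∅) ∧
          ¬ Ev P.c P.δ D y v ω g then (1 : ℝ) else 0)) ≤ ∑ v ∈ D, (1 : ℝ) := by
        apply Finset.sum_le_sum
        intro v _
        split_ifs <;> norm_num
      simpa using h1
    by_cases hab : P.ab y.x ω ≠ ∅
    swap
    · have h0 : (∑ v ∈ D, (if (P.ab y.x ω = P.ab v.x ω ∧ P.ab y.x ω ≠ ∅) ∧
          ¬ Ev P.c P.δ D y v ω g then (1 : ℝ) else 0)) = 0 := by
        apply Finset.sum_eq_zero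
        intro v _
        rw [if_neg]
        rintro ⟨⟨_, h⟩, _⟩
        exact hab h
      rw [h0]
      linarith
    by_cases hy : y.a ω = ∅
    · have h1 : (D.card : ℝ) * (if P.ab y.x ω ≠ ∅ ∧ y.a ω = ∅ then 1 else 0) = D.card := by
        rw [if_pos ⟨hab, hy⟩, mul_one]
      rw [h1]
      linarith
    · have hya : y.a ω = P.ab y.x ω := hadm.sub y hyL ω hω hy
      have h2 : (∑ v ∈ D, (if (P.ab y.x ω = P.ab v.x ω ∧ P.ab y.x ω ≠ ∅) ∧
          ¬ Ev P.c P.δ D y v ω g then (1 : ℝ) else 0)) ≤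
          (∑ v ∈ D, (if P.ab v.x ω ≠ ∅ ∧ v.a ω = ∅ then (1 : ℝ) else 0)) +
          ∑ v ∈ D, (if v.a ω = y.a ω ∧ ¬ Ev P.c P.δ D y v ω g then (1 : ℝ) else 0) := by
        rw [← Finset.sum_add_distrib]
        apply Finset.sum_le_sum
        intro v hv
        have hvL : v ∈ L ++ [y] := List.mem_append_left _ (hD v hv)
        by_cases hq : (P.ab y.x ω = P.ab v.x ω ∧ P.ab y.x ω ≠ ∅) ∧ ¬ Ev P.c P.δ D y v ω g
        · rw [if_pos hq]
          obtain ⟨⟨h3, h4⟩, h5⟩ := hq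
          by_cases hv0 : v.a ω = ∅
          · rw [if_pos ⟨h3 ▸ h4, hv0⟩]
            split_ifs <;> norm_num
          · have hva : v.a ω = P.ab v.x ω := hadm.sub v hvL ω hω hv0
            have h6 : v.a ω = y.a ω := by rw [hva, hya, h3]
            rw [if_pos (show v.a ω = y.a ω ∧ ¬ Ev P.c P.δ D y v ω g from ⟨h6, h5⟩)]
            split_ifs <;> norm_num
        · rw [if_neg hq]
          split_ifs <;> norm_num
      have h3 : (∑ v ∈ D, (if v.a ω = y.a ω ∧ ¬ Ev P.c P.δ D y v ω g then (1 : ℝ) else 0)) =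
          ((D.filter (fun v => v.a ω = y.a ω ∧ ¬ Ev P.c P.δ D y v ω g)).card : ℝ) := by
        rw [Finset.sum_boole]
      have h4 : ((D.filter (fun v => v.a ω = y.a ω ∧ ¬ Ev P.c P.δ D y v ω g)).card : ℝ) ≤
          P.δ * (D.card : ℝ) + (D.card : ℝ) * (if Bone P.c P.δ D y ω g then 1 else 0) +
          k * P.c * (D.card : ℝ) := by
        by_cases hbig : Big P.δ D y ω
        · by_cases hG : Gam P.c D y ω g = ∅
          · rw [if_pos (show Bone P.c P.δ D y ω g from ⟨hbig, hG⟩), mul_one]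
            have h5 : ((D.filter (fun v => v.a ω = y.a ω ∧
                ¬ Ev P.c P.δ D y v ω g)).card : ℝ) ≤ D.card := by
              exact_mod_cast Finset.card_le_card (Finset.filter_subset _ _)
            linarith
          · have h5 := not_ev_count (c := P.c) (δ := P.δ) hP.hc hbig hG
            linarith
        · have h5 : ((D.filter (fun v => v.a ω = y.a ω ∧
              ¬ Ev P.c P.δ D y v ω g)).card : ℝ) ≤ ((Dpp D y ω).card : ℝ) := by
            have h6 : D.filter (fun v => v.a ω = y.a ω ∧ ¬ Ev P.c P.δ D y v ω g) ⊆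
                Dpp D y ω := by
              intro v hv
              rw [Finset.mem_filter] at hv
              unfold Dpp
              rw [Finset.mem_filter]
              exact ⟨hv.1, hv.2.1⟩
            exact_mod_cast Finset.card_le_card h6
          have h6 : ((Dpp D y ω).card : ℝ) < P.δ * (D.card : ℝ) := by
            by_contra hcon
            exact hbig ⟨hy, not_lt.mp hcon⟩
          linarith
      linarith
  have hswap : ∑ v ∈ D, massP P.μ fam P.w0 (fun ω g => (P.ab y.x ω = P.ab v.x ω ∧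
      P.ab y.x ω ≠ ∅) ∧ ¬ Ev P.c P.δ D y v ω g) =
      ∑ ω ∈ P.μ.sp, ∑ g ∈ fam ω, pw P.μ fam P.w0 ω g *
        ∑ v ∈ D, (if (P.ab y.x ω = P.ab v.x ω ∧ P.ab y.x ω ≠ ∅) ∧
          ¬ Ev P.c P.δ D y v ω g then (1 : ℝ) else 0) := by
    simp only [massP_eq_sum]
    rw [Finset.sum_comm]
    apply Finset.sum_congr rfl
    intro ω _
    rw [Finset.sum_comm]
    apply Finset.sum_congr rfl
    intro g _
    rw [Finset.mul_sum]
    apply Finset.sum_congr rfl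
    intro v _
    congr
  rw [hswap]
  have h1 : ∑ ω ∈ P.μ.sp, ∑ g ∈ fam ω, pw P.μ fam P.w0 ω g *
        ∑ v ∈ D, (if (P.ab y.x ω = P.ab v.x ω ∧ P.ab y.x ω ≠ ∅) ∧
          ¬ Ev P.c P.δ D y v ω g then (1 : ℝ) else 0) ≤
      ∑ ω ∈ P.μ.sp, ∑ g ∈ fam ω, pw P.μ fam P.w0 ω g *
      ((D.card : ℝ) * (if P.ab y.x ω ≠ ∅ ∧ y.a ω = ∅ then 1 else 0) +
      (∑ v ∈ D, (if P.ab v.x ω ≠ ∅ ∧ v.a ω = ∅ then (1 : ℝ) else 0)) +
      P.δ * (D.card : ℝ) + (D.card : ℝ) * (if Bone P.c P.δ D y ω g then 1 else 0) +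
      k * P.c * (D.card : ℝ)) := by
    apply Finset.sum_le_sum
    intro ω hω
    apply Finset.sum_le_sum
    intro g _
    exact mul_le_mul_of_nonneg_left (key ω hω g) (hpw ω g)
  have h2 : ∑ ω ∈ P.μ.sp, ∑ g ∈ fam ω, pw P.μ fam P.w0 ω g *
      ((D.card : ℝ) * (if P.ab y.x ω ≠ ∅ ∧ y.a ω = ∅ then 1 else 0) +
      (∑ v ∈ D, (if P.ab v.x ω ≠ ∅ ∧ v.a ω = ∅ then (1 : ℝ) else 0)) +
      P.δ * (D.card : ℝ) + (D.card : ℝ) * (if Bone P.c P.δ D y ω g then 1 else 0) +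
      k * P.c * (D.card : ℝ)) =
      (D.card : ℝ) * massP P.μ fam P.w0 (fun ω _ => P.ab y.x ω ≠ ∅ ∧ y.a ω = ∅) +
      (∑ v ∈ D, massP P.μ fam P.w0 (fun ω _ => P.ab v.x ω ≠ ∅ ∧ v.a ω = ∅)) +
      P.δ * (D.card : ℝ) * (∑ ω ∈ P.μ.sp, ∑ g ∈ fam ω, pw P.μ fam P.w0 ω g) +
      (D.card : ℝ) * massP P.μ fam P.w0 (Bone P.c P.δ D y) +
      k * P.c * (D.card : ℝ) * (∑ ω ∈ P.μ.sp, ∑ g ∈ fam ω, pw P.μ fam P.w0 ω g) := by
    have e1 : (∑ v ∈ D, massP P.μ fam P.w0 (fun ω _ => P.ab v.x ω ≠ ∅ ∧ v.a ω = ∅)) =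
        ∑ ω ∈ P.μ.sp, ∑ g ∈ fam ω, pw P.μ fam P.w0 ω g *
        ∑ v ∈ D, (if P.ab v.x ω ≠ ∅ ∧ v.a ω = ∅ then (1 : ℝ) else 0) := by
      simp only [massP_eq_sum]
      rw [Finset.sum_comm]
      apply Finset.sum_congr rfl
      intro ω _
      rw [Finset.sum_comm]
      apply Finset.sum_congr rfl
      intro g _
      rw [Finset.mul_sum]
      apply Finset.sum_congr rfl
      intro v _
      congr
    rw [e1, massP_eq_sum, massP_eq_sum]
    simp only [Finset.mul_sum, ← Finset.sum_add_distrib]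
    apply Finset.sum_congr rfl
    intro ω _
    apply Finset.sum_congr rfl
    intro g _
    simp only [← Finset.mul_sum]
    by_cases c1 : P.ab y.x ω ≠ ∅ ∧ y.a ω = ∅ <;> by_cases c2 : Bone P.c P.δ D y ω g
    · simp only [if_pos c1, if_pos c2]
      ring
    · simp only [if_pos c1, if_neg c2]
      ring
    · simp only [if_neg c1, if_pos c2]
      ring
    · simp only [if_neg c1, if_neg c2]
      ring
  have htot : ∑ ω ∈ P.μ.sp, ∑ g ∈ fam ω, pw P.μ fam P.w0 ω g ≤ 1 :=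
    le_trans (Finset.sum_le_sum fun ω _ => sum_pw_le P.μ fam hw ω) P.μ.total
  have hD0 : (0 : ℝ) ≤ (D.card : ℝ) := Nat.cast_nonneg _
  have b1 : (D.card : ℝ) * massP P.μ fam P.w0 (fun ω _ => P.ab y.x ω ≠ ∅ ∧ y.a ω = ∅) ≤
      (D.card : ℝ) * η :=
    mul_le_mul_of_nonneg_left ((massP_fst_le P.μ fam hw _).trans (hadm.tol y hyL)) hD0
  have b2 : (∑ v ∈ D, massP P.μ fam P.w0 (fun ω _ => P.ab v.x ω ≠ ∅ ∧ v.a ω = ∅)) ≤
      (D.card : ℝ) * η := by
    have h3 : (∑ v ∈ D, massP P.μ fam P.w0 (fun ω _ => P.ab v.x ω ≠ ∅ ∧ v.a ω = ∅)) ≤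
        ∑ v ∈ D, η := by
      apply Finset.sum_le_sum
      intro v hv
      exact (massP_fst_le P.μ fam hw _).trans (hadm.tol v (List.mem_append_left _ (hD v hv)))
    rw [Finset.sum_const, nsmul_eq_mul] at h3
    exact h3
  have b3 : P.δ * (D.card : ℝ) * (∑ ω ∈ P.μ.sp, ∑ g ∈ fam ω, pw P.μ fam P.w0 ω g) ≤
      P.δ * (D.card : ℝ) :=
    mul_le_of_le_one_right (mul_nonneg hP.hδ.le hD0) htot
  have b4 : (D.card : ℝ) * massP P.μ fam P.w0 (Bone P.c P.δ D y) ≤ (D.card : ℝ) * P.c1 :=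
    mul_le_mul_of_nonneg_left hB.le hD0
  have b5 : k * P.c * (D.card : ℝ) * (∑ ω ∈ P.μ.sp, ∑ g ∈ fam ω, pw P.μ fam P.w0 ω g) ≤
      k * P.c * (D.card : ℝ) :=
    mul_le_of_le_one_right (mul_nonneg (mul_nonneg (Nat.cast_nonneg _) hP.hc.le) hD0) htot
  have b6 : (2 * η + P.δ + P.c1 + k * P.c) * (D.card : ℝ) ≤ P.ηs * (D.card : ℝ) :=
    mul_le_mul_of_nonneg_right hP.hηs hD0
  nlinarith [h1, h2, b1, b2, b3, b4, b5, b6]

theorem exists_pick (P : Par k) {η κ κ0 : ℝ} {N M0 : ℕ} (hP : ParOK P η κ κ0 N M0)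
    (fam : Hyp k → Finset (Expert k)) {L : List (Inp k)} {y : Inp k} {D : Finset (Inp k)}
    (hadm : Adm P.μ P.Xs P.ab η (L ++ [y])) (hD : ∀ u ∈ D, u ∈ L) (hDne : D.Nonempty)
    (hfam : P.μ.mass (fun ω => fam ω = ∅) ≤ κ)
    (halive : ∀ ω ∈ P.μ.sp, ∀ g ∈ fam ω, Alive D ω g)
    (hB : massP P.μ fam P.w0 (Bone P.c P.δ D y) < P.c1) :
    ∃ q : Inp k × ℕ, Pick P fam D y q.1 q.2 := by
  have hyL : y ∈ L ++ [y] := by simp
  have hw := P.hw
  have hsum := sum_not_ev P hP fam hadm hD hB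
  have hsum2 : ∑ v ∈ D, massP P.μ fam P.w0 (fun ω g => (P.ab y.x ω = P.ab v.x ω ∧
      P.ab y.x ω ≠ ∅) ∧ ¬ Ev P.c P.δ D y v ω g) ≤ ∑ v ∈ D, P.ηs := by
    rw [Finset.sum_const, nsmul_eq_mul]
    linarith
  obtain ⟨v, hvD, hv⟩ := Finset.exists_le_of_sum_le hDne hsum2
  have hvL : v ∈ L ++ [y] := List.mem_append_left _ (hD v hvD)
  have h1 := hP.hag y.x (hadm.mem y hyL) v.x (hadm.mem v hvL)
  have h2 := massP_fst_ge P.μ fam hw (fun ω => P.ab y.x ω = P.ab v.x ω ∧ P.ab y.x ω ≠ ∅)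
  have h3 : massP P.μ fam P.w0 (fun ω _ => P.ab y.x ω = P.ab v.x ω ∧ P.ab y.x ω ≠ ∅) ≤
      massP P.μ fam P.w0 (fun ω g => (P.ab y.x ω = P.ab v.x ω ∧
      P.ab y.x ω ≠ ∅) ∧ ¬ Ev P.c P.δ D y v ω g) +
      massP P.μ fam P.w0 (fun ω g => Ev P.c P.δ D y v ω g) := by
    refine le_trans ?_ (massP_or_le P.μ fam hw _ _)
    apply massP_mono P.μ fam hw
    intro ω _ g _ h
    by_cases hE : Ev P.c P.δ D y v ω g
    · exact Or.inr hE
    · exact Or.inl ⟨h, hE⟩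
  have hκ := hP.hκ
  have hEv : κ0 / 2 ≤ massP P.μ fam P.w0 (fun ω g => Ev P.c P.δ D y v ω g) := by linarith
  have hkpos : (0 : ℝ) < k := by
    have := hP.hj
    have := hP.hk
    exact_mod_cast (by omega : 0 < k)
  have hκ0 : 0 < κ0 := by
    have h4 := hP.hps0.trans_le hP.hps
    by_contra hcon
    have h5 : κ0 / (2 * k) ≤ 0 := div_nonpos_of_nonpos_of_nonneg (not_lt.mp hcon) (by positivity)
    linarith
  have hAct : massP P.μ fam P.w0 (fun ω g => Ev P.c P.δ D y v ω g) ≤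
      ∑ m ∈ Finset.Ico 1 P.j, massP P.μ fam P.w0 (fun ω g => Act P.c P.δ m ⟨y, D, v⟩ ω g) := by
    simp only [massP_eq_sum]
    rw [Finset.sum_comm]
    apply Finset.sum_le_sum
    intro ω hω
    rw [Finset.sum_comm]
    apply Finset.sum_le_sum
    intro g hg
    rw [← Finset.mul_sum]
    apply mul_le_mul_of_nonneg_left _ (pw_nonneg P.μ fam hw ω g)
    by_cases hE : Ev P.c P.δ D y v ω g
    · rw [if_pos hE]
      obtain ⟨hbig, hva, hG, hGc⟩ := hE
      have hvne : v.a ω ≠ ∅ := by rw [hva]; exact hbig.1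
      have hvab : v.a ω = P.ab v.x ω := hadm.sub v hvL ω hω hvne
      have hcard : (v.a ω).card = P.j := by
        rw [hvab]
        exact hP.hab v.x (hadm.mem v hvL) ω hω (hvab ▸ hvne)
      have hm1 : 1 ≤ (v.a ω ∩ cov g v.t).card := by
        rw [Nat.one_le_iff_ne_zero, Finset.card_ne_zero]
        obtain ⟨γ, hγ⟩ := Finset.nonempty_iff_ne_empty.mpr hG
        refine ⟨γ, ?_⟩
        rw [Finset.mem_inter]
        refine ⟨?_, hGc hγ⟩
        rw [hva]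
        unfold Gam at hγ
        exact (Finset.mem_filter.mp hγ).1
      have hm2 : (v.a ω ∩ cov g v.t).card < P.j := by
        rw [← hcard]
        apply Finset.card_lt_card
        rw [Finset.ssubset_iff_subset_ne]
        refine ⟨Finset.inter_subset_left, ?_⟩
        intro he
        exact halive ω hω g hg v hvD hvne (Finset.inter_eq_left.mp he)
      have hmem : (v.a ω ∩ cov g v.t).card ∈ Finset.Ico 1 P.j := Finset.mem_Ico.mpr ⟨hm1, hm2⟩
      have h5 : (if Act P.c P.δ (v.a ω ∩ cov g v.t).card ⟨y, D, v⟩ ω g then (1 : ℝ) else 0) ≤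
          ∑ m ∈ Finset.Ico 1 P.j, (if Act P.c P.δ m ⟨y, D, v⟩ ω g then (1 : ℝ) else 0) := by
        apply Finset.single_le_sum
          (f := fun m => (if Act P.c P.δ m ⟨y, D, v⟩ ω g then (1 : ℝ) else 0)) _ hmem
        intro m _
        split_ifs <;> norm_num
      have h6 : Act P.c P.δ (v.a ω ∩ cov g v.t).card ⟨y, D, v⟩ ω g :=
        ⟨⟨hbig, hva, hG, hGc⟩, rfl⟩
      rw [if_pos h6] at h5
      exact h5
    · rw [if_neg hE]
      apply Finset.sum_nonneg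
      intro m _
      split_ifs <;> norm_num
  have hex : ∃ m ∈ Finset.Ico 1 P.j,
      P.ps ≤ massP P.μ fam P.w0 (fun ω g => Act P.c P.δ m ⟨y, D, v⟩ ω g) := by
    by_contra hcon
    push Not at hcon
    have hne : (Finset.Ico 1 P.j).Nonempty := by
      rw [Finset.nonempty_Ico]
      have := hP.hj
      omega
    have h5 := Finset.sum_lt_sum_of_nonempty hne hcon
    rw [Finset.sum_const, nsmul_eq_mul, Nat.card_Ico] at h5
    have h6 : (((P.j - 1 : ℕ) : ℝ)) ≤ k := by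
      have := hP.hk
      exact_mod_cast (by omega : P.j - 1 ≤ k)
    have h7 : ((P.j - 1 : ℕ) : ℝ) * P.ps ≤ k * (κ0 / (2 * k)) :=
      mul_le_mul h6 hP.hps hP.hps0.le hkpos.le
    have h8 : (k : ℝ) * (κ0 / (2 * k)) = κ0 / 2 := by
      field_simp
    linarith
  obtain ⟨m, hm, hps⟩ := hex
  rw [Finset.mem_Ico] at hm
  exact ⟨(v, m), hvD, hm.1, hm.2, hv, hps⟩

end Pool.Agent.H45.OC
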