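import Pool.Agent.H45.OC.Defs

/-!
# Families of experts over a weighted set of hypotheses
-/

set_option autoImplicit false

open Finset

noncomputable section

namespace Pool.Agent.H45.OC

open Classical

variable {k : ℕ}

/-- total weight of the experts attached to `ω` -/
def W (fam : Hyp k → Finset (Expert k)) (w0 : ℝ) (ω : Hyp k) : ℝ :=
  ∑ g ∈ fam ω, w0 ^ g.length

/-- normalised weight of a pair (hypothesis, expert) -/
def pw (μ : Sp k) (fam : Hyp k → Finset (Expert k)) (w0 : ℝ) (ω : Hyp k) (g : Expert k) : ℝ :=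
  μ.P ω * w0 ^ g.length / W fam w0 ω

/-- weight of the pairs (hypothesis, expert) with property `Q` -/
def massP (μ : Sp k) (fam : Hyp k → Finset (Expert k)) (w0 : ℝ)
    (Q : Hyp k → Expert k → Prop) : ℝ :=
  ∑ ω ∈ μ.sp, ∑ g ∈ (fam ω).filter (Q ω), pw μ fam w0 ω g

theorem pw_nonneg (μ : Sp k) (fam : Hyp k → Finset (Expert k)) {w0 : ℝ} (hw : 0 < w0)
    (ω : Hyp k) (g : Expert k) : 0 ≤ pw μ fam w0 ω g := by
  unfold pw W
  have h1 := μ.nonneg ω
  positivity

theorem sum_pw_le (μ : Sp k) (fam : Hyp k → Finset (Expert k)) {w0 : ℝ} (_hw : 0 < w0)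
    (ω : Hyp k) : ∑ g ∈ fam ω, pw μ fam w0 ω g ≤ μ.P ω := by
  unfold pw
  rw [← Finset.sum_div, ← Finset.mul_sum]
  change μ.P ω * W fam w0 ω / W fam w0 ω ≤ μ.P ω
  by_cases h : W fam w0 ω = 0
  · rw [h]; simpa using μ.nonneg ω
  · rw [mul_div_cancel_right₀ _ h]

theorem sum_pw_eq (μ : Sp k) (fam : Hyp k → Finset (Expert k)) {w0 : ℝ} (hw : 0 < w0)
    (ω : Hyp k) (h : fam ω ≠ ∅) : ∑ g ∈ fam ω, pw μ fam w0 ω g = μ.P ω := by
  unfold pw
  rw [← Finset.sum_div, ← Finset.mul_sum]
  change μ.P ω * W fam w0 ω / W fam w0 ω = μ.P ω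
  have h : W fam w0 ω ≠ 0 := by
    have : 0 < W fam w0 ω := by
      apply Finset.sum_pos
      · intro g _; positivity
      · exact Finset.nonempty_iff_ne_empty.mpr h
    exact this.ne'
  rw [mul_div_cancel_right₀ _ h]

/-- the space of the sub-games: hypotheses extended by an expert -/
def subSp (μ : Sp k) (fam : Hyp k → Finset (Expert k)) (w0 : ℝ) (hw : 0 < w0) : Sp k where
  sp := μ.sp.biUnion (fun ω => (fam ω).image (fun g => g :: ω))
  P := fun ω' => match ω' with
    | [] => 0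
    | g :: ω => pw μ fam w0 ω g
  nonneg := by
    intro ω'
    cases ω' with
    | nil => exact le_refl _
    | cons g ω => exact pw_nonneg μ fam hw ω g
  total := by
    rw [Finset.sum_biUnion]
    · refine le_trans (Finset.sum_le_sum fun ω _ => ?_) μ.total
      rw [Finset.sum_image]
      · exact sum_pw_le μ fam hw ω
      · intro g _ g' _ h
        exact (List.cons.inj h).1
    · intro ω _ ω' _ hne
      rw [Function.onFun, Finset.disjoint_left]
      intro q hq hq'
      rw [Finset.mem_image] at hq hq'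
      obtain ⟨g, _, rfl⟩ := hq
      obtain ⟨g', _, h⟩ := hq'
      exact hne (List.cons.inj h).2.symm

theorem mem_subSp {μ : Sp k} {fam : Hyp k → Finset (Expert k)} {w0 : ℝ} {hw : 0 < w0}
    {ω' : Hyp k} : ω' ∈ (subSp μ fam w0 hw).sp ↔ ∃ ω ∈ μ.sp, ∃ g ∈ fam ω, ω' = g :: ω := by
  unfold subSp
  simp only [Finset.mem_biUnion, Finset.mem_image]
  constructor
  · rintro ⟨ω, hω, g, hg, rfl⟩
    exact ⟨ω, hω, g, hg, rfl⟩
  · rintro ⟨ω, hω, g, hg, rfl⟩
    exact ⟨ω, hω, g, hg, rfl⟩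

theorem subSp_mass (μ : Sp k) (fam : Hyp k → Finset (Expert k)) (w0 : ℝ) (hw : 0 < w0)
    (E : Hyp k → Prop) :
    (subSp μ fam w0 hw).mass E = massP μ fam w0 (fun ω g => E (g :: ω)) := by
  unfold Sp.mass massP
  rw [Finset.sum_filter]
  change ∑ ω' ∈ μ.sp.biUnion (fun ω => (fam ω).image (fun g => g :: ω)), _ = _
  rw [Finset.sum_biUnion]
  · apply Finset.sum_congr rfl
    intro ω _
    rw [Finset.sum_image, Finset.sum_filter]
    · rfl
    · intro g _ g' _ h
      exact (List.cons.inj h).1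
  · intro ω _ ω' _ hne
    rw [Function.onFun, Finset.disjoint_left]
    intro q hq hq'
    rw [Finset.mem_image] at hq hq'
    obtain ⟨g, _, rfl⟩ := hq
    obtain ⟨g', _, h⟩ := hq'
    exact hne (List.cons.inj h).2.symm

theorem massP_nonneg (μ : Sp k) (fam : Hyp k → Finset (Expert k)) {w0 : ℝ} (hw : 0 < w0)
    (Q : Hyp k → Expert k → Prop) : 0 ≤ massP μ fam w0 Q :=
  Finset.sum_nonneg fun ω _ => Finset.sum_nonneg fun g _ => pw_nonneg μ fam hw ω g

theorem massP_mono (μ : Sp k) (fam : Hyp k → Finset (Expert k)) {w0 : ℝ} (hw : 0 < w0)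
    {Q R : Hyp k → Expert k → Prop} (h : ∀ ω ∈ μ.sp, ∀ g ∈ fam ω, Q ω g → R ω g) :
    massP μ fam w0 Q ≤ massP μ fam w0 R := by
  apply Finset.sum_le_sum
  intro ω hω
  apply Finset.sum_le_sum_of_subset_of_nonneg
  · intro g hg
    rw [Finset.mem_filter] at hg ⊢
    exact ⟨hg.1, h ω hω g hg.1 hg.2⟩
  · intro g _ _
    exact pw_nonneg μ fam hw ω g

theorem massP_or_le (μ : Sp k) (fam : Hyp k → Finset (Expert k)) {w0 : ℝ} (hw : 0 < w0)
    (Q R : Hyp k → Expert k → Prop) :
    massP μ fam w0 (fun ω g => Q ω g ∨ R ω g) ≤ massP μ fam w0 Q + massP μ fam w0 R := by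
  unfold massP
  rw [← Finset.sum_add_distrib]
  apply Finset.sum_le_sum
  intro ω _
  simp only [Finset.sum_filter]
  rw [← Finset.sum_add_distrib]
  apply Finset.sum_le_sum
  intro g _
  have := pw_nonneg μ fam hw ω g
  by_cases h1 : Q ω g <;> by_cases h2 : R ω g <;> simp [h1, h2, this]

/-- weight of a property of the hypothesis alone -/
theorem massP_fst_le (μ : Sp k) (fam : Hyp k → Finset (Expert k)) {w0 : ℝ} (hw : 0 < w0)
    (E : Hyp k → Prop) : massP μ fam w0 (fun ω _ => E ω) ≤ μ.mass E := by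
  unfold massP Sp.mass
  rw [Finset.sum_filter]
  apply Finset.sum_le_sum
  intro ω _
  by_cases h : E ω
  · simp only [h, if_true]
    refine le_trans ?_ (sum_pw_le μ fam hw ω)
    apply Finset.sum_le_sum_of_subset_of_nonneg (Finset.filter_subset _ _)
    intro g _ _
    exact pw_nonneg μ fam hw ω g
  · simp [h]

theorem massP_fst_ge (μ : Sp k) (fam : Hyp k → Finset (Expert k)) {w0 : ℝ} (hw : 0 < w0)
    (E : Hyp k → Prop) :
    μ.mass E - μ.mass (fun ω => fam ω = ∅) ≤ massP μ fam w0 (fun ω _ => E ω) := by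
  unfold massP Sp.mass
  rw [Finset.sum_filter, Finset.sum_filter, ← Finset.sum_sub_distrib]
  apply Finset.sum_le_sum
  intro ω _
  have hP := μ.nonneg ω
  by_cases h : E ω
  · by_cases h2 : fam ω = ∅
    · simp [h, h2]
    · simp only [h, h2, if_true, if_false, sub_zero]
      rw [Finset.filter_true_of_mem (fun _ _ => trivial), sum_pw_eq μ fam hw ω h2]
  · simp only [h, if_false, Finset.filter_false, Finset.sum_empty, zero_sub, Left.neg_nonpos_iff]
    split_ifs
    · exact hP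
    · exact le_refl _

end Pool.Agent.H45.OC
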