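import Pool.Agent.H45.OC.Space

/-!
# Definitions for the step of the recursion
-/

set_option autoImplicit false

open Finset

noncomputable section

namespace Pool.Agent.H45.OC

open Classical

variable {k : ℕ}

/-- colours used by the centres of the expert `g` in the neighbourhood of the vertex `v` -/
def cov (g : Expert k) (v : ℕ) : Finset (Fin k) :=
  Finset.univ.filter (fun γ => ∃ ct ∈ g, v ∈ ct.2.1 ∧ ct.2.2 = γ)

theorem mem_cov {g : Expert k} {v : ℕ} {γ : Fin k} :
    γ ∈ cov g v ↔ ∃ ct ∈ g, v ∈ ct.2.1 ∧ ct.2.2 = γ := by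
  unfold cov
  simp

/-- the elements of `S` adjacent to the new input `y` -/
def nbS (S : Finset (Inp k)) (y : Inp k) : Finset (Inp k) := S.filter (fun u => u.t ∈ y.nb)

theorem mem_nbS {S : Finset (Inp k)} {y u : Inp k} : u ∈ nbS S y ↔ u ∈ S ∧ u.t ∈ y.nb := by
  unfold nbS
  simp

/-- the elements of `D` with the same function value as `y` -/
def Dpp (D : Finset (Inp k)) (y : Inp k) (ω : Hyp k) : Finset (Inp k) :=
  D.filter (fun u => u.a ω = y.a ω)

/-- the colours of `y` that are almost exhausted in its neighbourhood -/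
def Gam (c : ℝ) (D : Finset (Inp k)) (y : Inp k) (ω : Hyp k) (g : Expert k) : Finset (Fin k) :=
  (y.a ω).filter (fun γ =>
    (((Dpp D y ω).filter (fun u => γ ∉ cov g u.t)).card : ℝ) < c * ((Dpp D y ω).card : ℝ))

/-- `y` has a value and many elements of `D` have the same value -/
def Big (δ : ℝ) (D : Finset (Inp k)) (y : Inp k) (ω : Hyp k) : Prop :=
  y.a ω ≠ ∅ ∧ δ * (D.card : ℝ) ≤ ((Dpp D y ω).card : ℝ)

/-- the pairs for which no colour of `y` is almost exhausted -/
def Bone (c δ : ℝ) (D : Finset (Inp k)) (y : Inp k) (ω : Hyp k) (g : Expert k) : Prop :=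
  Big δ D y ω ∧ Gam c D y ω g = ∅

/-- the pairs for which `v` is a good representative of the neighbourhood of `y` -/
def Ev (c δ : ℝ) (D : Finset (Inp k)) (y v : Inp k) (ω : Hyp k) (g : Expert k) : Prop :=
  Big δ D y ω ∧ v.a ω = y.a ω ∧ Gam c D y ω g ≠ ∅ ∧ Gam c D y ω g ⊆ cov g v.t

/-- an entry of a sub-game: an input `y`, its coloured neighbours `D`, and its
representative `v` -/
structure Ent (k : ℕ) where
  y : Inp k
  D : Finset (Inp k)
  v : Inp k

/-- the pairs for which the entry `q` gives information in the sub-game `m` -/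
def Act (c δ : ℝ) (m : ℕ) (q : Ent k) (ω : Hyp k) (g : Expert k) : Prop :=
  Ev c δ q.D q.y q.v ω g ∧ (q.v.a ω ∩ cov g q.v.t).card = m

/-- the set of allowed colours of the entry `q` in the sub-game `m` -/
def subA (c δ : ℝ) (m : ℕ) (q : Ent k) : Hyp k → Finset (Fin k)
  | [] => ∅
  | g :: ω => if Act c δ m q ω g then q.v.a ω ∩ cov g q.v.t else ∅

/-- the input of the sub-game `m` given by the entry `q` -/
def subInp (c δ : ℝ) (m : ℕ) (q : Ent k) : Inp k where
  t := q.y.t
  nb := q.y.nb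
  x := Rep.node q.y.x q.v.t q.v.x
  a := subA c δ m q

/-- the static functions of the sub-game `m` -/
def subAb (ab : Rep → Hyp k → Finset (Fin k)) (m : ℕ) : Rep → Hyp k → Finset (Fin k)
  | Rep.node x v xv, g :: ω =>
      if ab x ω = ab xv ω ∧ ab x ω ≠ ∅ ∧ (ab xv ω ∩ cov g v).card = m
      then ab xv ω ∩ cov g v else ∅
  | _, _ => ∅

/-- the static representatives of the sub-game `m` -/
def subXs (μ' : Sp k) (Xs : Finset Rep) (ab : Rep → Hyp k → Finset (Fin k)) (ps : ℝ)
    (S0 : Finset (Inp k)) (m : ℕ) : Finset Rep :=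
  ((Xs ×ˢ S0).image (fun q => Rep.node q.1 q.2.t q.2.x)).filter
    (fun x' => ps ≤ μ'.mass (fun ω' => subAb ab m x' ω' ≠ ∅))

/-- the total number of colours excluded by the expert `g` on the set `S` -/
def los (S : Finset (Inp k)) (ω : Hyp k) (g : Expert k) : ℕ :=
  ∑ u ∈ S, (u.a ω ∩ cov g u.t).card

/-- the colouring `c` is consistent with the expert `g` -/
def Cons (g : Expert k) (c : ℕ → Fin k) : Prop := ∀ ct ∈ g, c ct.1 = ct.2.2

/-- the expert `g` does not exclude all colours of an element of `S` -/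
def Alive (S : Finset (Inp k)) (ω : Hyp k) (g : Expert k) : Prop :=
  ∀ u ∈ S, u.a ω ≠ ∅ → ¬ u.a ω ⊆ cov g u.t

/-- the expert `g` extended by the centre `y` with neighbours `D` and colour `γ` -/
def ext (g : Expert k) (y : Inp k) (D : Finset (Inp k)) (γ : Fin k) : Expert k :=
  g ++ [(y.t, D.image Inp.t, γ)]

/-- replace the experts with property `Q` by their children -/
def upd (S : Finset (Inp k)) (fam : Hyp k → Finset (Expert k)) (Q : Hyp k → Expert k → Prop)
    (ch : Hyp k → Expert k → Finset (Expert k)) : Hyp k → Finset (Expert k) := fun ω =>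
  ((fam ω).filter (fun g => ¬ Q ω g) ∪ ((fam ω).filter (Q ω)).biUnion (ch ω)).filter (Alive S ω)

/-- invariants of the family of experts -/
structure FamInv (μ : Sp k) (L : List (Inp k)) (S : Finset (Inp k))
    (fam : Hyp k → Finset (Expert k)) (l : ℝ) : Prop where
  cons : ∀ ω ∈ μ.sp, ∀ c, Valid L ω c → ∃ g ∈ fam ω, Cons g c
  cen : ∀ ω ∈ μ.sp, ∀ g ∈ fam ω, ∀ ct ∈ g, ∃ z ∈ L, z.t = ct.1 ∧
    ∀ i ∈ ct.2.1, i ∈ z.nb ∧ ∃ u ∈ S, u.t = i
  alive : ∀ ω ∈ μ.sp, ∀ g ∈ fam ω, Alive S ω g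
  loss : ∀ ω ∈ μ.sp, ∀ g ∈ fam ω, l * (g.length : ℝ) ≤ (los S ω g : ℝ)

/-- the potential -/
def Phi (μ : Sp k) (fam : Hyp k → Finset (Expert k)) (w0 Lam : ℝ) : ℝ :=
  ∑ ω ∈ μ.sp, μ.P ω *
    (if fam ω = ∅ then Lam * Real.log (1 / w0) + 1 else - Real.log (W fam w0 ω))

/-- children for the first kind of failure -/
def chOne (D : Finset (Inp k)) (y : Inp k) (ω : Hyp k) (g : Expert k) : Finset (Expert k) :=
  (y.a ω).image (fun γ => ext g y D γ)

/-- children for the second kind of failure -/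
def chTwo (c δ : ℝ) (m : ℕ) (es : List (Ent k)) (ω : Hyp k) (g : Expert k) :
    Finset (Expert k) :=
  (es.toFinset.filter (fun q => Act c δ m q ω g)).biUnion
    (fun q => (q.y.a ω \ subA c δ m q (g :: ω)).image (fun γ => ext g q.y q.D γ))

/-- the parameters of the step -/
structure Par (k : ℕ) where
  μ : Sp k
  Xs : Finset Rep
  ab : Rep → Hyp k → Finset (Fin k)
  j : ℕ
  r : ℕ
  N1 : ℕ
  Msub : ℕ
  c : ℝ
  δ : ℝ
  c1 : ℝ
  w0 : ℝ
  κs : ℝ
  ηs : ℝ
  ps : ℝ
  hw : 0 < w0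

/-- the state of the algorithm: inputs with colours, First-Fit part, family of experts,
First-Fit part at the start of the epoch, number of epochs, lists of the sub-games -/
structure St (k : ℕ) where
  hist : List (Inp k × ℕ)
  S : Finset (Inp k)
  fam : Hyp k → Finset (Expert k)
  S0 : Finset (Inp k)
  e : ℕ
  sub : ℕ → List (Ent k)

/-- the initial state -/
def St.init (k : ℕ) : St k where
  hist := []
  S := ∅
  fam := fun _ => {[]}
  S0 := ∅
  e := 0
  sub := fun _ => []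

/-- the space of the sub-games -/
def spc (P : Par k) (fam : Hyp k → Finset (Expert k)) : Sp k := subSp P.μ fam P.w0 P.hw

/-- the list of inputs of the sub-game `m` for a list of entries -/
def subList (P : Par k) (m : ℕ) (es : List (Ent k)) : List (Inp k) :=
  es.map (subInp P.c P.δ m)

/-- correctness of a strategy for the sub-game `m` -/
def SubOK (P : Par k) (fam : Hyp k → Finset (Expert k)) (S0 : Finset (Inp k)) (m : ℕ)
    (f : List (Inp k) → ℕ) : Prop :=
  ∀ L : List (Inp k), Adm (spc P fam) (subXs (spc P fam) P.Xs P.ab P.ps S0 m)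
    (subAb P.ab m) P.ηs L → L.length ≤ P.N1 → (spc P fam).mass (Refuted L) < P.κs →
    Good f L P.Msub

/-- the strategy of the sub-game `m` -/
def subStrat (P : Par k) (fam : Hyp k → Finset (Expert k)) (S0 : Finset (Inp k)) (m : ℕ) :
    List (Inp k) → ℕ :=
  if h : ∃ f, SubOK P fam S0 m f then h.choose else fun _ => 0

/-- colours per epoch -/
def Par.B (P : Par k) : ℕ := 1 + (P.j - 1) * P.Msub

/-- first colour of the epoch `e` -/
def base (P : Par k) (e : ℕ) : ℕ := P.r + e * P.B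

/-- colour of the sub-game `m` in the epoch `e` -/
def subCol (P : Par k) (e m i : ℕ) : ℕ := base P e + 1 + (m - 1) * P.Msub + i

/-- the requirements on the representative `v` and the sub-game `m` -/
def Pick (P : Par k) (fam : Hyp k → Finset (Expert k)) (D : Finset (Inp k)) (y v : Inp k)
    (m : ℕ) : Prop :=
  v ∈ D ∧ 1 ≤ m ∧ m < P.j ∧
  massP P.μ fam P.w0 (fun ω g => (P.ab y.x ω = P.ab v.x ω ∧ P.ab y.x ω ≠ ∅) ∧
    ¬ Ev P.c P.δ D y v ω g) ≤ P.ηs ∧
  P.ps ≤ massP P.μ fam P.w0 (fun ω g => Act P.c P.δ m ⟨y, D, v⟩ ω g)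

/-- the class `i` has no neighbour of `y` -/
def Free (st : St k) (y : Inp k) (i : ℕ) : Prop := ∀ q ∈ st.hist, q.1.t ∈ y.nb → q.2 ≠ i

/-- one step of the algorithm -/
def step (P : Par k) (st : St k) (y : Inp k) : St k :=
  if h : ∃ i, i < P.r ∧ Free st y i then
    { st with hist := st.hist ++ [(y, h.choose)], S := insert y st.S }
  else if P.c1 ≤ massP P.μ st.fam P.w0 (Bone P.c P.δ (nbS st.S y) y) then
    { hist := st.hist ++ [(y, base P st.e)]
      S := st.S
      fam := upd st.S st.fam (Bone P.c P.δ (nbS st.S y) y) (chOne (nbS st.S y) y)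
      S0 := st.S
      e := st.e + 1
      sub := fun _ => [] }
  else if h : ∃ q : Inp k × ℕ, Pick P st.fam (nbS st.S y) y q.1 q.2 then
    if P.κs ≤ (spc P st.fam).mass (Refuted (subList P h.choose.2
        (st.sub h.choose.2 ++ [⟨y, nbS st.S y, h.choose.1⟩]))) then
      { hist := st.hist ++ [(y, base P st.e)]
        S := st.S
        fam := upd st.S st.fam (fun ω g => Refuted (subList P h.choose.2
          (st.sub h.choose.2 ++ [⟨y, nbS st.S y, h.choose.1⟩])) (g :: ω))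
          (chTwo P.c P.δ h.choose.2 (st.sub h.choose.2 ++ [⟨y, nbS st.S y, h.choose.1⟩]))
        S0 := st.S
        e := st.e + 1
        sub := fun _ => [] }
    else if P.N1 ≤ (st.sub h.choose.2).length then
      { hist := st.hist ++ [(y, base P st.e)]
        S := st.S
        fam := st.fam
        S0 := st.S
        e := st.e + 1
        sub := fun _ => [] }
    else
      { st with
        hist := st.hist ++ [(y, subCol P st.e h.choose.2
          (subStrat P st.fam st.S0 h.choose.2 (subList P h.choose.2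
            (st.sub h.choose.2 ++ [⟨y, nbS st.S y, h.choose.1⟩]))))]
        sub := Function.update st.sub h.choose.2
          (st.sub h.choose.2 ++ [⟨y, nbS st.S y, h.choose.1⟩]) }
  else { st with hist := st.hist ++ [(y, base P st.e)] }

/-- the state after the list `L` -/
def exec (P : Par k) (L : List (Inp k)) : St k := L.foldl (step P) (St.init k)

/-- the strategy of the algorithm -/
def strat (P : Par k) (L : List (Inp k)) : ℕ :=
  match (exec P L).hist.getLast? with
  | some q => q.2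
  | none => 0

/-- the invariant of the algorithm -/
structure Inv (P : Par k) (l Lam : ℝ) (L : List (Inp k)) (st : St k) : Prop where
  hist : st.hist.map Prod.fst = L
  memS : ∀ u, u ∈ st.S ↔ ∃ i, i < P.r ∧ (u, i) ∈ st.hist
  S0S : st.S0 ⊆ st.S
  fam : FamInv P.μ L st.S0 st.fam l
  ent : ∀ m, ∀ q ∈ st.sub m, q.D ⊆ st.S ∧ P.r ≤ q.D.card ∧ (∀ u ∈ q.D, u.t ∈ q.y.nb) ∧
    q.v ∈ q.D
  subl : ∀ m, ((st.sub m).map Ent.y).Sublist L
  len : ∀ m, (st.sub m).length ≤ P.N1
  adm : ∀ m, Adm (spc P st.fam) (subXs (spc P st.fam) P.Xs P.ab P.ps st.S0 m)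
    (subAb P.ab m) P.ηs (subList P m (st.sub m))
  good : ∀ m, Good (subStrat P st.fam st.S0 m) (subList P m (st.sub m)) P.Msub
  cols : ∀ q ∈ st.hist, q.2 < base P st.e ∨ ∃ m, 1 ≤ m ∧ m < P.j ∧
    ∃ q' ∈ run (subStrat P st.fam st.S0 m) (subList P m (st.sub m)), q'.1.t = q.1.t ∧
      q.2 = subCol P st.e m q'.2
  prop : st.hist.Pairwise (fun u y => u.1.t ∈ y.1.nb → u.2 ≠ y.2)
  cnt : ∃ nf nt : ℕ, st.e = nf + nt ∧ P.c1 / 2 * (nf : ℝ) ≤ Phi P.μ st.fam P.w0 Lam ∧
    nt * P.N1 + ∑ m ∈ Finset.range P.j, (st.sub m).length ≤ L.length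

/-- relations between the parameters of the step and of the sub-games -/
structure ParOK (P : Par k) (η κ κ0 : ℝ) (N M0 : ℕ) : Prop where
  hj : 3 ≤ P.j
  hk : P.j ≤ k
  hr : 1 ≤ P.r
  hc : 0 < P.c
  hδ : 0 < P.δ
  hδ1 : P.δ ≤ 1
  hc1 : 0 < P.c1
  hc1s : P.c1 ≤ P.κs
  hη : 0 ≤ η
  hw : P.w0 * (2 * k * (P.N1 + 1)) ≤ 1
  hηs : 2 * η + P.δ + P.c1 + k * P.c ≤ P.ηs
  hps : P.ps ≤ κ0 / (2 * k)
  hps0 : 0 < P.ps
  hκ : κ + P.ηs ≤ κ0 / 2
  hXs : P.Xs.card ≤ M0
  hab : ∀ x ∈ P.Xs, ∀ ω ∈ P.μ.sp, P.ab x ω ≠ ∅ → (P.ab x ω).card = P.j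
  hag : ∀ x ∈ P.Xs, ∀ x' ∈ P.Xs,
    κ0 ≤ P.μ.mass (fun ω => P.ab x ω = P.ab x' ω ∧ P.ab x ω ≠ ∅)
  hsub : ∀ m, 1 ≤ m → m < P.j → Claim k m P.N1 P.κs P.ηs P.ps (M0 * N) P.Msub

end Pool.Agent.H45.OC
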